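import Pool.Agent.CorD.Fin

/-!
# The theta degree of a correspondence: definitions

`s : A → M`, `t : B → M` are embeddings of function fields over `k`: two finite morphisms from the
curve `Z` with function field `M` to the curves `X`, `Y` with function fields `A`, `B`.
-/

set_option autoImplicit false

open Module

open scoped Classical

noncomputable section

namespace Pool.Agent.CorF

open Pool.Agent.EllHiggs Pool.Agent.CorD

variable {k A B M : Type} [Field k] [Field A] [Field B] [Field M] [Algebra k A] [Algebra k B]
  [Algebra k M]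

/-- The place `w` of `B` lies over the place `v` of `A` (for the embedding `φ`). -/
def Ov (φ : A →ₐ[k] B) (w : Place k B) (v : Place k A) : Prop :=
  ∃ e : ℤ, 0 < e ∧ ∀ g : A, w.ord (φ g) = e * v.ord g

/-- The ramification index of `w` over `v`. -/
def ram (φ : A →ₐ[k] B) (w : Place k B) (v : Place k A) : ℤ := w.ord (φ v.unif)

/-- The multiplicity of the point `y` of `Y` in the effective divisor `b_* a^* x` of `Y`, the image
of the fibre over the point `x` of `X` (`a : Z → X` and `b : Z → Y` given by `s` and `t`). -/
def fbr (s : A →ₐ[k] M) (t : B →ₐ[k] M) (x : Place k A) (y : Place k B) : ℤ :=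
  ∑ᶠ z : Place k M, if Ov s z x ∧ Ov t z y then ram s z x else 0

/-- The divisor `D - a` is linearly equivalent to an effective divisor. -/
def Eff (D : Place k B →₀ ℤ) (a : Place k B → ℤ) : Prop :=
  ∃ g : B, g ≠ 0 ∧ ∀ v : Place k B, v.Ge (a v - D v) g

/-- The divisors `b_* a^* x`, for all points `x` of `X`, are linearly equivalent. -/
def Cst (s : A →ₐ[k] M) (t : B →ₐ[k] M) : Prop :=
  ∀ x x' : Place k A, ∃ g : B, g ≠ 0 ∧ ∀ y : Place k B, y.ord g = fbr s t x y - fbr s t x' y

/-- The theta degree of `x ↦ b_* a^* x` is at least `n`: for a divisor `D` of degree `p + γ - 1`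
(`p` the degree of `Z` over `X`, `γ` the genus of `Y`) such that `D - b_* a^* x` is not equivalent to
an effective divisor for a point `x` for which `b_* a^* x` consists of `p` different points, there are at
least `n` points `x` such that `D - b_* a^* x` is equivalent to an effective divisor. -/
def Theta (s : A →ₐ[k] M) (t : B →ₐ[k] M) (γ n : ℕ) : Prop :=
  ∃ D : Place k B →₀ ℤ, dg D + 1 = (finrank s.fieldRange M : ℤ) + γ ∧
    (∃ x, (∀ y, fbr s t x y ≤ 1) ∧ ¬ Eff D (fbr s t x)) ∧
    ∃ S : Finset (Place k A), n ≤ S.card ∧ ∀ x ∈ S, Eff D (fbr s t x)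

end Pool.Agent.CorF
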