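import Pool.Agent.CorF.Plc

/-! # The determinant -/

set_option autoImplicit false

open Module

open scoped Classical

noncomputable section

namespace Pool.Agent.CorF

open Pool.Agent.EllHiggs Pool.Agent.CorD

section det

variable {k N : Type} [Field k] [Field N] [Algebra k N]

-- BEGIN dge
private theorem dge_prod (w : Place k N) {ι : Type} (S : Finset ι) (f : ι → N) (m : ι → ℤ)
    (h : ∀ i ∈ S, w.Ge (m i) (f i)) : w.Ge (∑ i ∈ S, m i) (∏ i ∈ S, f i) := by
  induction S using Finset.induction_on with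
  | empty =>
    rw [Finset.sum_empty, Finset.prod_empty]
    refine Or.inr ?_
    have h1 := w.ord_const 1
    rw [map_one] at h1
    exact h1.ge
  | insert a S ha ih =>
    rw [Finset.sum_insert ha, Finset.prod_insert ha]
    exact (h a (Finset.mem_insert_self a S)).mul
      (ih fun i hi => h i (Finset.mem_insert_of_mem hi))

/-- ROW dge. `Matrix.det_apply`, `Place.Ge.sum`, `Place.Ge.neg` (signs), a product of elements of order at least
`m j` has order at least the sum (induction over the finset, `Place.Ge.mul`). -/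
theorem det_ge (w : Place k N) {p : ℕ} (A : Matrix (Fin p) (Fin p) N) (m : Fin p → ℤ)
    (h : ∀ i j, w.Ge (m j) (A i j)) : w.Ge (∑ j, m j) A.det := by
  rw [Matrix.det_apply]
  refine Place.Ge.sum fun σ _ => ?_
  have h1 : w.Ge (∑ j, m j) (∏ i, A (σ i) i) :=
    dge_prod w Finset.univ (fun i => A (σ i) i) m fun i _ => h (σ i) i
  rcases Int.units_eq_one_or (Equiv.Perm.sign σ) with h2 | h2
  · rw [h2, one_smul]
    exact h1
  · rw [h2, Units.neg_smul, one_smul]
    exact h1.neg
-- END dge

-- BEGIN dge2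
private theorem dge2_prod (w : Place k N) {ι : Type} (s : Finset ι) (f : ι → N) (a : ι → ℤ)
    (h : ∀ i ∈ s, w.Ge (a i) (f i)) : w.Ge (∑ i ∈ s, a i) (∏ i ∈ s, f i) := by
  classical
  induction s using Finset.induction_on with
  | empty =>
    rw [Finset.sum_empty, Finset.prod_empty]
    exact Place.Ge.of_le w.ord_one.ge
  | insert i s hi ih =>
    rw [Finset.sum_insert hi, Finset.prod_insert hi]
    exact (h i (Finset.mem_insert_self i s)).mul
      (ih fun j hj => h j (Finset.mem_insert_of_mem hj))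

private theorem dge2_row (w : Place k N) {p : ℕ} (B : Matrix (Fin p) (Fin p) N) (m : Fin p → ℤ)
    (i0 : Fin p) (ε : ℤ) (h : ∀ i j, w.Ge (m j + (if i = i0 then ε else 0)) (B i j)) :
    w.Ge (∑ j, m j + ε) B.det := by
  rw [Matrix.det_apply]
  refine Place.Ge.sum fun σ _ => ?_
  have h1 : w.Ge (∑ j, (m j + (if σ j = i0 then ε else 0))) (∏ j, B (σ j) j) :=
    dge2_prod w Finset.univ _ _ fun j _ => h (σ j) j
  have h2 : ∑ j, (m j + (if σ j = i0 then ε else 0)) = ∑ j, m j + ε := by
    rw [Finset.sum_add_distrib]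
    congr 1
    rw [Equiv.sum_comp σ (fun i => if i = i0 then ε else 0)]
    simp
  rw [h2] at h1
  rcases Int.units_eq_one_or (Equiv.Perm.sign σ) with h3 | h3
  · rw [h3, one_smul]
    exact h1
  · rw [h3, Units.neg_smul, one_smul]
    exact h1.neg

/-- ROW dge2. `c i0 ≠ 0`. `(A.updateRow i0 (∑ i, c i • A i)).det = c i0 * A.det`
(`Matrix.det_updateRow_sum`), and in each term of this determinant exactly one factor comes from the row
`i0`, it has order at least `m j + ε` (`Matrix.det_apply`, the product over `j ≠ σ⁻¹ i0` and this one). `w.ord (c i0) = 0`. -/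
theorem det_ge2 (w : Place k N) {p : ℕ} (A : Matrix (Fin p) (Fin p) N) (m : Fin p → ℤ)
    (h : ∀ i j, w.Ge (m j) (A i j)) (c : Fin p → k) (hc : c ≠ 0) (ε : ℤ)
    (h' : ∀ j, w.Ge (m j + ε) (∑ i, algebraMap k N (c i) * A i j)) :
    w.Ge (∑ j, m j + ε) A.det := by
  obtain ⟨i0, hi0⟩ := Function.ne_iff.1 hc
  have hi1 : c i0 ≠ 0 := hi0
  have h1 := Matrix.det_updateRow_sum A i0 (fun i => algebraMap k N (c i))
  have h2 : w.Ge (∑ j, m j + ε)
      (A.updateRow i0 (∑ i, (algebraMap k N (c i)) • A i)).det := by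
    refine dge2_row w _ m i0 ε fun i j => ?_
    by_cases hi : i = i0
    · rw [if_pos hi, hi, Matrix.updateRow_self]
      have h3 : (∑ i, (algebraMap k N (c i)) • A i) j = ∑ i, algebraMap k N (c i) * A i j := by
        rw [Finset.sum_apply]
        rfl
      rw [h3]
      exact h' j
    · rw [if_neg hi, add_zero, Matrix.updateRow_ne hi]
      exact h i j
  rw [h1] at h2
  have h4 : w.Ge 0 (algebraMap k N (c i0)⁻¹) := Place.Ge.of_le (w.ord_const _).ge
  have h5 := h4.mul h2
  rw [zero_add] at h5
  have h6 : algebraMap k N (c i0)⁻¹ * ((algebraMap k N (c i0)) • A.det) = A.det := by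
    rw [smul_eq_mul, ← mul_assoc, ← map_mul, inv_mul_cancel₀ hi1, map_one, one_mul]
  rwa [h6] at h5
-- END dge2

end det

section emb

variable {k L M N : Type} [Field k] [Field L] [Field M] [Field N] [Algebra k L] [Algebra k M]
  [Algebra k N] [Algebra L M] [Algebra L N] [Algebra M N] [IsScalarTower k L M]
  [IsScalarTower k L N] [IsScalarTower k M N] [IsScalarTower L M N] [FiniteDimensional L M]
  [FiniteDimensional M N] [Normal L N] [CharZero L]

-- BEGIN dne
/-- ROW dne. If the determinant is zero there is `c : Fin p → N`, `c ≠ 0`, with `∑ j, e j (b i) * c j = 0` for all `i`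
(`Matrix.exists_mulVec_eq_zero_iff`), so `∑ j, c j * e j x = 0` for all `x` in the span of `b`, which is `M`
(`LinearIndependent.span_eq_top_of_card_eq_finrank`). Distinct homomorphisms are linearly independent over `N`
(`linearIndependent_monoidHom`). -/
theorem det_ne {p : ℕ} (hp : finrank L M = p) (b : Fin p → M) (hb : LinearIndependent L b)
    (e : Fin p ≃ (M →ₐ[L] N)) : (Matrix.of fun i j => e j (b i)).det ≠ 0 := by
  intro hdet
  obtain ⟨c, hc, h⟩ := Matrix.exists_mulVec_eq_zero_iff.2 hdet
  have hspan : Submodule.span L (Set.range b) = ⊤ :=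
    hb.span_eq_top_of_card_eq_finrank' (by rw [Fintype.card_fin, hp])
  have h1 : ∀ x : M, ∑ j, c j * e j x = 0 := by
    intro x
    have hx : x ∈ Submodule.span L (Set.range b) := by
      rw [hspan]
      trivial
    refine Submodule.span_induction (p := fun y _ => ∑ j, c j * e j y = 0) ?_ ?_ ?_ ?_ hx
    · rintro _ ⟨i, rfl⟩
      have h2 := congrFun h i
      rw [Matrix.mulVec, Pi.zero_apply] at h2
      unfold dotProduct at h2
      simp only [Matrix.of_apply] at h2
      rw [← h2]
      exact Finset.sum_congr rfl fun j _ => mul_comm _ _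
    · simp
    · intro y z _ _ hy hz
      simp only [map_add, mul_add, Finset.sum_add_distrib, hy, hz, add_zero]
    · intro a y _ hy
      have h3 : ∑ j, c j * e j (a • y) = a • ∑ j, c j * e j y := by
        rw [Finset.smul_sum]
        refine Finset.sum_congr rfl fun j _ => ?_
        rw [map_smul, mul_smul_comm]
      rw [h3, hy, smul_zero]
  have hli := linearIndependent_monoidHom M N
  have hinj : Function.Injective fun j : Fin p => ((e j : M →ₐ[L] N) : M →* N) := by
    intro i j hij
    have h4 : e i = e j := by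
      ext y
      exact DFunLike.congr_fun hij y
    exact e.injective h4
  have h5 := hli.comp _ hinj
  rw [Fintype.linearIndependent_iff] at h5
  refine hc (funext fun j => h5 c ?_ j)
  funext x
  rw [Finset.sum_apply, Pi.zero_apply, ← h1 x]
  exact Finset.sum_congr rfl fun j _ => rfl
-- END dne

-- BEGIN crd
/-- ROW crd. As `card_hom` in CorE/Trc.lean (`AlgHom.card_of_splits`): copy; then `Fintype.equivFinOfCardEq`. -/
theorem hom_equiv {p : ℕ} (hp : finrank L M = p) : Nonempty (Fin p ≃ (M →ₐ[L] N)) := by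
  have h1 : Algebra.IsSeparable L M := inferInstance
  have h2 : Fintype.card (M →ₐ[L] N) = finrank L M := by
    refine AlgHom.card_of_splits L M N fun x => ?_
    have h3 : minpoly L (algebraMap M N x) = minpoly L x :=
      minpoly.algebraMap_eq (algebraMap M N).injective x
    have h4 := (inferInstance : Normal L N).splits (algebraMap M N x)
    rwa [h3] at h4
  exact ⟨(Fintype.equivFinOfCardEq (h2.trans hp)).symm⟩
-- END crd

-- BEGIN fico
private theorem fico_deg (σ : M →ₐ[L] N) :
    finrank (σ.restrictScalars k).fieldRange N = finrank M N := by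
  have h0 : finrank (σ.restrictScalars k).fieldRange N = finrank σ.fieldRange N := by
    let i : (σ.restrictScalars k).fieldRange ≃+* σ.fieldRange :=
      { toFun := fun x => ⟨x.1, x.2⟩
        invFun := fun x => ⟨x.1, x.2⟩
        left_inv := fun _ => rfl
        right_inv := fun _ => rfl
        map_mul' := fun _ _ => rfl
        map_add' := fun _ _ => rfl }
    exact Algebra.finrank_eq_of_equiv_equiv i (RingEquiv.refl N) rfl
  rw [h0]
  have h1 : finrank L σ.fieldRange * finrank σ.fieldRange N = finrank L N :=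
    finrank_mul_finrank L σ.fieldRange N
  have h2 : finrank L M * finrank M N = finrank L N := finrank_mul_finrank L M N
  have h3 : finrank L M = finrank L σ.fieldRange :=
    (AlgEquiv.ofInjectiveField σ).toLinearEquiv.finrank_eq
  have h4 : 0 < finrank L M := finrank_pos
  rw [← h3] at h1
  exact Nat.eq_of_mul_eq_mul_left h4 (h1.trans h2.symm)

/-- ROW fico. `σ : M → N` over `L` (so `[N : σ M] = [N : M]`: both times `[M : L]` are `[N : L]`), `t : K → M`.
`(σ.restrictScalars k).comp t` has range `σ (t K)` and `[N : σ (t K)] = [N : σ M] [M : t K]`. Work with the algebra structures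
(`RingHom.toAlgebra`) and `rng` (CorD/Cor.lean), `Module.finrank_mul_finrank`, or with `IntermediateField.map`, `AlgHom.fieldRange`. -/
theorem fin_comp {K : Type} [Field K] [Algebra k K] (t : K →ₐ[k] M)
    [FiniteDimensional t.fieldRange M] (σ : M →ₐ[L] N) :
    FiniteDimensional ((σ.restrictScalars k).comp t).fieldRange N ∧
      finrank ((σ.restrictScalars k).comp t).fieldRange N =
        finrank M N * finrank t.fieldRange M := by
  have e1 : t.fieldRange.map (σ.restrictScalars k) = ((σ.restrictScalars k).comp t).fieldRange :=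
    AlgHom.map_fieldRange _ _
  have e2 : (⊤ : IntermediateField k M).map (σ.restrictScalars k) =
      (σ.restrictScalars k).fieldRange := (AlgHom.fieldRange_eq_map _).symm
  have hle : ((σ.restrictScalars k).comp t).fieldRange ≤ (σ.restrictScalars k).fieldRange := by
    rw [← e1, ← e2]
    exact IntermediateField.map_mono _ le_top
  have h1 := IntermediateField.relfinrank_mul_finrank_top hle
  have h2 : IntermediateField.relfinrank ((σ.restrictScalars k).comp t).fieldRange
      (σ.restrictScalars k).fieldRange = finrank t.fieldRange M := by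
    rw [← e1, ← e2, IntermediateField.relfinrank_map_map, IntermediateField.relfinrank_top_right]
  have h3 : finrank ((σ.restrictScalars k).comp t).fieldRange N =
      finrank M N * finrank t.fieldRange M := by
    rw [← h1, h2, fico_deg, mul_comm]
  have h5 : 0 < finrank M N := finrank_pos
  have h6 : 0 < finrank t.fieldRange M := finrank_pos
  exact ⟨Module.finite_of_finrank_pos (by rw [h3]; exact Nat.mul_pos h5 h6), h3⟩
-- END fico

end emb

section ind

variable {k A B M : Type} [Field k] [Field A] [Field B] [Field M] [Algebra k A] [Algebra k B]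
  [Algebra k M] [IsAlgClosed k] [CharZero k]

-- BEGIN ind
private theorem ind_ge {φ : A →ₐ[k] M} {w : Place k M} {v : Place k A} (h : Ov φ w v) {m : ℤ}
    {g : A} (hg : v.Ge m g) : w.Ge (ram φ w v * m) (φ g) := by
  obtain ⟨h1, h2⟩ := ov_spec h
  rcases hg with rfl | hg
  · rw [map_zero]; exact Place.Ge.zero
  · exact Place.Ge.of_le (by rw [h2]; exact mul_le_mul_of_nonneg_left hg h1.le)

/-- ROW ind. Suppose `∑ α i * t (f i) = 0` with `α : Fin n → A` not zero (here `α i` acts by `s`). Divide by the
`α i` of least order at `x` (among the nonzero ones): all `α i` are in `x.O` and one is `1`. Put `c i = x.res (α i)`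
(`Place.rational`, EllHiggs/PlaceRes.lean: `x.Ge 1 (α i - c i)`, `Place.ge_res`), `g = ∑ c i • f i`, not zero by the independence of `f`
(`c ≠ 0`: `Place.res_const`). Claim: `y.Ge (fbr s t x y - D y) g` for all `y`, which contradicts `hx`. `y.Ge (-(D y)) g` as `f i ∈ Lsp D`. If `fbr s t x y ≤ 0` done.
Otherwise `fbr s t x y = 1`; `z` over `x` and `y` (`fbr_facts`), `e = ram s z x`, `e' = ram t z y`. `t g = ∑ (c i - s (α i)) * t (f i)` has order at least
`e * 1 + e' * (-(D y))` at `z` (`ov_spec`), so `e' * y.ord g ≥ e - e' * D y > -(e' * D y)`, so `y.ord g > -(D y)`. -/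
theorem indep (hA : IsFunField k A) (s : A →ₐ[k] M) [FiniteDimensional s.fieldRange M]
    (t : B →ₐ[k] M) [FiniteDimensional t.fieldRange M] (D : Place k B →₀ ℤ) (x : Place k A)
    (h1 : ∀ y, fbr s t x y ≤ 1) (hx : ¬ Eff D (fbr s t x)) {n : ℕ} (f : Fin n → B)
    (hf : LinearIndependent k f) (hfD : ∀ i, f i ∈ Lsp D) (α : Fin n → A)
    (h0 : ∑ i, s (α i) * t (f i) = 0) : α = 0 := by
  by_contra hα
  obtain ⟨j, hj⟩ : ∃ j, α j ≠ 0 := by
    by_contra hcon
    push Not at hcon
    exact hα (funext hcon)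
  obtain ⟨i0, hi0, hmin⟩ := Finset.exists_min_image (Finset.univ.filter fun i => α i ≠ 0)
    (fun i => x.ord (α i)) ⟨j, by simpa using hj⟩
  have hi0' : α i0 ≠ 0 := by simpa using hi0
  have hrat : x.Rational := Place.rational hA x
  have hβ : ∀ i, α i * (α i0)⁻¹ ∈ x.O := by
    intro i
    by_cases hi : α i = 0
    · rw [hi, zero_mul]; exact zero_mem _
    · rw [Place.mem_O, x.ord_mul _ _ hi (inv_ne_zero hi0'), x.ord_inv]
      have := hmin i (by simpa using hi)
      omega
  have hres : ∀ i, x.Ge 1 (α i * (α i0)⁻¹ - algebraMap k A (x.res (α i * (α i0)⁻¹))) :=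
    fun i => Place.ge_res hrat (hβ i)
  have hc0 : x.res (α i0 * (α i0)⁻¹) = 1 := by
    rw [mul_inv_cancel₀ hi0', ← map_one (algebraMap k A)]
    exact Place.res_const 1
  have hg0 : ∑ i, x.res (α i * (α i0)⁻¹) • f i ≠ 0 := by
    intro h
    have h2 := Fintype.linearIndependent_iff.1 hf (fun i => x.res (α i * (α i0)⁻¹)) h i0
    simp only [hc0] at h2
    exact one_ne_zero h2
  apply hx
  refine ⟨∑ i, x.res (α i * (α i0)⁻¹) • f i, hg0, fun y => ?_⟩
  have hgD : y.Ge (-(D y)) (∑ i, x.res (α i * (α i0)⁻¹) • f i) := by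
    refine Place.Ge.sum fun i _ => ?_
    have h2 := (y.ge_zero_iff.2 (Place.mem_O_const (c := y) (x.res (α i * (α i0)⁻¹)))).mul
      ((mem_Lsp D (f i)).1 (hfD i) y)
    rw [zero_add] at h2
    rw [Algebra.smul_def]
    exact h2
  obtain ⟨hn, -, hz⟩ := fbr_facts hA s t x y
  by_cases hf0 : fbr s t x y = 0
  · rw [hf0]
    exact hgD.mono (by omega)
  · have hf1 : fbr s t x y = 1 := by
      have := h1 y
      omega
    obtain ⟨z, hzx, hzy⟩ := hz hf0
    have hsum : t (∑ i, x.res (α i * (α i0)⁻¹) • f i) =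
        ∑ i, -s (α i * (α i0)⁻¹ - algebraMap k A (x.res (α i * (α i0)⁻¹))) * t (f i) := by
      have h2 : ∑ i, s (α i * (α i0)⁻¹) * t (f i) = 0 := by
        have h3 : ∀ i, s (α i * (α i0)⁻¹) * t (f i) = s (α i0)⁻¹ * (s (α i) * t (f i)) := by
          intro i
          rw [map_mul]
          ring
        rw [Finset.sum_congr rfl fun i _ => h3 i, ← Finset.mul_sum, h0, mul_zero]
      have h4 : ∀ i, -s (α i * (α i0)⁻¹ - algebraMap k A (x.res (α i * (α i0)⁻¹))) * t (f i) =
          algebraMap k M (x.res (α i * (α i0)⁻¹)) * t (f i) -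
            s (α i * (α i0)⁻¹) * t (f i) := by
        intro i
        rw [map_sub, AlgHom.commutes]
        ring
      rw [Finset.sum_congr rfl fun i _ => h4 i, Finset.sum_sub_distrib, h2, sub_zero, map_sum]
      refine Finset.sum_congr rfl fun i _ => ?_
      rw [map_smul, Algebra.smul_def]
    have hge : z.Ge (ram s z x * 1 + ram t z y * (-(D y)))
        (t (∑ i, x.res (α i * (α i0)⁻¹) • f i)) := by
      rw [hsum]
      exact Place.Ge.sum fun i _ =>
        (ind_ge hzx (hres i)).neg.mul (ind_ge hzy ((mem_Lsp D (f i)).1 (hfD i) y))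
    have hne : t (∑ i, x.res (α i * (α i0)⁻¹) • f i) ≠ 0 := by
      rw [Ne, map_eq_zero]
      exact hg0
    have hle := hge.le_ord hne
    obtain ⟨e1, e2⟩ := ov_spec hzy
    obtain ⟨e3, -⟩ := ov_spec hzx
    rw [e2] at hle
    refine Place.Ge.of_le ?_
    rw [hf1]
    by_contra hcon
    push Not at hcon
    have h5 : y.ord (∑ i, x.res (α i * (α i0)⁻¹) • f i) ≤ -(D y) := by omega
    have h6 := mul_le_mul_of_nonneg_left h5 e1.le
    omega
-- END ind

-- BEGIN bas
/-- ROW bas. `n = finrank k (Lsp D)` (finite-dimensional, `van`, CorD/Gen.lean), a basis of `Lsp D`. `n ≤ p` because the `t (f i)` are independent over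
`A` (`indep`, with the algebra structure of `s` on `M`, `rng`; `LinearIndependent.fintype_card_le_finrank`), `p ≤ n` by `hγ.1 D` and `hD`. -/
theorem basD (hA : IsFunField k A) (hB : IsFunField k B) (s : A →ₐ[k] M)
    [FiniteDimensional s.fieldRange M] (t : B →ₐ[k] M) [FiniteDimensional t.fieldRange M] {γ : ℕ}
    (hγ : IsGenus k B γ) (D : Place k B →₀ ℤ)
    (hD : dg D + 1 = (finrank s.fieldRange M : ℤ) + γ) (x : Place k A)
    (h1 : ∀ y, fbr s t x y ≤ 1) (hx : ¬ Eff D (fbr s t x)) :
    ∃ f : Fin (finrank s.fieldRange M) → B, LinearIndependent k f ∧ (∀ i, f i ∈ Lsp D) ∧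
      ∀ g ∈ Lsp D, ∃ c : Fin (finrank s.fieldRange M) → k, g = ∑ i, algebraMap k B (c i) * f i := by
  obtain ⟨g0, -, hfd, -⟩ := van hB
  have hDfd : FiniteDimensional k (Lsp D) := hfd D
  have key : ∀ {n : ℕ} (b : Basis (Fin n) k (Lsp D)),
      LinearIndependent k (fun i => (b i : B)) := fun b =>
    b.linearIndependent.map' (Lsp D).subtype (Submodule.ker_subtype _)
  let b0 : Basis (Fin (finrank k (Lsp D))) k (Lsp D) := Module.finBasis k (Lsp D)
  let alg : Algebra A M := s.toRingHom.toAlgebra
  obtain ⟨hfdM, hfr, -⟩ := rng s (fun _ => rfl)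
  have hind : LinearIndependent A (fun i => t (b0 i : B)) := by
    rw [Fintype.linearIndependent_iff]
    intro α h0 i
    have h := indep hA s t D x h1 hx (fun i => (b0 i : B)) (key b0) (fun i => (b0 i).2) α
      (by
        rw [← h0]
        exact Finset.sum_congr rfl fun i _ => (Algebra.smul_def (α i) (t (b0 i : B))).symm)
    exact congrFun h i
  have hle : finrank k (Lsp D) ≤ finrank A M := by
    have := hind.fintype_card_le_finrank
    simpa using this
  have hge := hγ.1 D
  have hn : finrank k (Lsp D) = finrank s.fieldRange M := by omega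
  let b : Basis (Fin (finrank s.fieldRange M)) k (Lsp D) := b0.reindex (finCongr hn)
  refine ⟨fun i => (b i : B), key b, fun i => (b i).2, fun g hg => ⟨fun i => b.repr ⟨g, hg⟩ i, ?_⟩⟩
  have h := congrArg (Lsp D).subtype (b.sum_repr ⟨g, hg⟩)
  rw [map_sum] at h
  refine h.symm.trans (Finset.sum_congr rfl fun i _ => ?_)
  rw [map_smul, Algebra.smul_def]
  rfl
-- END bas

-- BEGIN loc
/-- ROW loc. `r` is the embedding of `M` which belongs to the column, `u` the place of `M` below `w` (`ov_down`). `y` is below `u` for `t`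
(`ov_comp`, `ov_uniq`), and `x` is below `u` for `s` (same, `r.comp s = q`). `0 ≤ fbr`, so `g ∈ Lsp D`-like bound `y.Ge (fbr s t x y - D y) g`, `fbr s t x y ≥ ram s u x`
(`fbr_facts`). So at `w`: order of `r (t g)` is `ram * y.ord g ≥ ram (r.comp t) w y * (ram s u x - D y)` and `ram (r.comp t) w y * ram s u x = ram r w u * ram t u y * ram s u x ≥
ram r w u * ram s u x = ram q w x`. -/
theorem loc_ge {N : Type} [Field N] [Algebra k N] (hA : IsFunField k A) (s : A →ₐ[k] M)
    [FiniteDimensional s.fieldRange M] (t : B →ₐ[k] M) [FiniteDimensional t.fieldRange M]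
    (D : Place k B →₀ ℤ) (q : A →ₐ[k] N) (r : M →ₐ[k] N) [FiniteDimensional r.fieldRange N]
    (hr : r.comp s = q) (w : Place k N) (x : Place k A) (hw : Ov q w x) (y : Place k B)
    (hy : Ov (r.comp t) w y) (g : B) (hg : ∀ v : Place k B, v.Ge (fbr s t x v - D v) g) :
    w.Ge (-(ram (r.comp t) w y * D y) + ram q w x) (r (t g)) := by
  subst hr
  rcases eq_or_ne g 0 with rfl | hg0
  · rw [map_zero, map_zero]
    exact Or.inl rfl
  obtain ⟨u, hu⟩ := ov_down r w
  obtain ⟨x₁, hx₁⟩ := ov_down s u
  obtain ⟨y₁, hy₁⟩ := ov_down t u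
  obtain ⟨cx, rx⟩ := ov_comp hx₁ hu
  obtain ⟨cy, ry⟩ := ov_comp hy₁ hu
  obtain rfl : x₁ = x := ov_uniq cx hw
  obtain rfl : y₁ = y := ov_uniq cy hy
  obtain ⟨p1, -⟩ := ov_spec hu
  obtain ⟨p2, -⟩ := ov_spec hx₁
  obtain ⟨p3, -⟩ := ov_spec hy₁
  obtain ⟨p4, h4⟩ := ov_spec hy
  obtain ⟨-, hf, -⟩ := fbr_facts hA s t x₁ y₁
  have h5 := hf u hx₁ hy₁
  have h6 : fbr s t x₁ y₁ - D y₁ ≤ y₁.ord g := (hg y₁).resolve_left hg0
  refine Or.inr ?_
  have h7 : w.ord (r (t g)) = ram (r.comp t) w y₁ * y₁.ord g := h4 g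
  rw [h7, rx]
  have h8 : ram (r.comp t) w y₁ * (ram s u x₁ - D y₁) ≤ ram (r.comp t) w y₁ * y₁.ord g :=
    mul_le_mul_of_nonneg_left (by linarith) p4.le
  have h9 : ram r w u * ram s u x₁ ≤ ram (r.comp t) w y₁ * ram s u x₁ := by
    refine mul_le_mul_of_nonneg_right ?_ p2.le
    rw [ry]
    nlinarith
  have h10 : ram (r.comp t) w y₁ * (ram s u x₁ - D y₁) =
      ram (r.comp t) w y₁ * ram s u x₁ - ram (r.comp t) w y₁ * D y₁ := mul_sub _ _ _
  linarith
-- END loc

end ind

end Pool.Agent.CorF
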