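import Pool.Agent.CorF.Plc

/-! # The theta degree of the graph of a covering -/

set_option autoImplicit false

open Module Polynomial

open scoped Classical

noncomputable section

namespace Pool.Agent.CorF

open Pool.Agent.EllHiggs Pool.Agent.CorD

variable {k A B : Type} [Field k] [Field A] [Field B] [Algebra k A] [Algebra k B]
  [IsAlgClosed k] [CharZero k]

-- BEGIN unr
private theorem unr_int {B O : Type} {k : Type} [Field k] [Field B] [Algebra k B] [CommRing O]
    (w : Place k B) (ι : O →+* B) (θ : B) (P : O[X]) (hP : P.Monic) (h0 : eval₂ ι θ P = 0)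
    (hO : ∀ a, w.Ge 0 (ι a)) : w.Ge 0 θ := by
  by_contra hcon
  rw [Place.Ge, not_or, not_le] at hcon
  obtain ⟨hθ, hneg⟩ := hcon
  have hn : P.natDegree ≠ 0 := by
    intro hn
    rw [hP.natDegree_eq_zero.1 hn] at h0
    simp at h0
  obtain ⟨n, hn⟩ := Nat.exists_eq_succ_of_ne_zero hn
  have h1 := h0
  rw [eval₂_eq_sum_range, hn, Finset.sum_range_succ] at h1
  have hlc : P.coeff n.succ = 1 := by rw [← hn]; exact hP.coeff_natDegree
  rw [hlc, map_one, one_mul] at h1
  have h2 : w.Ge (n * w.ord θ) (∑ i ∈ Finset.range n.succ, ι (P.coeff i) * θ ^ i) := by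
    refine Place.Ge.sum fun i hi => ?_
    have hi' : i ≤ n := Nat.lt_succ_iff.1 (Finset.mem_range.1 hi)
    have h3 : w.Ge (n * w.ord θ) (θ ^ i) := by
      refine Or.inr ?_
      rw [w.ord_pow]
      have : (i : ℤ) ≤ n := by exact_mod_cast hi'
      nlinarith
    have h4 := (hO (P.coeff i)).mul h3
    rwa [zero_add] at h4
  have h3 : w.Ge (n * w.ord θ) (θ ^ n.succ) := by
    have : θ ^ n.succ = - ∑ i ∈ Finset.range n.succ, ι (P.coeff i) * θ ^ i :=
      (neg_eq_of_add_eq_zero_right h1).symm
    rw [this]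
    exact h2.neg
  have h4 := h3.le_ord (pow_ne_zero _ hθ)
  rw [w.ord_pow] at h4
  push_cast at h4
  nlinarith

private theorem unr_ge {B O : Type} {k : Type} [Field k] [Field B] [Algebra k B] [CommRing O]
    (w : Place k B) (ι : O →+* B) (θ : B) (hθ : w.Ge 0 θ)
    (hO : ∀ a, w.Ge 0 (ι a)) (G : O[X]) : w.Ge 0 (eval₂ ι θ G) := by
  rw [eval₂_eq_sum_range]
  refine Place.Ge.sum fun i _ => ?_
  have h3 : w.Ge 0 (θ ^ i) := by
    rcases hθ with h | h
    · subst h
      rcases eq_or_ne i 0 with rfl | hi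
      · rw [pow_zero]
        exact Or.inr w.ord_one.ge
      · rw [zero_pow hi]
        exact Place.Ge.zero
    · refine Or.inr ?_
      rw [w.ord_pow]
      positivity
  have h4 := (hO (G.coeff i)).mul h3
  rwa [zero_add] at h4

private theorem unr_div {O : Type} [CommRing O] (c : O) (G : O[X]) :
    ∃ H : O[X], G = C (G.eval c) + (X - C c) * H := by
  obtain ⟨H, hH⟩ := X_sub_C_dvd_sub_C_eval (a := c) (p := G)
  exact ⟨H, by rw [← hH]; ring⟩

private theorem unr_dvd {B O : Type} {k : Type} [Field k] [Field B] [Algebra k B] [CommRing O]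
    (w : Place k B) (ι : O →+* B) (θ : B) (P : O[X]) (h0 : eval₂ ι θ P = 0)
    (hO : ∀ a, w.Ge 0 (ι a)) (hθ : w.Ge 0 θ) (c π : O) (e : ℤ) (he : 0 < e)
    (hπ : w.ord (ι π) = e) (hres : ∀ a, w.Ge 1 (ι a) → ∃ b, a = π * b)
    (hc : w.Ge 1 (θ - ι c)) (hd0 : eval₂ ι θ (derivative P) ≠ 0)
    (hd : w.ord (eval₂ ι θ (derivative P)) = 0) (n : ℕ) :
    ∀ G : O[X], eval₂ ι θ G ≠ 0 → w.ord (eval₂ ι θ G) = n → e ∣ w.ord (eval₂ ι θ G) := by
  have hge := unr_ge w ι θ hθ hO
  have hπ0 : ι π ≠ 0 := by
    intro h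
    rw [h, w.ord_zero] at hπ
    omega
  obtain ⟨Q, hQ⟩ := unr_div c P
  have hPc : w.Ge 1 (ι (P.eval c)) := by
    have h1 : ι (P.eval c) = - ((θ - ι c) * eval₂ ι θ Q) := by
      have h2 := congrArg (eval₂ ι θ) hQ
      rw [h0, eval₂_add, eval₂_C, eval₂_mul, eval₂_sub, eval₂_X, eval₂_C] at h2
      exact (neg_eq_of_add_eq_zero_left h2.symm).symm
    rw [h1]
    have h3 := hc.mul (hge Q)
    rw [add_zero] at h3
    exact h3.neg
  obtain ⟨p0, hp0⟩ := hres _ hPc
  have hQ1 : eval₂ ι θ (derivative P) = eval₂ ι θ Q + (θ - ι c) * eval₂ ι θ (derivative Q) := by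
    have h2 := congrArg (fun p => eval₂ ι θ (derivative p)) hQ
    simp only [derivative_add, derivative_C, zero_add, derivative_mul, derivative_sub,
      derivative_X, sub_zero, one_mul, eval₂_add, eval₂_mul, eval₂_sub, eval₂_X, eval₂_C] at h2
    exact h2
  have hQne : eval₂ ι θ Q ≠ 0 ∧ w.ord (eval₂ ι θ Q) = 0 := by
    have h3 := hc.mul (hge (derivative Q))
    rw [add_zero] at h3
    have h4 : ¬ w.Ge 1 (eval₂ ι θ Q) := by
      intro h5
      have h6 := h5.add h3
      rw [← hQ1] at h6
      have h7 := h6.le_ord hd0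
      omega
    rw [Place.Ge, not_or, not_le] at h4
    refine ⟨h4.1, ?_⟩
    have h5 := (hge Q).le_ord h4.1
    omega
  induction n using Nat.strong_induction_on with
  | _ n ih =>
    intro G hG hn
    rcases Nat.eq_zero_or_pos n with h | hpos
    · rw [hn, h]
      simp
    · obtain ⟨H, hH⟩ := unr_div c G
      have hGev : eval₂ ι θ G = ι (G.eval c) + (θ - ι c) * eval₂ ι θ H := by
        have h2 := congrArg (eval₂ ι θ) hH
        rw [eval₂_add, eval₂_C, eval₂_mul, eval₂_sub, eval₂_X, eval₂_C] at h2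
        exact h2
      have hGc : w.Ge 1 (ι (G.eval c)) := by
        have h3 := hc.mul (hge H)
        rw [add_zero] at h3
        have h4 : w.Ge 1 (eval₂ ι θ G) := Or.inr (by rw [hn]; exact_mod_cast hpos)
        have h5 := h4.sub h3
        rw [hGev, add_sub_cancel_right] at h5
        exact h5
      obtain ⟨g0, hg0⟩ := hres _ hGc
      have hPe : (θ - ι c) * eval₂ ι θ Q = - (ι π * ι p0) := by
        have h2 := congrArg (eval₂ ι θ) hQ
        rw [h0, eval₂_add, eval₂_C, eval₂_mul, eval₂_sub, eval₂_X, eval₂_C, hp0, map_mul] at h2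
        exact (neg_eq_of_add_eq_zero_right h2.symm).symm
      have key : eval₂ ι θ Q * eval₂ ι θ G =
          ι π * eval₂ ι θ (C g0 * Q - C p0 * H) := by
        rw [hGev, hg0, map_mul, eval₂_sub, eval₂_mul, eval₂_mul, eval₂_C, eval₂_C]
        linear_combination (eval₂ ι θ H) * hPe
      have hne : eval₂ ι θ (C g0 * Q - C p0 * H) ≠ 0 := by
        intro h
        rw [h, mul_zero] at key
        exact mul_ne_zero hQne.1 hG key
      have hord := congrArg w.ord key
      rw [w.ord_mul _ _ hQne.1 hG, w.ord_mul _ _ hπ0 hne, hQne.2, zero_add, hπ] at hord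
      have hnn := (hge (C g0 * Q - C p0 * H)).le_ord hne
      obtain ⟨m, hm⟩ := Int.eq_ofNat_of_zero_le hnn
      have h8 := ih m (by omega) _ hne hm
      rw [hord]
      exact dvd_add (dvd_refl e) h8

omit [IsAlgClosed k] [CharZero k] in
private theorem unr_one (φ : A →ₐ[k] B) {w : Place k B} {v : Place k A} (hov : Ov φ w v)
    (hw : w.Rational) (θ : B) (p : A[X]) (hp : p.Monic) (h0 : eval₂ (φ : A →+* B) θ p = 0)
    (hd0 : eval₂ (φ : A →+* B) θ (derivative p) ≠ 0)
    (hd : w.ord (eval₂ (φ : A →+* B) θ (derivative p)) = 0)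
    (hcf : ∀ n, 0 ≤ v.ord (p.coeff n))
    (hgen : ∀ b : B, ∃ g : A[X], eval₂ (φ : A →+* B) θ g = b) : ram φ w v = 1 := by
  obtain ⟨he, hram⟩ := ov_spec hov
  set e := ram φ w v with hedef
  let ι : v.O →+* B := (φ : A →+* B).comp v.O.val.toRingHom
  have hι : ∀ a : v.O, ι a = φ (a : A) := fun _ => rfl
  have hmap : ∀ g : v.O[X], eval₂ ι θ g = eval₂ (φ : A →+* B) θ (g.map v.O.val.toRingHom) := by
    intro g
    rw [eval₂_map]
  have hlift : ∀ g : A[X], (∀ n, 0 ≤ v.ord (g.coeff n)) → ∃ q : v.O[X],
      q.map v.O.val.toRingHom = g := by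
    intro g hg
    have h1 : g ∈ lifts v.O.val.toRingHom := by
      rw [lifts_iff_coeff_lifts]
      intro n
      exact ⟨⟨g.coeff n, hg n⟩, rfl⟩
    exact (mem_lifts g).1 h1
  have hinj : Function.Injective (v.O.val.toRingHom : v.O →+* A) := Subtype.val_injective
  obtain ⟨P, hP⟩ := hlift p hcf
  have hPm : P.Monic := by
    apply Function.Injective.monic_map_iff hinj |>.2
    rw [hP]
    exact hp
  have hP0 : eval₂ ι θ P = 0 := by rw [hmap, hP, h0]
  have hPd : eval₂ ι θ (derivative P) = eval₂ (φ : A →+* B) θ (derivative p) := by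
    rw [hmap, ← derivative_map, hP]
  have hO : ∀ a : v.O, w.Ge 0 (ι a) := by
    intro a
    refine Or.inr ?_
    rw [hι, hram]
    exact mul_nonneg he.le a.2
  have hθ : w.Ge 0 θ := unr_int w ι θ P hPm hP0 hO
  have hθO : θ ∈ w.O := w.ge_zero_iff.1 hθ
  have hun : (0 : ℤ) ≤ v.ord v.unif := by rw [v.ord_unif]; norm_num
  let π : v.O := ⟨v.unif, hun⟩
  let c : v.O := ⟨algebraMap k A (w.res θ), Place.mem_O_const _⟩
  have hcc : w.Ge 1 (θ - ι c) := by
    have h1 := Place.ge_res hw hθO
    have h2 : ι c = algebraMap k B (w.res θ) := by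
      rw [hι]
      exact φ.commutes _
    rw [h2]
    exact h1
  have hres : ∀ a : v.O, w.Ge 1 (ι a) → ∃ b, a = π * b := by
    intro a ha
    rcases eq_or_ne (a : A) 0 with h | h
    · exact ⟨0, by rw [mul_zero]; exact Subtype.ext h⟩
    · have h1 : 1 ≤ w.ord (ι a) := ha.le_ord (by
        rw [hι]
        exact (map_ne_zero φ).2 h)
      rw [hι, hram] at h1
      have h2 : 1 ≤ v.ord (a : A) := by
        by_contra h3
        have h4 : v.ord (a : A) ≤ 0 := by omega
        nlinarith
      have h5 : (0 : ℤ) ≤ v.ord (v.unif⁻¹ * (a : A)) := by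
        rw [v.ord_mul _ _ (inv_ne_zero v.unif_ne_zero) h, v.ord_inv, v.ord_unif]
        omega
      refine ⟨⟨v.unif⁻¹ * (a : A), h5⟩, Subtype.ext ?_⟩
      change (a : A) = v.unif * (v.unif⁻¹ * (a : A))
      rw [mul_inv_cancel_left₀ v.unif_ne_zero]
  have hall : ∀ G : v.O[X], eval₂ ι θ G ≠ 0 → e ∣ w.ord (eval₂ ι θ G) := by
    intro G hG
    obtain ⟨n, hn⟩ := Int.eq_ofNat_of_zero_le ((unr_ge w ι θ hθ hO G).le_ord hG)
    exact unr_dvd w ι θ P hP0 hO hθ c π e he rfl hres hcc (by rw [hPd]; exact hd0)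
      (by rw [hPd]; exact hd) n G hG hn
  have hB : ∀ b : B, b ≠ 0 → e ∣ w.ord b := by
    intro b hb
    obtain ⟨g, hg⟩ := hgen b
    obtain ⟨N, hN⟩ : ∃ N : ℕ, ∀ n, -(N : ℤ) ≤ v.ord (g.coeff n) := by
      refine ⟨∑ n ∈ g.support, (v.ord (g.coeff n)).natAbs, fun n => ?_⟩
      by_cases hn : n ∈ g.support
      · have h1 : (v.ord (g.coeff n)).natAbs ≤ ∑ n ∈ g.support, (v.ord (g.coeff n)).natAbs :=
          Finset.single_le_sum (f := fun n => (v.ord (g.coeff n)).natAbs) (fun _ _ => Nat.zero_le _) hn
        omega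
      · rw [notMem_support_iff.1 hn, v.ord_zero]
        omega
    obtain ⟨G, hG⟩ := hlift (C (v.unif ^ N) * g) (by
      intro n
      rw [coeff_C_mul]
      rcases eq_or_ne (g.coeff n) 0 with h | h
      · rw [h, mul_zero, v.ord_zero]
      · rw [v.ord_mul _ _ (pow_ne_zero _ v.unif_ne_zero) h, v.ord_pow, v.ord_unif]
        have := hN n
        omega)
    have h1 : eval₂ ι θ G = φ v.unif ^ N * b := by
      rw [hmap, hG, eval₂_mul, eval₂_C, hg]
      simp
    have hu0 : φ v.unif ≠ 0 := (map_ne_zero φ).2 v.unif_ne_zero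
    have h2 := hall G (by rw [h1]; exact mul_ne_zero (pow_ne_zero _ hu0) hb)
    rw [h1, w.ord_mul _ _ (pow_ne_zero _ hu0) hb, w.ord_pow] at h2
    have h3 : w.ord (φ v.unif) = e := rfl
    rw [h3] at h2
    exact (Int.dvd_add_right (Dvd.intro_left _ rfl)).1 h2
  obtain ⟨t, ht⟩ := w.exists_one
  have ht0 : t ≠ 0 := by
    rintro rfl
    rw [w.ord_zero] at ht
    omega
  have h1 := hB t ht0
  rw [ht] at h1
  exact Int.eq_one_of_dvd_one he.le h1

/-- ROW unr. Work with the algebra structure of `φ` (`rng`). `B = A(θ)` (`Field.exists_primitive_element`, characteristic zero), `P` the minimal polynomial of `θ`,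
`P'(θ) ≠ 0`. Bad places `v`: some coefficient of `P` has a pole at `v`, or `w.ord (P'(θ)) ≠ 0` for some `w` over `v` (finitely many `w`, `finite_ord`, each over one `v`).
Let `v` be good, `w` over `v`, `e = ram φ w v`, `O = v.O`, `π = v.unif`, `R` = the elements `G(θ)`, `G ∈ O[T]`. `θ ∈ w.O` (integral over `O`: if `w.ord θ < 0` the leading term of `P(θ) = 0` has the
least order), `c = w.res θ` (`Place.rational`). `P = P(c) + (T - c) Q`, `P(c) = π p0` with `p0 ∈ O` (its order at `w` is positive because `0 = P(θ)` and `θ - c` has positive order), and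
`w.ord (Q(θ)) = 0` because `P'(θ) = Q(θ) + (θ - c) Q'(θ)`. Claim: `e ∣ w.ord h` for `0 ≠ h ∈ R`, strong induction on the order: `h = G(θ)`, `G = G(c) + (T - c) H`;
if the order is positive then `G(c) = π g0`, `g0 ∈ O`, and `Q(θ) h = Q(θ) G(c) + H(θ) (θ - c) Q(θ) = π (g0 Q(θ) - p0 H(θ))`, so `w.ord h = e + w.ord h'` with `h' ∈ R`.
Every element of `B` is `π ^ (-n) h` with `h ∈ R`, so `e ∣ 1` (`w.exists_one`). -/
theorem unr (hA : IsFunField k A) (φ : A →ₐ[k] B) [FiniteDimensional φ.fieldRange B] :
    {v : Place k A | ∃ w : Place k B, Ov φ w v ∧ ram φ w v ≠ 1}.Finite := by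
  let alg : Algebra A B := φ.toRingHom.toAlgebra
  have hs : ∀ x : A, algebraMap A B x = φ x := fun _ => rfl
  obtain ⟨hfin, -, hst⟩ := rng φ hs
  have hB : IsFunField k B := hA.of_finite (M := B)
  have hcA : CharZero A := charZero_of_injective_algebraMap (algebraMap k A).injective
  obtain ⟨θ, hθ⟩ := Field.exists_primitive_element A B
  have hint : IsIntegral A θ := Algebra.IsIntegral.isIntegral θ
  have hev : ∀ g : Polynomial A, Polynomial.eval₂ (φ : A →+* B) θ g = Polynomial.aeval θ g :=
    fun g => rfl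
  have hgen : ∀ b : B, ∃ g : Polynomial A, Polynomial.eval₂ (φ : A →+* B) θ g = b := by
    intro b
    have h1 : b ∈ IntermediateField.adjoin A {θ} := by rw [hθ]; trivial
    rw [← IntermediateField.mem_toSubalgebra,
      IntermediateField.adjoin_simple_toSubalgebra_of_isAlgebraic hint.isAlgebraic,
      Algebra.adjoin_singleton_eq_range_aeval] at h1
    obtain ⟨g, hg⟩ := h1
    exact ⟨g, hg⟩
  set d := Polynomial.aeval θ (Polynomial.derivative (minpoly A θ)) with hd
  have hd0 : d ≠ 0 := (Algebra.IsSeparable.isSeparable A θ).aeval_derivative_ne_zero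
    (minpoly.aeval A θ)
  have h1 : (⋃ n ∈ Finset.range ((minpoly A θ).natDegree + 1),
      {v : Place k A | v.ord ((minpoly A θ).coeff n) ≠ 0}).Finite :=
    Set.Finite.biUnion (Finset.finite_toSet _) fun n _ => finite_ord hA _
  have h2 : (⋃ w ∈ {w : Place k B | w.ord d ≠ 0}, {v : Place k A | Ov φ w v}).Finite :=
    Set.Finite.biUnion (finite_ord hB d) fun w _ =>
      Set.Subsingleton.finite fun v hv v' hv' => ov_uniq hv hv'
  refine (h1.union h2).subset ?_
  rintro v ⟨w, hov, hne⟩
  by_contra hcon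
  rw [Set.mem_union, not_or] at hcon
  apply hne
  refine unr_one φ hov (Place.rational hB w) θ (minpoly A θ) (minpoly.monic hint)
    ((hev _).trans (minpoly.aeval A θ)) (by rw [hev]; exact hd0) ?_ ?_ hgen
  · by_contra h3
    apply hcon.2
    exact Set.mem_biUnion (show w ∈ {w : Place k B | w.ord d ≠ 0} from h3) hov
  · intro n
    by_cases hn : n ≤ (minpoly A θ).natDegree
    · by_contra h3
      apply hcon.1
      have h4 : n ∈ Finset.range ((minpoly A θ).natDegree + 1) := Finset.mem_range.2 (by omega)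
      exact Set.mem_biUnion (Finset.mem_coe.2 h4) (fun h5 => h3 h5.ge)
    · rw [Polynomial.coeff_eq_zero_of_natDegree_lt (by omega), v.ord_zero]
-- END unr

-- BEGIN red
private theorem red_top (u : B) (x : IntermediateField.adjoin k {u})
    (hx : (x : B) = u) (c : k) :
    IntermediateField.adjoin k {x - algebraMap k (IntermediateField.adjoin k {u}) c} = ⊤ := by
  have h1 : IntermediateField.adjoin k {x} = ⊤ := by
    apply IntermediateField.lift_injective
    rw [IntermediateField.lift_adjoin_simple, IntermediateField.lift_top, hx]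
  rw [eq_top_iff, ← h1, IntermediateField.adjoin_simple_le_iff]
  have h2 := IntermediateField.mem_adjoin_simple_self k
    (x - algebraMap k (IntermediateField.adjoin k {u}) c)
  have h3 := add_mem h2 (IntermediateField.algebraMap_mem (IntermediateField.adjoin k
    {x - algebraMap k (IntermediateField.adjoin k {u}) c}) c)
  rwa [sub_add_cancel] at h3

private theorem red_one (u : B) (x : IntermediateField.adjoin k {u})
    (hx : (x : B) = u) (c : k) :
    fdeg k (x - algebraMap k (IntermediateField.adjoin k {u}) c) = 1 := by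
  unfold fdeg
  rw [red_top u x hx c]
  exact IntermediateField.finrank_top

private theorem red_sub {K : Type} [Field K] [Algebra k K] (v : Place k K) (x : K) :
    {c : k | 0 < v.ord (x - algebraMap k K c)}.Subsingleton := by
  intro c hc c' hc'
  have h1 : v.Ge 1 (x - algebraMap k K c) := Place.Ge.of_le hc
  have h2 : v.Ge 1 (x - algebraMap k K c') := Place.Ge.of_le hc'
  have h3 := h1.sub h2
  have h4 : x - algebraMap k K c - (x - algebraMap k K c') = algebraMap k K (c' - c) := by
    rw [map_sub]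
    ring
  rw [h4] at h3
  exact (sub_eq_zero.1 (v.eq_zero_of_ge_one h3)).symm

/-- ROW red. `A = k(u)` (`IntermediateField.adjoin k {u}`), `φ = A.val`. The set of the `c` such that a place over the zero `v` of `u - c` in `A` is ramified is finite (`unr`; different `c`
have different zeros). If `w.ord (u - c) > 0`, `v` below `w` (`ov_down`), `v.ord (u - c) > 0`, and `v.ord (u - c) ≤ fdeg k (u - c) = 1` in `A` (`zer_form`; `A = k(u - c)`), `w.ord = ram * v.ord`. -/
theorem redf (hB : IsFunField k B) {u : B} (hu : Transcendental k u) :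
    {c : k | ∃ w : Place k B, 1 < w.ord (u - algebraMap k B c)}.Finite := by
  have hfd : FiniteDimensional (IntermediateField.adjoin k {u}) B := fin_adj hB hu
  let x : IntermediateField.adjoin k {u} := ⟨u, IntermediateField.mem_adjoin_simple_self k u⟩
  have hx : (x : B) = u := rfl
  let φ : IntermediateField.adjoin k {u} →ₐ[k] B := (IntermediateField.adjoin k {u}).val
  have hφ : φ.fieldRange = IntermediateField.adjoin k {u} := IntermediateField.fieldRange_val _
  have hfφ : FiniteDimensional φ.fieldRange B := by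
    rw [hφ]
    exact hfd
  have htr : ∀ c : k, Transcendental k (x - algebraMap k (IntermediateField.adjoin k {u}) c) := by
    intro c h
    have h1 : IsAlgebraic k x := by
      have h2 := h.add (isAlgebraic_algebraMap (R := k)
        (A := IntermediateField.adjoin k {u}) c)
      rwa [sub_add_cancel] at h2
    exact hu (h1.algebraMap (A := B))
  have hK : IsFunField k (IntermediateField.adjoin k {u}) := by
    refine ⟨x - algebraMap k (IntermediateField.adjoin k {u}) 0, htr 0, ?_⟩
    refine Module.finite_of_finrank_pos ?_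
    have h1 := red_one u x hx 0
    unfold fdeg at h1
    rw [h1]
    exact Nat.one_pos
  have hle : ∀ (c : k) (v : Place k (IntermediateField.adjoin k {u})),
      v.ord (x - algebraMap k (IntermediateField.adjoin k {u}) c) ≤ 1 := by
    intro c v
    have h1 := zer_form hK (htr c)
    rw [red_one u x hx c] at h1
    have hs : (Function.support fun v : Place k (IntermediateField.adjoin k {u}) =>
        max 0 (v.ord (x - algebraMap k (IntermediateField.adjoin k {u}) c))).Finite := by
      refine (finite_ord hK (x - algebraMap k (IntermediateField.adjoin k {u}) c)).subset ?_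
      intro v hv h0
      refine hv ?_
      show max 0 (v.ord (x - algebraMap k (IntermediateField.adjoin k {u}) c)) = 0
      rw [h0, max_self]
    have h2 := single_le_finsum v hs (fun v => le_max_left _ _)
    rw [h1] at h2
    exact (le_max_right _ _).trans (h2.trans (by norm_num))
  refine ((unr hK φ).biUnion fun v _ => (red_sub v x).finite).subset ?_
  rintro c ⟨w, hw⟩
  obtain ⟨v, hv⟩ := ov_down φ w
  obtain ⟨hr, hmul⟩ := ov_spec hv
  have h1 : w.ord (u - algebraMap k B c) = ram φ w v *
      v.ord (x - algebraMap k (IntermediateField.adjoin k {u}) c) := by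
    rw [← hmul]
    rfl
  have h2 := hle c v
  have h3 : 0 < v.ord (x - algebraMap k (IntermediateField.adjoin k {u}) c) := by
    by_contra h
    push Not at h
    have h4 := mul_nonpos_of_nonneg_of_nonpos hr.le h
    rw [← h1] at h4
    omega
  have h5 : v.ord (x - algebraMap k (IntermediateField.adjoin k {u}) c) = 1 := by omega
  rw [h5, mul_one] at h1
  simp only [Set.mem_iUnion, Set.mem_setOf_eq]
  exact ⟨v, ⟨w, hv, by omega⟩, h3⟩
-- END red

omit [IsAlgClosed k] [CharZero k] in
-- BEGIN grd
theorem grd_val (E : Finset (Place k B)) (v : Place k B) :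
    (∑ y ∈ E, Finsupp.single y (1 : ℤ)) v = if v ∈ E then 1 else 0 := by
  rw [Finsupp.finsetSum_apply]
  simp [Finsupp.single_apply]

omit [IsAlgClosed k] [CharZero k] in
theorem grd_mem (E : Finset (Place k B)) (f : B) :
    f ∈ Lsp (∑ y ∈ E, Finsupp.single y (1 : ℤ)) ↔
      ∀ v : Place k B, v.Ge (if v ∈ E then -1 else 0) f := by
  rw [mem_Lsp]
  refine forall_congr' fun v => ?_
  rw [grd_val]
  split_ifs <;> simp

omit [IsAlgClosed k] [CharZero k] in
theorem grd_mono {E F : Finset (Place k B)} (h : E ⊆ F) :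
    Lsp (∑ y ∈ E, Finsupp.single y (1 : ℤ)) ≤ Lsp (∑ y ∈ F, Finsupp.single y (1 : ℤ)) := by
  intro f hf
  rw [grd_mem] at hf ⊢
  intro v
  refine (hf v).mono ?_
  by_cases h1 : v ∈ E
  · rw [if_pos h1, if_pos (h h1)]
  · rw [if_neg h1]
    split_ifs <;> norm_num

omit [IsAlgClosed k] [CharZero k] in
theorem grd_low {E : Finset (Place k B)} {y : Place k B} (hy : y ∉ E) {f : B}
    (hf : f ∈ Lsp (∑ z ∈ insert y E, Finsupp.single z (1 : ℤ))) (h0 : y.Ge 0 f) :
    f ∈ Lsp (∑ z ∈ E, Finsupp.single z (1 : ℤ)) := by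
  rw [grd_mem] at hf ⊢
  intro v
  have h := hf v
  by_cases hv : v = y
  · subst hv
    rw [if_neg hy]
    exact h0
  · by_cases h1 : v ∈ E
    · rw [if_pos (Finset.mem_insert_of_mem h1)] at h
      rw [if_pos h1]
      exact h
    · rw [if_neg (fun h2 => (Finset.mem_insert.1 h2).elim hv h1)] at h
      rw [if_neg h1]
      exact h

omit [IsAlgClosed k] [CharZero k] in
theorem grd_step (hfin : ∀ D : Place k B →₀ ℤ, FiniteDimensional k (Lsp D))
    (hr : ∀ y : Place k B, y.Rational) {E : Finset (Place k B)} {y : Place k B} (hy : y ∉ E) :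
    finrank k (Lsp (∑ z ∈ insert y E, Finsupp.single z (1 : ℤ))) ≤
      finrank k (Lsp (∑ z ∈ E, Finsupp.single z (1 : ℤ))) + 1 := by
  have hO : ∀ f ∈ Lsp (∑ z ∈ insert y E, Finsupp.single z (1 : ℤ)), y.unif * f ∈ y.O := by
    intro f hf
    have h1 := (grd_mem _ f).1 hf y
    rw [if_pos (Finset.mem_insert_self y E)] at h1
    have h2 : y.Ge 1 y.unif := Place.Ge.of_le (le_of_eq y.ord_unif.symm)
    have h3 := h2.mul h1
    rw [show (1 : ℤ) + -1 = 0 by norm_num] at h3
    exact y.ge_zero_iff.1 h3
  let φ : Lsp (∑ z ∈ insert y E, Finsupp.single z (1 : ℤ)) →ₗ[k] k :=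
    { toFun := fun f => y.res (y.unif * (f : B))
      map_add' := fun f g => by
        rw [Submodule.coe_add, mul_add]
        exact Place.res_add (hr y) (hO f f.2) (hO g g.2)
      map_smul' := fun c f => by
        rw [Submodule.coe_smul, Algebra.smul_def, RingHom.id_apply, smul_eq_mul,
          show y.unif * (algebraMap k B c * (f : B)) = algebraMap k B c * (y.unif * (f : B)) by ring,
          Place.res_mul (hr y) (Place.mem_O_const c) (hO f f.2), Place.res_const] }
  have := hfin (∑ z ∈ insert y E, Finsupp.single z (1 : ℤ))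
  have := hfin (∑ z ∈ E, Finsupp.single z (1 : ℤ))
  have h1 := LinearMap.finrank_range_add_finrank_ker φ
  have h2 : finrank k (LinearMap.range φ) ≤ 1 := by
    have h := Submodule.finrank_le (LinearMap.range φ)
    rwa [finrank_self] at h
  have h3 : finrank k (LinearMap.ker φ) ≤
      finrank k (Lsp (∑ z ∈ E, Finsupp.single z (1 : ℤ))) := by
    have hk : ∀ f : LinearMap.ker φ, ((f : Lsp (∑ z ∈ insert y E, Finsupp.single z (1 : ℤ))) : B) ∈
        Lsp (∑ z ∈ E, Finsupp.single z (1 : ℤ)) := by
      intro f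
      refine grd_low hy f.1.2 ?_
      have h4 : y.res (y.unif * (f.1 : B)) = 0 := f.2
      rw [Place.res_eq_zero_iff (hr y) (hO _ f.1.2)] at h4
      rcases eq_or_ne (f.1 : B) 0 with h5 | h5
      · exact Or.inl h5
      · right
        have h6 := h4.le_ord (mul_ne_zero y.unif_ne_zero h5)
        rw [y.ord_mul _ _ y.unif_ne_zero h5, y.ord_unif] at h6
        omega
    let ψ : LinearMap.ker φ →ₗ[k] Lsp (∑ z ∈ E, Finsupp.single z (1 : ℤ)) :=
      LinearMap.codRestrict _ ((Submodule.subtype _).comp (Submodule.subtype _)) hk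
    refine LinearMap.finrank_le_finrank_of_injective (f := ψ) ?_
    intro a b hab
    have h7 := congrArg (fun x : Lsp (∑ z ∈ E, Finsupp.single z (1 : ℤ)) => (x : B)) hab
    exact Subtype.ext (Subtype.ext h7)
  omega

omit [IsAlgClosed k] [CharZero k] in
/-- ROW grd. Induction on `F`, write `l(D)` for the dimension. `F = ∅`: `E = ∅`, `l(0) = 1` (hypothesis `h0`). `F ∪ {y}`: `l(F + y) ≤ l(F) + 1` (two elements with a pole of order exactly the maximal one at `y`
differ by a constant multiple up to smaller order, `y` rational; or a linear map to `k`). If `l(F + y) = l(F) + 1` take the same `E`. If `l(F + y) = l(F)` then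
`Lsp (F + y) = Lsp F`, so `Lsp (E + y) = Lsp E` (an element has no pole at `y`), take `E ∪ {y}`. -/
theorem greedy (hfin : ∀ D : Place k B →₀ ℤ, FiniteDimensional k (Lsp D))
    (h0 : finrank k (Lsp (0 : Place k B →₀ ℤ)) = 1) (hr : ∀ y : Place k B, y.Rational)
    (F : Finset (Place k B)) : ∃ E ⊆ F, finrank k (Lsp (∑ y ∈ E, Finsupp.single y (1 : ℤ))) = 1 ∧
      E.card + finrank k (Lsp (∑ y ∈ F, Finsupp.single y (1 : ℤ))) = F.card + 1 := by
  induction F using Finset.induction_on with
  | empty =>
    refine ⟨∅, Finset.Subset.refl _, ?_, ?_⟩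
    · rw [Finset.sum_empty]
      exact h0
    · rw [Finset.sum_empty, h0, Finset.card_empty]
  | insert y F hy ih =>
    obtain ⟨E, hEF, h1, h2⟩ := ih
    have hyE : y ∉ E := fun h => hy (hEF h)
    have h3 := grd_step hfin hr hy
    have := hfin (∑ z ∈ insert y F, Finsupp.single z (1 : ℤ))
    have := hfin (∑ z ∈ F, Finsupp.single z (1 : ℤ))
    have hle := grd_mono (Finset.subset_insert y F)
    have h4 := Submodule.finrank_mono hle
    rcases Nat.lt_or_ge (finrank k (Lsp (∑ z ∈ F, Finsupp.single z (1 : ℤ))))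
      (finrank k (Lsp (∑ z ∈ insert y F, Finsupp.single z (1 : ℤ)))) with h5 | h5
    · refine ⟨E, hEF.trans (Finset.subset_insert y F), h1, ?_⟩
      rw [Finset.card_insert_of_notMem hy]
      omega
    · have h6 : Lsp (∑ z ∈ F, Finsupp.single z (1 : ℤ)) =
          Lsp (∑ z ∈ insert y F, Finsupp.single z (1 : ℤ)) :=
        Submodule.eq_of_le_of_finrank_eq hle (le_antisymm h4 h5)
      have h7 : Lsp (∑ z ∈ insert y E, Finsupp.single z (1 : ℤ)) =
          Lsp (∑ z ∈ E, Finsupp.single z (1 : ℤ)) := by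
        refine le_antisymm ?_ (grd_mono (Finset.subset_insert y E))
        intro f hf
        refine grd_low hyE hf ?_
        have h8 : f ∈ Lsp (∑ z ∈ F, Finsupp.single z (1 : ℤ)) := by
          rw [h6]
          exact grd_mono (Finset.insert_subset_insert y hEF) hf
        have h9 := (grd_mem F f).1 h8 y
        rwa [if_neg hy] at h9
      refine ⟨insert y E, Finset.insert_subset_insert y hEF, ?_, ?_⟩
      · rw [h7]
        exact h1
      · rw [Finset.card_insert_of_notMem hy, Finset.card_insert_of_notMem hyE, ← h6]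
        omega
-- END grd

-- BEGIN pts
private theorem pts_dg_add (P Q : Place k B →₀ ℤ) : dg (P + Q) = dg P + dg Q :=
  Finsupp.sum_add_index' (fun _ => rfl) (fun _ _ _ => rfl)

private theorem pts_dg_sum (F : Finset (Place k B)) :
    dg (∑ y ∈ F, Finsupp.single y (1 : ℤ)) = (F.card : ℤ) := by
  induction F using Finset.induction_on with
  | empty =>
    rw [Finset.sum_empty]
    rfl
  | insert a F ha ih =>
    rw [Finset.sum_insert ha, pts_dg_add, ih, Finset.card_insert_of_notMem ha]
    have h : dg (Finsupp.single a (1 : ℤ)) = 1 := Finsupp.sum_single_index rfl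
    rw [h]
    push_cast
    ring

private theorem pts_val (F : Finset (Place k B)) (v : Place k B) :
    (∑ y ∈ F, Finsupp.single y (1 : ℤ)) v = if v ∈ F then 1 else 0 := by
  rw [Finsupp.finset_sum_apply]
  have h : ∀ y ∈ F, (Finsupp.single y (1 : ℤ)) v = if y = v then 1 else 0 := by
    intro y _
    rw [Finsupp.single_apply]
  rw [Finset.sum_congr rfl h, Finset.sum_ite_eq' F v fun _ => (1 : ℤ)]

private theorem pts_sub_tr {u : B} (hu : Transcendental k u) (c : k) :
    u - algebraMap k B c ≠ 0 := by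
  intro h
  apply hu
  rw [sub_eq_zero.1 h]
  exact isAlgebraic_algebraMap c

private theorem pts_one (v : Place k B) {u : B} (hu : Transcendental k u) {c c' : k}
    (h : 0 < v.ord (u - algebraMap k B c)) (h' : 0 < v.ord (u - algebraMap k B c')) : c = c' := by
  have h1 : v.Ge 1 (u - algebraMap k B c') := Place.Ge.of_le (by omega)
  have h2 : v.Ge 1 (u - algebraMap k B c) := Place.Ge.of_le (by omega)
  have h3 : v.Ge 1 (algebraMap k B (c - c')) := by
    have h4 := h1.sub h2
    have e : u - algebraMap k B c' - (u - algebraMap k B c) = algebraMap k B (c - c') := by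
      rw [map_sub]
      ring
    rwa [e] at h4
  exact sub_eq_zero.1 (Place.eq_zero_of_ge_one h3)

private theorem pts_pole (v : Place k B) {u : B} (hu : Transcendental k u) (c : k)
    (h : v.ord u < 0) : v.ord (u - algebraMap k B c) = v.ord u := by
  have hu0 : u ≠ 0 := by
    rintro rfl
    exact hu isAlgebraic_zero
  have h1 : v.Ge (v.ord u) (u - algebraMap k B c) :=
    (Place.Ge.of_le le_rfl).sub (Place.Ge.of_le (by rw [v.ord_const]; exact h.le))
  have h2 := h1.le_ord (pts_sub_tr hu c)
  have h3 : v.Ge (min (v.ord (u - algebraMap k B c)) 0) u := by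
    have h4 : v.Ge (min (v.ord (u - algebraMap k B c)) 0)
        (u - algebraMap k B c + algebraMap k B c) :=
      (Place.Ge.of_le (min_le_left _ _)).add
        (Place.Ge.of_le (by rw [v.ord_const]; exact min_le_right _ _))
    rwa [sub_add_cancel] at h4
  have h5 := h3.le_ord hu0
  omega

private theorem pts_nonneg (v : Place k B) {u : B} (hu : Transcendental k u) (c : k)
    (h : 0 ≤ v.ord u) : 0 ≤ v.ord (u - algebraMap k B c) := by
  have h1 : v.Ge 0 (u - algebraMap k B c) :=
    (Place.Ge.of_le h).sub (Place.Ge.of_le (by rw [v.ord_const]))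
  exact h1.le_ord (pts_sub_tr hu c)

private theorem pts_l0 (hB : IsFunField k B) : finrank k (Lsp (0 : Place k B →₀ ℤ)) = 1 := by
  have hone : (1 : B) ∈ Lsp (0 : Place k B →₀ ℤ) := by
    rw [mem_Lsp]
    intro v
    refine Place.Ge.of_le ?_
    rw [v.ord_one, Finsupp.zero_apply, neg_zero]
  refine (finrank_eq_one_iff_of_nonzero' (⟨1, hone⟩ : Lsp (0 : Place k B →₀ ℤ)) ?_).2 ?_
  · intro h
    exact one_ne_zero (congrArg Subtype.val h)
  · intro w
    have hw := (mem_Lsp _ _).1 w.2
    have hnt : ¬ Transcendental k (w : B) := by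
      intro ht
      have h1 := pol_form hB (w : B)
      have h2 : 0 < fdeg k (w : B) := (fd_pos hB _).2 ht
      have h3 : ∀ v : Place k B, max 0 (-(v.ord (w : B))) = 0 := by
        intro v
        rcases hw v with h | h
        · rw [h, v.ord_zero]
          rfl
        · rw [Finsupp.zero_apply, neg_zero] at h
          omega
      rw [finsum_congr h3, finsum_zero] at h1
      omega
    obtain ⟨c, hc⟩ := const_of_alg hnt
    refine ⟨c, Subtype.ext ?_⟩
    show c • (1 : B) = (w : B)
    rw [hc, Algebra.smul_def, mul_one]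

/-- ROW pts. `u` transcendental, `m0` from `van` for `u`, `C ⊆ k` with `m0 + 1` elements, all outside `redf` and such that `u - c` has no zero in `T` (each place excludes at most one `c`). `F` = the zeros of the `u - c`, `c ∈ C`;
`∑ y ∈ F, single y 1` = sum of the divisors of zeros = `(m0 + 1) (divisor of poles of u) + div (∏ (u - c))`, so by `lin` and `van` (`gen_uniq`: the genus is `γ`)
its dimension is `F.card + 1 - γ`. `greedy` (`Place.rational`; `l(0) = 1`: constants, `const_of_alg` and `pol_form`). -/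
theorem pts (hB : IsFunField k B) {γ : ℕ} (hγ : IsGenus k B γ) (T : Set (Place k B)) (hT : T.Finite) :
    ∃ E : Finset (Place k B), E.card = γ ∧ (∀ y ∈ E, y ∉ T) ∧
      finrank k (Lsp (∑ y ∈ E, Finsupp.single y (1 : ℤ))) = 1 := by
  obtain ⟨g0, hg0, hfinL, hvan⟩ := van hB
  have hg : g0 = γ := gen_uniq hg0 hγ
  obtain ⟨u, hu, -⟩ := id hB
  obtain ⟨m0, hm0⟩ := hvan u hu
  have hbad : ({c : k | ∃ w : Place k B, 1 < w.ord (u - algebraMap k B c)} ∪
      ⋃ w ∈ T, {c : k | 0 < w.ord (u - algebraMap k B c)}).Finite := by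
    refine (redf hB hu).union (hT.biUnion fun w _ => ?_)
    refine Set.Subsingleton.finite ?_
    intro c hc c' hc'
    exact pts_one w hu hc hc'
  obtain ⟨C, hC, hCc⟩ := hbad.infinite_compl.exists_subset_card_eq (m0 + 1)
  have hC1 : ∀ c ∈ C, ∀ w : Place k B, w.ord (u - algebraMap k B c) ≤ 1 := by
    intro c hc w
    by_contra hcon
    exact hC hc (Or.inl ⟨w, not_le.1 hcon⟩)
  have hC2 : ∀ c ∈ C, ∀ w ∈ T, ¬ 0 < w.ord (u - algebraMap k B c) := by
    intro c hc w hw hcon
    refine hC hc (Or.inr ?_)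
    rw [Set.mem_iUnion₂]
    exact ⟨w, hw, hcon⟩
  have hFfin : {v : Place k B | ∃ c ∈ C, 0 < v.ord (u - algebraMap k B c)}.Finite := by
    have h1 : (⋃ c ∈ C, Function.support fun v : Place k B =>
        v.ord (u - algebraMap k B c)).Finite :=
      C.finite_toSet.biUnion fun c _ => finite_ord hB _
    refine h1.subset ?_
    rintro v ⟨c, hc, hv⟩
    rw [Set.mem_iUnion₂]
    exact ⟨c, hc, hv.ne'⟩
  obtain ⟨F, hF⟩ : ∃ F : Finset (Place k B), ∀ v, v ∈ F ↔
      ∃ c ∈ C, 0 < v.ord (u - algebraMap k B c) :=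
    ⟨hFfin.toFinset, fun v => by rw [Set.Finite.mem_toFinset]; rfl⟩
  have hf0 : (∏ c ∈ C, (u - algebraMap k B c)) ≠ 0 :=
    Finset.prod_ne_zero_iff.2 fun c _ => pts_sub_tr hu c
  obtain ⟨P, hP, hP0, hPl⟩ := lin hB hf0
  have hPs : ∀ v : Place k B, P v = ∑ c ∈ C, v.ord (u - algebraMap k B c) := by
    intro v
    rw [hP, v.ord_prod C _ fun c _ => pts_sub_tr hu c]
  have hval : ∀ v : Place k B, ((∑ y ∈ F, Finsupp.single y (1 : ℤ)) - P) v =
      ((m0 : ℤ) + 1) * max 0 (-(v.ord u)) := by
    intro v
    rw [Finsupp.sub_apply, pts_val, hPs]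
    rcases lt_or_ge (v.ord u) 0 with hv | hv
    · have h1 : v ∉ F := by
        rw [hF]
        rintro ⟨c, -, hc⟩
        rw [pts_pole v hu c hv] at hc
        omega
      rw [if_neg h1, Finset.sum_congr rfl fun c _ => pts_pole v hu c hv, Finset.sum_const, hCc,
        max_eq_right (by omega : (0 : ℤ) ≤ -(v.ord u)), nsmul_eq_mul]
      push_cast
      ring
    · rw [max_eq_left (by omega : -(v.ord u) ≤ (0 : ℤ)), mul_zero]
      by_cases h1 : v ∈ F
      · rw [if_pos h1]
        obtain ⟨c, hc, hcv⟩ := (hF v).1 h1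
        have h2 : ∑ c' ∈ C, v.ord (u - algebraMap k B c') = v.ord (u - algebraMap k B c) := by
          refine Finset.sum_eq_single_of_mem c hc ?_
          intro c' _ hne
          have h3 := pts_nonneg v hu c' hv
          by_contra h4
          exact hne (pts_one v hu (by omega) hcv)
        have h5 := hC1 c hc v
        rw [h2]
        omega
      · rw [if_neg h1, Finset.sum_eq_zero, sub_zero]
        intro c hc
        have h3 := pts_nonneg v hu c hv
        have h4 : ¬ 0 < v.ord (u - algebraMap k B c) := fun h => h1 ((hF v).2 ⟨c, hc, h⟩)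
        omega
  have h1 := hm0 ((∑ y ∈ F, Finsupp.single y (1 : ℤ)) - P) (by
    intro v
    rw [hval v]
    have h2 : (0 : ℤ) ≤ max 0 (-(v.ord u)) := le_max_left _ _
    nlinarith)
  have h2 := hPl ((∑ y ∈ F, Finsupp.single y (1 : ℤ)) - P)
  rw [sub_add_cancel] at h2
  have h3 : dg ((∑ y ∈ F, Finsupp.single y (1 : ℤ)) - P) = (F.card : ℤ) := by
    have h4 := pts_dg_add ((∑ y ∈ F, Finsupp.single y (1 : ℤ)) - P) P
    rw [sub_add_cancel, pts_dg_sum, hP0, add_zero] at h4
    exact h4.symm
  obtain ⟨E, hEF, hE1, hE2⟩ := greedy hfinL (pts_l0 hB) (fun y => Place.rational hB y) F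
  refine ⟨E, ?_, ?_, hE1⟩
  · rw [h3, ← h2, hg] at h1
    omega
  · intro y hy hyT
    obtain ⟨c, hc, hcy⟩ := (hF y).1 (hEF hy)
    exact hC2 c hc y hyT hcy
-- END pts

-- BEGIN inf
/-- a function field has a place -/
theorem inf_place (hB : IsFunField k B) {u : B}
    (hu : Transcendental k u) : ∃ v : Place k B, 0 < v.ord u := by
  by_contra hcon
  push Not at hcon
  have h1 := zer_form hB hu
  have h2 : ∑ᶠ v : Place k B, max 0 (v.ord u) = 0 := by
    rw [finsum_congr (fun v => max_eq_left (hcon v)), finsum_zero]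
  rw [h2] at h1
  have h3 := (fd_pos hB u).2 hu
  omega

/-- ROW inf. `u` transcendental; the elements `u - c` have zeros (`zer_form`, `fd_pos`) at different places, `k` is infinite. -/
theorem plc_inf (hB : IsFunField k B) : Infinite (Place k B) := by
  obtain ⟨u, hu, -⟩ := id hB
  have hu' : ∀ c : k, Transcendental k (u - algebraMap k B c) := by
    intro c hc
    apply hu
    have h1 : IsAlgebraic k (u - algebraMap k B c + algebraMap k B c) :=
      hc.add (isAlgebraic_algebraMap c)
    simpa using h1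
  choose v hv using fun c : k => inf_place hB (hu' c)
  haveI : Infinite k := CharZero.infinite k
  refine Infinite.of_injective v fun c c' hcc => ?_
  by_contra hne
  have h1 := hv c
  have h2 := hv c'
  rw [← hcc] at h2
  have hne0 : ∀ x : k, u - algebraMap k B x ≠ 0 := by
    intro x hx
    apply hu' x
    rw [hx]
    exact isAlgebraic_zero
  have h3 : (u - algebraMap k B c) + -(u - algebraMap k B c') = algebraMap k B (c' - c) := by
    rw [map_sub]; ring
  have h4 : algebraMap k B (c' - c) ≠ 0 := by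
    rw [Ne, FaithfulSMul.algebraMap_eq_zero_iff, sub_eq_zero]
    exact fun h => hne h.symm
  have h5 := (v c).ord_add (u - algebraMap k B c) (-(u - algebraMap k B c')) (hne0 c)
    (neg_ne_zero.2 (hne0 c')) (by rw [h3]; exact h4)
  rw [h3, (v c).ord_const, Place.ord_neg] at h5
  have h6 : 0 < min ((v c).ord (u - algebraMap k B c)) ((v c).ord (u - algebraMap k B c')) :=
    lt_min h1 h2
  omega
-- END inf

-- BEGIN fid
/-- ROW fid. Only `z = x` is over `x` for the identity (`ov_uniq`, `ov_spec`: `ram = 1`), `finsum_eq_single`. -/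
theorem fbr_id (f : B →ₐ[k] A) (x : Place k A) (y : Place k B) :
    fbr (AlgHom.id k A) f x y = if Ov f x y then 1 else 0 := by
  have hid : ∀ z : Place k A, Ov (AlgHom.id k A) z z := fun z =>
    ⟨1, one_pos, fun g => by rw [one_mul]; rfl⟩
  have hram : ram (AlgHom.id k A) x x = 1 := x.ord_unif
  unfold fbr
  rw [finsum_eq_single _ x]
  · rw [hram]
    by_cases h : Ov f x y
    · rw [if_pos ⟨hid x, h⟩, if_pos h]
    · rw [if_neg (fun h' => h h'.2), if_neg h]
  · intro z hz
    rw [if_neg]
    rintro ⟨h1, -⟩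
    exact hz (ov_uniq h1 (hid z)).symm
-- END fid

-- BEGIN gth
/-- ROW gth. `E` from `pts` with `T` = the places which are ramified in `A` (`unr`), `D = ∑ y ∈ E, single y 1`, `dg D = γ`, `finrank (AlgHom.id k A).fieldRange A = 1`. The elements of `Lsp D` are constants
(dimension one, contains `1`). `x0` over a place `y0 ∉ E` (`plc_inf`, `ov_up`): `fbr_id`; `Eff` would give a constant with a zero at `y0`. `S` = the `x` over the `y ∈ E`: `Eff` by `g = 1` (`fbr_id`, `ov_uniq`);
its cardinality is `∑ y ∈ E, #{x | Ov f x y}` and `#{x | Ov f x y} = finrank f.fieldRange A` by `deg_fib` (all ramification indices are `1`). -/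
theorem gth (hA : IsFunField k A) (hB : IsFunField k B) {γ : ℕ} (hγ : IsGenus k B γ)
    (f : B →ₐ[k] A) [FiniteDimensional f.fieldRange A] :
    Theta (AlgHom.id k A) f γ (γ * finrank f.fieldRange A) := by
  obtain ⟨E, hEc, hET, hE1⟩ := pts hB hγ _ (unr hB f)
  obtain ⟨D, hD⟩ : ∃ D : Place k B →₀ ℤ, D = ∑ y ∈ E, Finsupp.single y (1 : ℤ) := ⟨_, rfl⟩
  rw [← hD] at hE1
  have hDy : ∀ y, D y = if y ∈ E then 1 else 0 := by
    intro y
    rw [hD, Finsupp.finset_sum_apply]
    simp [Finsupp.single_apply]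
  have hD0 : ∀ y, 0 ≤ D y := by
    intro y
    rw [hDy]
    split_ifs <;> norm_num
  have hdg : dg D = γ := by
    unfold dg
    rw [hD, ← Finsupp.sum_finset_sum_index (fun _ => rfl) (fun _ _ _ => rfl),
      Finset.sum_congr rfl fun y _ => Finsupp.sum_single_index rfl]
    simp [hEc]
  have hid : finrank (AlgHom.id k A).fieldRange A = 1 := by
    have h : (AlgHom.id k A).fieldRange = ⊤ := AlgHom.fieldRange_eq_top.2 Function.surjective_id
    rw [h]
    exact IntermediateField.finrank_top
  have ho1 : ∀ v : Place k B, v.ord (1 : B) = 0 := by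
    intro v
    have h := v.ord_const (1 : k)
    rwa [map_one] at h
  have h1L : (1 : B) ∈ Lsp D := by
    rw [mem_Lsp]
    intro v
    refine Place.Ge.of_le ?_
    rw [ho1]
    have := hD0 v
    omega
  have hfin : ∀ y : Place k B, {x : Place k A | Ov f x y}.Finite := fun y => (deg_fib hB f y).1
  refine ⟨D, ?_, ?_, E.biUnion fun y => (hfin y).toFinset, ?_, ?_⟩
  · rw [hdg, hid]
    push_cast
    ring
  · obtain ⟨y0, hy0⟩ := @Infinite.exists_notMem_finset _ (plc_inf hB) E
    obtain ⟨x0, hx0⟩ := ov_up hB f y0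
    refine ⟨x0, ?_, ?_⟩
    · intro y
      rw [fbr_id]
      split_ifs <;> norm_num
    · rintro ⟨g, hg0, hg⟩
      have hgL : g ∈ Lsp D := by
        rw [mem_Lsp]
        intro v
        refine (hg v).mono ?_
        rw [fbr_id]
        split_ifs <;> omega
      obtain ⟨c, hc⟩ := (finrank_eq_one_iff_of_nonzero' (⟨1, h1L⟩ : Lsp D)
        (fun h => one_ne_zero (congrArg Subtype.val h))).1 hE1 ⟨g, hgL⟩
      have hgc : g = algebraMap k B c := by
        have h2 := congrArg Subtype.val hc
        have h3 : c • (1 : B) = g := h2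
        rw [← h3, Algebra.smul_def, mul_one]
      have h4 := (hg y0).le_ord hg0
      rw [fbr_id, if_pos hx0, hDy, if_neg hy0, hgc, y0.ord_const] at h4
      omega
  · have hdis : (E : Set (Place k B)).PairwiseDisjoint fun y => (hfin y).toFinset := by
      intro y _ y' _ hyy
      rw [Function.onFun, Finset.disjoint_left]
      intro x hx hx'
      rw [Set.Finite.mem_toFinset] at hx hx'
      exact hyy (ov_uniq hx hx')
    rw [Finset.card_biUnion hdis]
    have hcard : ∀ y ∈ E, (hfin y).toFinset.card = finrank f.fieldRange A := by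
      intro y hy
      have h1 := (deg_fib hB f y).2
      have hr : ∀ w : Place k A, Ov f w y → ram f w y = 1 := by
        intro w hw
        by_contra hne
        exact hET y hy ⟨w, hw, hne⟩
      rw [finsum_eq_sum_of_support_subset (s := (hfin y).toFinset)] at h1
      · have h2 : ∑ w ∈ (hfin y).toFinset, (if Ov f w y then ram f w y else 0) =
            ∑ _w ∈ (hfin y).toFinset, (1 : ℤ) := by
          refine Finset.sum_congr rfl fun w hw => ?_
          rw [Set.Finite.mem_toFinset] at hw
          have hw' : Ov f w y := hw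
          rw [if_pos hw', hr w hw']
        rw [h2, Finset.sum_const, nsmul_eq_mul, mul_one] at h1
        exact_mod_cast h1
      · intro w hw
        rw [Function.mem_support] at hw
        rw [Finset.mem_coe, Set.Finite.mem_toFinset]
        by_contra hne
        exact hw (if_neg hne)
    rw [Finset.sum_congr rfl hcard, Finset.sum_const, smul_eq_mul, hEc]
  · intro x hx
    rw [Finset.mem_biUnion] at hx
    obtain ⟨y, hy, hxy⟩ := hx
    rw [Set.Finite.mem_toFinset] at hxy
    have hxy' : Ov f x y := hxy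
    refine ⟨1, one_ne_zero, fun v => Place.Ge.of_le ?_⟩
    rw [ho1, fbr_id]
    by_cases h : Ov f x v
    · have hv : v = y := ov_uniq h hxy'
      subst hv
      rw [if_pos h, hDy, if_pos hy]
      norm_num
    · rw [if_neg h]
      have := hD0 v
      omega
-- END gth

end Pool.Agent.CorF
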