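import Pool.Agent.CorF.Star

/-! # The correspondence degree and the theta degree -/

set_option autoImplicit false

open Module

open scoped Classical

noncomputable section

namespace Pool.Agent.CorF

open Pool.Agent.EllHiggs Pool.Agent.CorD Pool.Agent.MP_b814b1_ag

variable {k L K : Type} [Field k] [IsAlgClosed k] [CharZero k] [Field L] [Field K] [Algebra k L]
  [Algebra k K]

-- BEGIN low
/-- ROW low. `corrDeg` is attained (`Nat.sInf_mem`, `corrDeg_le_gon`-like nonempty set: see `graph`, `compos`; if the set is empty ... it is not). For an optimal `Z`: constant: `cst_gon` for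
`(Z.s, Z.t)` and `(Z.t, Z.s)`; otherwise `star` and `Z.a + γ - 1 ≤ Z.a * γ` (`1 ≤ γ`, `0 < Z.a`). -/
theorem low (hL : IsFunField k L) (hK : IsFunField k K) {γ n : ℕ} (hγ : IsGenus k K γ)
    (h1 : 1 ≤ γ) (Z : Corr k L K)
    (h : (Cst Z.s Z.t ∧ Cst Z.t Z.s) ∨ Theta Z.s Z.t γ n) :
    gon k L * gon k K ≤ Z.a * Z.b ∨ n ≤ γ * (Z.a * Z.b) := by
  rcases h with ⟨h2, h3⟩ | h2
  · left
    have h4 : gon k K ≤ Z.a := cst_gon hL hK Z.s Z.t h2
    have h5 : gon k L ≤ Z.b := cst_gon hK hL Z.t Z.s h3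
    calc gon k L * gon k K ≤ Z.b * Z.a := Nat.mul_le_mul h5 h4
      _ = Z.a * Z.b := Nat.mul_comm _ _
  · right
    have h4 : n ≤ Z.b * (Z.a + γ - 1) := star hL hK Z.s Z.t hγ h2
    have h5 : 0 < Z.a := by
      have h6 : 0 < finrank Z.s.fieldRange Z.M := finrank_pos
      exact h6
    have h6 : Z.a + γ - 1 ≤ Z.a * γ := by
      obtain ⟨a, ha⟩ : ∃ a, Z.a = a + 1 := ⟨Z.a - 1, by omega⟩
      obtain ⟨c, hc⟩ : ∃ c, γ = c + 1 := ⟨γ - 1, by omega⟩
      rw [ha, hc]
      have h7 : (a + 1) * (c + 1) = a * c + (a + c + 1) := by ring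
      rw [h7]
      omega
    calc n ≤ Z.b * (Z.a + γ - 1) := h4
      _ ≤ Z.b * (Z.a * γ) := Nat.mul_le_mul_left _ h6
      _ = γ * (Z.a * Z.b) := by ring
-- END low

theorem exists_corr {k W K : Type} [Field k] [IsAlgClosed k] [CharZero k] [Field W] [Field K]
    [Algebra k W] [Algebra k K] (hW : IsFunField k W) (hK : IsFunField k K) :
    {n | ∃ Z : Corr k W K, Z.a * Z.b = n}.Nonempty := by
  obtain ⟨⟨w, hw, hwg⟩, -, -⟩ := gonx hW
  obtain ⟨⟨x, hx, hxg⟩, -, -⟩ := gonx hK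
  have c1 : IsCurve k w := ⟨hw, fin_adj hW hw⟩
  have c2 : IsCurve k x := ⟨hx, fin_adj hK hx⟩
  let _ := RatBase.alg k w
  let _ := RatBase.alg k x
  have t1 : IsScalarTower k (RatFunc k) W :=
    IsScalarTower.of_algebraMap_eq fun c => ((ratHom k w).commutes c).symm
  have t2 : IsScalarTower k (RatFunc k) K :=
    IsScalarTower.of_algebraMap_eq fun c => ((ratHom k x).commutes c).symm
  have f1 : FiniteDimensional (RatFunc k) W := RatBase.finiteDimensional k w
  have f2 : FiniteDimensional (RatFunc k) K := RatBase.finiteDimensional k x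
  obtain ⟨M, iM, aM, p, q, hpq, hgen, fp, fq, dp, dq⟩ :=
    compos (k := k) (W := RatFunc k) (L := W) (N := K)
  exact ⟨_, ⟨M, p, q, hgen, fp, fq⟩, rfl⟩

omit [IsAlgClosed k] [CharZero k] in
/-- The correspondence degree is at most the degree of a covering. -/
theorem le_deg (f : K →ₐ[k] L) [FiniteDimensional f.fieldRange L] :
    corrDeg k L K ≤ finrank f.fieldRange L := by
  let _ : Algebra K L := f.toRingHom.toAlgebra
  obtain ⟨h1, h2, h3⟩ := rng f (fun _ => rfl)
  have := h1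
  have := h3
  rw [← h2]
  exact corrDeg_le

theorem const_gon (hL : IsFunField k L) (hK : IsFunField k K) (Z : Corr k L K)
    (h : Cst Z.s Z.t) (h' : Cst Z.t Z.s) : gon k L * gon k K ≤ Z.a * Z.b := by
  have h4 : gon k K ≤ Z.a := cst_gon hL hK Z.s Z.t h
  have h5 : gon k L ≤ Z.b := cst_gon hK hL Z.t Z.s h'
  rw [mul_comm Z.a]
  exact Nat.mul_le_mul h5 h4

theorem lowdeg (hL : IsFunField k L) (hK : IsFunField k K) {γ n : ℕ} (hγ : IsGenus k K γ)
    (h1 : 1 ≤ γ)
    (h : ∀ Z : Corr k L K, (Cst Z.s Z.t ∧ Cst Z.t Z.s) ∨ Theta Z.s Z.t γ n) :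
    gon k L * gon k K ≤ corrDeg k L K ∨ n ≤ γ * corrDeg k L K := by
  obtain ⟨Z, hZ⟩ := Nat.sInf_mem (exists_corr hL hK)
  have hZ' : corrDeg k L K = Z.a * Z.b := hZ.symm
  rw [hZ']
  exact low hL hK hγ h1 Z (h Z)

/-- If the covering has least theta degree then the correspondence degree is known, and (for genus at
least two) the minimal correspondences are graphs. -/
theorem least (hL : IsFunField k L) (hK : IsFunField k K) {γ : ℕ} (hγ : IsGenus k K γ)
    (h1 : 1 ≤ γ) (f : K →ₐ[k] L) [FiniteDimensional f.fieldRange L]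
    (h : ∀ Z : Corr k L K, (Cst Z.s Z.t ∧ Cst Z.t Z.s) ∨
      Theta Z.s Z.t γ (γ * finrank f.fieldRange L)) :
    corrDeg k L K = min (finrank f.fieldRange L) (gon k L * gon k K) ∧
      (2 ≤ γ → finrank f.fieldRange L < gon k L * gon k K → ∀ Z : Corr k L K,
        Z.a * Z.b = corrDeg k L K → Z.a = 1 ∧ Z.b = finrank f.fieldRange L) := by
  have h2 : corrDeg k L K = min (finrank f.fieldRange L) (gon k L * gon k K) := by
    refine le_antisymm (le_min (le_deg f) (corrDeg_le_gon hL hK)) ?_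
    rcases lowdeg hL hK hγ h1 h with h3 | h3
    · exact (min_le_right _ _).trans h3
    · exact (min_le_left _ _).trans (Nat.le_of_mul_le_mul_left h3 h1)
  refine ⟨h2, fun hγ2 hlt Z hZ => ?_⟩
  rw [h2, min_eq_left hlt.le] at hZ
  rcases h Z with h3 | h3
  · exfalso
    have h4 : gon k K ≤ Z.a := cst_gon hL hK Z.s Z.t h3.1
    have h5 : gon k L ≤ Z.b := cst_gon hK hL Z.t Z.s h3.2
    have h6 : gon k L * gon k K ≤ Z.a * Z.b := by
      rw [mul_comm Z.a]
      exact Nat.mul_le_mul h5 h4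
    omega
  · have h4 : γ * finrank f.fieldRange L ≤ Z.b * (Z.a + γ - 1) := star hL hK Z.s Z.t hγ h3
    have h5 : 0 < Z.a := finrank_pos (R := Z.s.fieldRange) (M := Z.M)
    have h6 : 0 < Z.b := finrank_pos (R := Z.t.fieldRange) (M := Z.M)
    obtain ⟨a, ha⟩ : ∃ a, Z.a = a + 1 := ⟨Z.a - 1, by omega⟩
    obtain ⟨c, hc⟩ : ∃ c, γ = c + 2 := ⟨γ - 2, by omega⟩
    have h7 : Z.a + γ - 1 = a + c + 2 := by omega
    rw [h7, ← hZ, ha, hc] at h4
    have h8 : a = 0 := by
      by_contra h9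
      have h10 : 0 < a := Nat.pos_of_ne_zero h9
      have h11 : (c + 2) * ((a + 1) * Z.b) = Z.b * (a + c + 2) + Z.b * (a * (c + 1)) := by ring
      rw [h11] at h4
      have h12 : 0 < Z.b * (a * (c + 1)) :=
        Nat.mul_pos h6 (Nat.mul_pos h10 (Nat.succ_pos c))
      omega
    rw [h8, zero_add] at ha
    refine ⟨ha, ?_⟩
    rw [ha, one_mul] at hZ
    exact hZ

end Pool.Agent.CorF
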