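import Pool.Agent.CorF.Defs

/-! # Places and embeddings of function fields -/

set_option autoImplicit false

open Module

open scoped Classical

noncomputable section

namespace Pool.Agent.CorF

open Pool.Agent.EllHiggs Pool.Agent.CorD

section one

variable {k A B C : Type} [Field k] [Field A] [Field B] [Field C] [Algebra k A] [Algebra k B]
  [Algebra k C]

-- BEGIN spec
/-- ROW spec. `e * v.ord v.unif = e` (`Place.ord_unif`), so `e = ram φ w v`. -/
theorem ov_spec {φ : A →ₐ[k] B} {w : Place k B} {v : Place k A} (h : Ov φ w v) :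
    0 < ram φ w v ∧ ∀ g : A, w.ord (φ g) = ram φ w v * v.ord g := by
  obtain ⟨e, he, h1⟩ := h
  have h2 : ram φ w v = e := by
    unfold ram
    rw [h1, v.ord_unif, mul_one]
  rw [h2]
  exact ⟨he, h1⟩
-- END spec

-- BEGIN comp
/-- ROW comp. Directly from the definitions and `ov_spec`. -/
theorem ov_comp {φ : A →ₐ[k] B} {ψ : B →ₐ[k] C} {w : Place k C} {u : Place k B} {v : Place k A}
    (h : Ov φ u v) (h' : Ov ψ w u) :
    Ov (ψ.comp φ) w v ∧ ram (ψ.comp φ) w v = ram ψ w u * ram φ u v := by
  obtain ⟨h1, h2⟩ := ov_spec h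
  obtain ⟨h3, h4⟩ := ov_spec h'
  have h5 : ∀ g : A, w.ord ((ψ.comp φ) g) = ram ψ w u * ram φ u v * v.ord g := fun g => by
    rw [AlgHom.comp_apply, h4, h2, mul_assoc]
  refine ⟨⟨_, mul_pos h3 h1, h5⟩, ?_⟩
  rw [ram, h5, v.ord_unif, mul_one]
-- END comp

-- BEGIN uniq
/-- ROW uniq. As `Place.Over.unique` (EllHiggs/Restr.lean). -/
theorem ov_uniq {φ : A →ₐ[k] B} {w : Place k B} {v v' : Place k A} (h : Ov φ w v)
    (h' : Ov φ w v') : v = v' := by
  obtain ⟨e, he, h⟩ := h
  obtain ⟨e', he', h'⟩ := h'
  have key : ∀ f : A, e * v.ord f = e' * v'.ord f := fun f => by rw [← h, ← h']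
  obtain ⟨f, hf⟩ := v.exists_one
  obtain ⟨f', hf'⟩ := v'.exists_one
  have h1 := key f
  have h2 := key f'
  rw [hf, mul_one] at h1
  rw [hf', mul_one] at h2
  have h3 : e = e' := by
    apply Int.dvd_antisymm he.le he'.le
    · exact ⟨_, h2.symm⟩
    · exact ⟨_, h1⟩
  apply Restr.place_ext
  funext f
  have h4 := key f
  rw [← h3] at h4
  exact mul_left_cancel₀ he.ne' h4
-- END uniq

-- BEGIN down
/-- ROW down. `Place.exists_over` (EllHiggs/Restr.lean) for the algebra structure of `φ`
(`let alg : Algebra A B := φ.toRingHom.toAlgebra`, `rng` of CorD/Cor.lean). -/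
theorem ov_down (φ : A →ₐ[k] B) [FiniteDimensional φ.fieldRange B] (w : Place k B) :
    ∃ v : Place k A, Ov φ w v := by
  let _ : Algebra A B := φ.toRingHom.toAlgebra
  obtain ⟨hfd, _, hst⟩ := rng φ (fun _ => rfl)
  have := hfd
  have := hst
  obtain ⟨v, e, he, h⟩ := exists_over (K := A) w
  exact ⟨v, e, he, h⟩
-- END down

variable [IsAlgClosed k] [CharZero k]

-- BEGIN pole
/-- ROW pole. A nonconstant function `g` on the curve of `A` whose only pole is `v`: by `van`
(CorD/Gen.lean), `IsGenus k A g0` (`hg.1 D : dg D + 1 ≤ finrank k (Lsp D) + g0`) for `D = n v`,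
`n = g0 + 1`, the space `Lsp D` has dimension at least `2`, so it contains an element `g` which is not a
constant, hence transcendental (`const_of_alg`, CorD/Nrm.lean). `g` has poles
(`pol_form`, `fd_pos`), so `v.ord g < 0`. -/
theorem pole (hA : IsFunField k A) (v : Place k A) :
    ∃ g : A, Transcendental k g ∧ v.ord g < 0 ∧ ∀ v' : Place k A, v' ≠ v → 0 ≤ v'.ord g := by
  obtain ⟨g0, hg, hfin, -⟩ := van hA
  obtain ⟨D, hD⟩ : ∃ D : Place k A →₀ ℤ, D = Finsupp.single v ((g0 : ℤ) + 1) := ⟨_, rfl⟩
  have hdg : dg D = (g0 : ℤ) + 1 := by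
    rw [hD, dg, Finsupp.sum_single_index rfl]
  have h1 := hg.1 D
  have h2 : 2 ≤ finrank k (Lsp D) := by
    rw [hdg] at h1
    omega
  have h3 : ∃ g ∈ Lsp D, Transcendental k g := by
    by_contra hcon
    push Not at hcon
    have h4 : Lsp D ≤ Submodule.span k {(1 : A)} := by
      intro g hg'
      obtain ⟨c, hc⟩ := const_of_alg (hcon g hg')
      rw [hc, Algebra.algebraMap_eq_smul_one]
      exact Submodule.smul_mem _ _ (Submodule.mem_span_singleton_self _)
    have h5 : finrank k (Lsp D) ≤ finrank k (Submodule.span k {(1 : A)}) :=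
      Submodule.finrank_mono h4
    rw [finrank_span_singleton one_ne_zero] at h5
    omega
  obtain ⟨g, hgD, hgt⟩ := h3
  have hg0 : g ≠ 0 := by
    rintro rfl
    exact hgt (isAlgebraic_zero)
  have hoth : ∀ v' : Place k A, v' ≠ v → 0 ≤ v'.ord g := by
    intro v' hv'
    have h6 := (mem_Lsp D g).1 hgD v'
    have h7 : D v' = 0 := by
      rw [hD, Finsupp.single_eq_of_ne hv']
    rw [h7, neg_zero] at h6
    rcases h6 with h6 | h6
    · exact absurd h6 hg0
    · exact h6
  refine ⟨g, hgt, ?_, hoth⟩
  by_contra hneg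
  push Not at hneg
  have h8 : ∀ v' : Place k A, max 0 (-(v'.ord g)) = 0 := by
    intro v'
    by_cases hv' : v' = v
    · rw [hv']; omega
    · have := hoth v' hv'; omega
  have h9 := pol_form hA g
  rw [finsum_congr h8, finsum_zero] at h9
  have h10 := (fd_pos hA g).2 hgt
  omega
-- END pole

-- BEGIN degf
private theorem degf_term {φ : A →ₐ[k] B} [FiniteDimensional φ.fieldRange B] {v : Place k A} {g : A}
    (hg1 : v.ord g < 0) (hg2 : ∀ v' : Place k A, v' ≠ v → 0 ≤ v'.ord g) (w : Place k B) :
    max 0 (-(w.ord (φ g))) = (if Ov φ w v then ram φ w v else 0) * (-(v.ord g)) := by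
  by_cases h : Ov φ w v
  · rw [if_pos h]
    obtain ⟨h1, h2⟩ := ov_spec h
    rw [h2 g, max_eq_right]
    · ring
    · have := mul_pos h1 (neg_pos.2 hg1)
      linarith [this, mul_neg (ram φ w v) (v.ord g)]
  · rw [if_neg h, zero_mul]
    obtain ⟨v', hv'⟩ := ov_down φ w
    have hne : v' ≠ v := by
      rintro rfl
      exact h hv'
    obtain ⟨h1, h2⟩ := ov_spec hv'
    rw [h2 g]
    exact max_eq_left (neg_nonpos.2 (mul_nonneg h1.le (hg2 v' hne)))

/-- ROW degf. The set is finite: `finite_over` (EllHiggs/Restr.lean) with `S = {v}`, or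
`finite_ord` for `φ v.unif`. The sum: `g` from `pole`, `n = -(v.ord g) > 0`. `pol_form` for `g`: the only nonzero
term is `n`, so `fdeg k g = n`. `fd_tower` (with the algebra structure of `φ`, `rng`):
`fdeg k (φ g) = n * finrank φ.fieldRange B`. `pol_form` for `φ g`: the term of `w` is `ram φ w v * n` if
`Ov φ w v`, and `0` if not (`ov_down`: `w` is over some `v' ≠ v`, so `w.ord (φ g) ≥ 0`). Cancel `n`. -/
theorem deg_fib (hA : IsFunField k A) (φ : A →ₐ[k] B) [FiniteDimensional φ.fieldRange B]
    (v : Place k A) : {w : Place k B | Ov φ w v}.Finite ∧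
      (∑ᶠ w : Place k B, if Ov φ w v then ram φ w v else 0) = (finrank φ.fieldRange B : ℤ) := by
  let _ : Algebra A B := φ.toRingHom.toAlgebra
  obtain ⟨hfd, hfr, hst⟩ := rng φ (fun _ => rfl)
  have := hfd
  have := hst
  have hB : IsFunField k B := hA.of_finite (M := B)
  constructor
  · refine (finite_ord hB (φ v.unif)).subset ?_
    rintro w ⟨e, he, hw⟩
    change w.ord (φ v.unif) ≠ 0
    rw [hw, v.ord_unif, mul_one]
    exact he.ne'
  · obtain ⟨g, hgt, hg1, hg2⟩ := pole hA v
    have h1 : (∑ᶠ v' : Place k A, max 0 (-(v'.ord g))) = -(v.ord g) := by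
      rw [finsum_eq_single _ v]
      · exact max_eq_right (by linarith)
      · intro v' hv'
        exact max_eq_left (neg_nonpos.2 (hg2 v' hv'))
    have h2 : (fdeg k g : ℤ) = -(v.ord g) := (pol_form hA g).symm.trans h1
    have h3 : fdeg k (φ g) = fdeg k g * finrank A B := fd_tower (k := k) (L := A) (F := B) g
    have h4 := pol_form hB (φ g)
    rw [h3, Nat.cast_mul, h2, hfr] at h4
    have h5 : (∑ᶠ w : Place k B, max 0 (-(w.ord (φ g)))) =
        (∑ᶠ w : Place k B, if Ov φ w v then ram φ w v else 0) * (-(v.ord g)) := by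
      rw [finsum_mul' _ _ ?_]
      · exact finsum_congr fun w => degf_term hg1 hg2 w
      · refine (finite_ord hB (φ v.unif)).subset ?_
        intro w hw
        have h6 : (if Ov φ w v then ram φ w v else 0) ≠ 0 := hw
        have h7 : Ov φ w v := by
          by_contra h7
          exact h6 (if_neg h7)
        obtain ⟨e, he, hw'⟩ := h7
        change w.ord (φ v.unif) ≠ 0
        rw [hw', v.ord_unif, mul_one]
        exact he.ne'
    rw [h5, mul_comm (-(v.ord g))] at h4
    exact mul_right_cancel₀ (neg_pos.2 hg1).ne' h4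
-- END degf

-- BEGIN up
/-- ROW up. Otherwise the sum in `deg_fib` is `0`, but `0 < finrank` (`finrank_pos`). -/
theorem ov_up (hA : IsFunField k A) (φ : A →ₐ[k] B) [FiniteDimensional φ.fieldRange B]
    (v : Place k A) : ∃ w : Place k B, Ov φ w v := by
  by_contra hn
  have hn' : ∀ w : Place k B, ¬ Ov φ w v := fun w hw => hn ⟨w, hw⟩
  have h := (deg_fib hA φ v).2
  rw [finsum_congr (fun w => if_neg (hn' w)), finsum_zero] at h
  have hp : 0 < finrank φ.fieldRange B := finrank_pos
  omega
-- END up

-- BEGIN pull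
private theorem pull_cov {φ : A →ₐ[k] B} [FiniteDimensional φ.fieldRange B]
    {D : Place k A →₀ ℤ} {P : Place k B → ℤ} (hP : ∀ w v, Ov φ w v → P w = ram φ w v * D v)
    {w : Place k B} (hw : P w ≠ 0) : ∃ v ∈ D.support, Ov φ w v := by
  obtain ⟨v, hv⟩ := ov_down φ w
  refine ⟨v, ?_, hv⟩
  rw [Finsupp.mem_support_iff]
  intro h0
  exact hw (by rw [hP w v hv, h0, mul_zero])

private theorem pull_term {φ : A →ₐ[k] B} [FiniteDimensional φ.fieldRange B]
    {D : Place k A →₀ ℤ} {P : Place k B → ℤ} (hP : ∀ w v, Ov φ w v → P w = ram φ w v * D v)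
    (w : Place k B) :
    P w = ∑ v ∈ D.support, (if Ov φ w v then ram φ w v else 0) * D v := by
  obtain ⟨v, hv⟩ := ov_down φ w
  rw [Finset.sum_eq_single v]
  · rw [if_pos hv, hP w v hv]
  · intro v' _ hne
    rw [if_neg, zero_mul]
    intro h'
    exact hne (ov_uniq h' hv)
  · intro hv'
    rw [Finsupp.notMem_support_iff.1 hv', mul_zero]

/-- ROW pull. The support of `P` is in the finite union of the sets `{w | Ov φ w v}`, `v ∈ D.support`
(`ov_down`, `deg_fib`). The sum: `P w = ∑ v ∈ D.support, if Ov φ w v then ram φ w v * D v else 0`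
(`ov_down`, `ov_uniq`), interchange (`finsum_sum_comm` or `finsum_eq_sum_of_support_subset` and
`Finset.sum_comm`), `deg_fib`; `dg D = ∑ v ∈ D.support, D v` is the definition of `dg`. -/
theorem deg_pull (hA : IsFunField k A) (φ : A →ₐ[k] B) [FiniteDimensional φ.fieldRange B]
    (D : Place k A →₀ ℤ) (P : Place k B → ℤ) (hP : ∀ w v, Ov φ w v → P w = ram φ w v * D v) :
    (Function.support P).Finite ∧ ∑ᶠ w, P w = (finrank φ.fieldRange B : ℤ) * dg D := by
  have hS : (⋃ v ∈ D.support, {w : Place k B | Ov φ w v}).Finite :=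
    D.support.finite_toSet.biUnion fun v _ => (deg_fib hA φ v).1
  refine ⟨hS.subset fun w hw => ?_, ?_⟩
  · obtain ⟨v, hv, hov⟩ := pull_cov hP hw
    exact Set.mem_biUnion hv hov
  · have h1 : ∀ v ∈ D.support, (Function.support fun w : Place k B =>
        (if Ov φ w v then ram φ w v else 0) * D v).Finite := by
      intro v _
      refine (deg_fib hA φ v).1.subset fun w hw => ?_
      by_contra hn
      have hn' : ¬ Ov φ w v := hn
      exact hw (by simp only [if_neg hn', zero_mul])
    have h2 : ∀ v ∈ D.support, (∑ᶠ w : Place k B, (if Ov φ w v then ram φ w v else 0) * D v) =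
        (finrank φ.fieldRange B : ℤ) * D v := by
      intro v _
      rw [← finsum_mul' _ _ ?_, (deg_fib hA φ v).2]
      refine (deg_fib hA φ v).1.subset fun w hw => ?_
      by_contra hn
      have hn' : ¬ Ov φ w v := hn
      exact hw (if_neg hn')
    calc ∑ᶠ w, P w = ∑ᶠ w, ∑ v ∈ D.support, (if Ov φ w v then ram φ w v else 0) * D v :=
          finsum_congr fun w => pull_term hP w
      _ = ∑ v ∈ D.support, ∑ᶠ w, (if Ov φ w v then ram φ w v else 0) * D v :=
          finsum_sum_comm D.support _ h1
      _ = ∑ v ∈ D.support, (finrank φ.fieldRange B : ℤ) * D v := Finset.sum_congr rfl h2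
      _ = (finrank φ.fieldRange B : ℤ) * dg D := by
          rw [← Finset.mul_sum]
          rfl
-- END pull

end one

section two

variable {k A B M : Type} [Field k] [Field A] [Field B] [Field M] [Algebra k A] [Algebra k B]
  [Algebra k M] [IsAlgClosed k] [CharZero k]

-- BEGIN fbr
/-- ROW fbr. The terms of the finite sum (`deg_fib`: `{z | Ov s z x}` is finite) are `≥ 0` (`ov_spec`);
`single_le_finsum`, `finsum_nonneg`. The last one: otherwise all terms are `0`. -/
theorem fbr_facts (hA : IsFunField k A) (s : A →ₐ[k] M) [FiniteDimensional s.fieldRange M]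
    (t : B →ₐ[k] M) (x : Place k A) (y : Place k B) :
    0 ≤ fbr s t x y ∧ (∀ z : Place k M, Ov s z x → Ov t z y → ram s z x ≤ fbr s t x y) ∧
      (fbr s t x y ≠ 0 → ∃ z : Place k M, Ov s z x ∧ Ov t z y) := by
  have hnn : ∀ z : Place k M, 0 ≤ if Ov s z x ∧ Ov t z y then ram s z x else 0 := by
    intro z
    split_ifs with h
    · exact (ov_spec h.1).1.le
    · exact le_rfl
  have hfin : (Function.support fun z : Place k M =>
      if Ov s z x ∧ Ov t z y then ram s z x else 0).Finite := by
    refine (deg_fib hA s x).1.subset fun z hz => ?_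
    rw [Function.mem_support] at hz
    by_contra h
    exact hz (if_neg fun h' => h h'.1)
  refine ⟨finsum_nonneg hnn, fun z h1 h2 => ?_, fun h => ?_⟩
  · have h3 := single_le_finsum z hfin hnn
    rw [if_pos ⟨h1, h2⟩] at h3
    exact h3
  · by_contra hcon
    push Not at hcon
    refine h ?_
    unfold fbr
    have h0 : (fun z : Place k M => if Ov s z x ∧ Ov t z y then ram s z x else 0) = fun _ => 0 := by
      funext z
      exact if_neg fun h' => hcon z h'.1 h'.2
    rw [h0, finsum_zero]
-- END fbr

-- BEGIN fsum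
/-- ROW fsum. Interchange the two finite sums: `{z | Ov s z x}` is finite (`deg_fib`), every `z` has
exactly one `y` (`ov_down`, `ov_uniq`), and `deg_fib` for `s`. -/
theorem fbr_sum (hA : IsFunField k A) (s : A →ₐ[k] M) [FiniteDimensional s.fieldRange M]
    (t : B →ₐ[k] M) [FiniteDimensional t.fieldRange M] (x : Place k A) :
    (Function.support (fbr s t x)).Finite ∧
      ∑ᶠ y, fbr s t x y = (finrank s.fieldRange M : ℤ) := by
  obtain ⟨hfin, hsum⟩ := deg_fib hA s x
  choose Y hY using fun z : Place k M => ov_down t z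
  have hiff : ∀ z b, Ov t z b ↔ Y z = b := fun z b =>
    ⟨fun h => ov_uniq (hY z) h, fun h => h ▸ hY z⟩
  have hf : ∀ b, fbr s t x b = ∑ z ∈ hfin.toFinset, if Y z = b then ram s z x else 0 := by
    intro b
    unfold fbr
    rw [finsum_eq_sum_of_support_subset (s := hfin.toFinset)]
    · refine Finset.sum_congr rfl fun z hz => ?_
      have hz' : Ov s z x := hfin.mem_toFinset.1 hz
      simp only [hz', true_and, hiff]
    · intro z hz
      rw [Function.mem_support] at hz
      rw [Finset.mem_coe, hfin.mem_toFinset]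
      by_contra hc
      exact hz (if_neg fun h => hc h.1)
  have hsupp : Function.support (fbr s t x) ⊆
      ((hfin.toFinset.image Y : Finset (Place k B)) : Set (Place k B)) := by
    intro b hb
    rw [Function.mem_support, hf] at hb
    obtain ⟨z, hz, hz0⟩ := Finset.exists_ne_zero_of_sum_ne_zero hb
    have hzb : Y z = b := by
      by_contra hc
      exact hz0 (if_neg hc)
    exact Finset.mem_coe.2 (Finset.mem_image.2 ⟨z, hz, hzb⟩)
  refine ⟨(Finset.finite_toSet _).subset hsupp, ?_⟩
  rw [finsum_eq_sum_of_support_subset _ hsupp, Finset.sum_congr rfl fun b _ => hf b,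
    Finset.sum_comm, ← hsum, finsum_eq_sum_of_support_subset (s := hfin.toFinset)]
  · refine Finset.sum_congr rfl fun z hz => ?_
    have hz' : Ov s z x := hfin.mem_toFinset.1 hz
    rw [Finset.sum_ite_eq, if_pos (Finset.mem_image_of_mem Y hz), if_pos hz']
  · intro z hz
    rw [Function.mem_support] at hz
    rw [Finset.mem_coe, hfin.mem_toFinset]
    by_contra hc
    exact hz (if_neg hc)
-- END fsum

-- BEGIN cgon
/-- a function field has a place -/
theorem cgon_place {K : Type} [Field K] [Algebra k K] (hK : IsFunField k K) {u : K}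
    (hu : Transcendental k u) : ∃ v : Place k K, 0 < v.ord u := by
  by_contra hcon
  push Not at hcon
  have h1 := zer_form hK hu
  have h2 : ∑ᶠ v : Place k K, max 0 (v.ord u) = 0 := by
    rw [finsum_congr (fun v => max_eq_left (hcon v)), finsum_zero]
  rw [h2] at h1
  have h3 := (fd_pos hK u).2 hu
  omega

/-- a function field has infinitely many places -/
theorem cgon_inf {K : Type} [Field K] [Algebra k K] (hK : IsFunField k K) :
    Infinite (Place k K) := by
  obtain ⟨u, hu, -⟩ := id hK
  have hu' : ∀ c : k, Transcendental k (u - algebraMap k K c) := by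
    intro c hc
    apply hu
    have h1 : IsAlgebraic k (u - algebraMap k K c + algebraMap k K c) :=
      hc.add (isAlgebraic_algebraMap c)
    simpa using h1
  choose v hv using fun c : k => cgon_place hK (hu' c)
  haveI : Infinite k := CharZero.infinite k
  refine Infinite.of_injective v fun c c' hcc => ?_
  by_contra hne
  have h1 := hv c
  have h2 := hv c'
  rw [← hcc] at h2
  have hne0 : ∀ x : k, u - algebraMap k K x ≠ 0 := by
    intro x hx
    apply hu' x
    rw [hx]
    exact isAlgebraic_zero
  have h3 : (u - algebraMap k K c) + -(u - algebraMap k K c') = algebraMap k K (c' - c) := by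
    rw [map_sub]; ring
  have h4 : algebraMap k K (c' - c) ≠ 0 := by
    rw [Ne, FaithfulSMul.algebraMap_eq_zero_iff, sub_eq_zero]
    exact fun h => hne h.symm
  have h5 := (v c).ord_add (u - algebraMap k K c) (-(u - algebraMap k K c')) (hne0 c)
    (neg_ne_zero.2 (hne0 c')) (by rw [h3]; exact h4)
  rw [h3, (v c).ord_const, Place.ord_neg] at h5
  have h6 : 0 < min ((v c).ord (u - algebraMap k K c)) ((v c).ord (u - algebraMap k K c')) :=
    lt_min h1 h2
  omega

/-- ROW cgon. Fix a place `x'` of `A` (places exist: `pol_form` for a transcendental element). The support of `fbr s t x'` is finite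
(`fbr_sum`), the places of `B` are infinitely many (for `u : B` transcendental the elements `u - c`, `c : k`, have
zeros, `zer_form`, at different places). Take `y` outside, `z` over `y` (`ov_up` for `t`, `hB`), `x` under `z` (`ov_down`):
`0 < fbr s t x y` (`fbr_facts`, `ov_spec`). `g` from `h x x'` has `y.ord g ≠ 0`, so `g` is not a constant (`Place.ord_const`), so it is
transcendental (`const_of_alg`), `gon k B ≤ fdeg k g` (`gonx`, CorD/Cor.lean, or `Nat.sInf_le`) and
`fdeg k g = ∑ max 0 (y.ord g) ≤ ∑ fbr s t x y` (`zer_form`, `fbr_facts`, `fbr_sum`, `finsum_le_finsum`). -/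
theorem cst_gon (hA : IsFunField k A) (hB : IsFunField k B) (s : A →ₐ[k] M)
    [FiniteDimensional s.fieldRange M] (t : B →ₐ[k] M) [FiniteDimensional t.fieldRange M]
    (h : Cst s t) : gon k B ≤ finrank s.fieldRange M := by
  obtain ⟨u0, hu0, -⟩ := id hA
  obtain ⟨x', -⟩ := cgon_place hA hu0
  haveI := cgon_inf (k := k) hB
  obtain ⟨hf', -⟩ := fbr_sum hA s t x'
  obtain ⟨y, hy⟩ := hf'.exists_notMem
  have hy0 : fbr s t x' y = 0 := by
    by_contra hc
    exact hy hc
  obtain ⟨z, hz⟩ := ov_up hB t y
  obtain ⟨x, hx⟩ := ov_down s z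
  have hpos : 0 < fbr s t x y :=
    lt_of_lt_of_le (ov_spec hx).1 ((fbr_facts hA s t x y).2.1 z hx hz)
  obtain ⟨g, hg0, hg⟩ := h x x'
  have hgy : 0 < y.ord g := by
    rw [hg y, hy0]; omega
  have hgt : Transcendental k g := by
    by_contra hc
    obtain ⟨c, hc'⟩ := const_of_alg hc
    rw [hc', y.ord_const] at hgy
    exact lt_irrefl _ hgy
  have h1 : gon k B ≤ fdeg k g := (gonx hB).2.1 g hgt
  have h2 := zer_form hB hgt
  obtain ⟨hf, hs⟩ := fbr_sum hA s t x
  have hfg : (Function.support fun v : Place k B => max 0 (v.ord g)).Finite := by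
    refine (finite_ord hB g).subset fun v hv hc => hv ?_
    show max 0 (v.ord g) = 0
    rw [hc]; rfl
  have h3 : ∑ᶠ v : Place k B, max 0 (v.ord g) ≤ ∑ᶠ v, fbr s t x v := by
    refine finsum_le_finsum' hfg hf fun v => ?_
    have a1 := (fbr_facts hA s t x v).1
    have a2 := (fbr_facts hA s t x' v).1
    show max 0 (v.ord g) ≤ fbr s t x v
    rw [hg v]
    omega
  rw [h2, hs] at h3
  have h4 : fdeg k g ≤ finrank s.fieldRange M := by exact_mod_cast h3
  exact h1.trans h4
-- END cgon

end two

end Pool.Agent.CorF
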