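import Pool.Agent.CorF.Det

/-! # The inequality `n ≤ q (p + γ - 1)` -/

set_option autoImplicit false

open Module

open scoped Classical

noncomputable section

namespace Pool.Agent.CorF

open Pool.Agent.EllHiggs Pool.Agent.CorD

variable {k A B M : Type} [Field k] [Field A] [Field B] [Field M] [Algebra k A] [Algebra k B]
  [Algebra k M] [IsAlgClosed k] [CharZero k]

-- BEGIN cnt
private theorem cnt_mono {α : Type} (f g : α → ℤ) (hf : (Function.support f).Finite)
    (hg : (Function.support g).Finite) (h : ∀ w, f w ≤ g w) : ∑ᶠ w, f w ≤ ∑ᶠ w, g w := by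
  rw [finsum_eq_sum_of_support_subset f (s := (hf.union hg).toFinset)
      (by rw [Set.Finite.coe_toFinset]; exact Set.subset_union_left),
    finsum_eq_sum_of_support_subset g (s := (hf.union hg).toFinset)
      (by rw [Set.Finite.coe_toFinset]; exact Set.subset_union_right)]
  exact Finset.sum_le_sum fun w _ => h w

private theorem cnt_core {α : Type} {p : ℕ} (o : α → ℤ) (P : Fin p → α → ℤ) (Q : α → ℤ)
    (ho : (Function.support o).Finite) (hs : ∑ᶠ w, o w = 0)
    (hP : ∀ j, (Function.support (P j)).Finite) (hQ : (Function.support Q).Finite)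
    (h : ∀ w, -(∑ j, P j w) + Q w ≤ o w) : ∑ᶠ w, Q w ≤ ∑ j, ∑ᶠ w, P j w := by
  have hS : (Function.support fun w => ∑ j, P j w).Finite := by
    refine (Set.finite_iUnion hP).subset fun w hw => ?_
    rw [Function.mem_support] at hw
    obtain ⟨j, -, hj⟩ := Finset.exists_ne_zero_of_sum_ne_zero hw
    exact Set.mem_iUnion.2 ⟨j, hj⟩
  have hR : (Function.support fun w => o w + ∑ j, P j w).Finite := by
    refine (ho.union hS).subset fun w hw => ?_
    by_contra hn
    rw [Set.mem_union, Function.mem_support, Function.mem_support, not_or, not_not, not_not] at hn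
    rw [Function.mem_support, hn.1, hn.2, add_zero] at hw
    exact hw rfl
  have h1 : ∑ᶠ w, Q w ≤ ∑ᶠ w, (o w + ∑ j, P j w) :=
    cnt_mono _ _ hQ hR fun w => by
      have h2 := h w
      linarith
  rw [finsum_add_distrib ho hS, hs, zero_add] at h1
  refine h1.trans (le_of_eq ?_)
  exact finsum_sum_comm Finset.univ (fun w j => P j w) fun j _ => hP j

/-- ROW cnt. Sum of the inequalities over the finitely many `w` in the supports (`finite_ord`), `sum_ord` (the sum
of all `w.ord d` is `0`), `finsum_le_finsum`, `finsum_add_distrib`, `finsum_sum_comm`. -/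
theorem cnt {N : Type} [Field N] [Algebra k N] (hN : IsFunField k N) {p : ℕ} (d : N)
    (P : Fin p → Place k N → ℤ) (Q : Place k N → ℤ) (hP : ∀ j, (Function.support (P j)).Finite)
    (hQ : (Function.support Q).Finite) (h : ∀ w, -(∑ j, P j w) + Q w ≤ w.ord d) :
    ∑ᶠ w, Q w ≤ ∑ j, ∑ᶠ w, P j w := by
  have ho : (Function.support fun w : Place k N => w.ord d).Finite := finite_ord hN d
  exact cnt_core (fun w : Place k N => w.ord d) P Q ho (sum_ord hN d) hP hQ h
-- END cnt

-- BEGIN star
omit [IsAlgClosed k] [CharZero k] in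
theorem fin_rng {A B : Type} [Field A] [Field B] [Algebra k A] [Algebra k B] (φ : A →ₐ[k] B)
    [Algebra A B] (h : ∀ x, algebraMap A B x = φ x) [FiniteDimensional A B] :
    FiniteDimensional φ.fieldRange B := by
  let e : A ≃+* φ.fieldRange := (AlgEquiv.ofInjectiveField φ).toRingEquiv
  have he : ∀ x : A, ((e x : φ.fieldRange) : B) = φ x := fun x => rfl
  exact Module.Finite.of_equiv_equiv e (RingEquiv.refl B)
    (RingHom.ext fun x => (he x).trans (h x).symm)

/-- The order at `w` of the pull-back of the divisor `D`. -/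
def plb (φ : A →ₐ[k] B) [FiniteDimensional φ.fieldRange B] (D : Place k A →₀ ℤ) (w : Place k B) : ℤ :=
  ram φ w (ov_down φ w).choose * D (ov_down φ w).choose

omit [IsAlgClosed k] [CharZero k] in
theorem plb_eq (φ : A →ₐ[k] B) [FiniteDimensional φ.fieldRange B] (D : Place k A →₀ ℤ)
    (w : Place k B) (v : Place k A) (h : Ov φ w v) : plb φ D w = ram φ w v * D v := by
  have h1 := ov_uniq (ov_down φ w).choose_spec h
  unfold plb
  rw [h1]

/-- ROW star (helper65). `N` from `ncl`, the columns are the homomorphisms `M → N` over `A`, the rows the basis of `Lsp D` (`basD`). -/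
theorem star (hA : IsFunField k A) (hB : IsFunField k B) (s : A →ₐ[k] M)
    [FiniteDimensional s.fieldRange M] (t : B →ₐ[k] M) [FiniteDimensional t.fieldRange M] {γ n : ℕ}
    (hγ : IsGenus k B γ) (h : Theta s t γ n) :
    n ≤ finrank t.fieldRange M * (finrank s.fieldRange M + γ - 1) := by
  obtain ⟨D, hD, ⟨x0, hred, hne⟩, S, hn, hS⟩ := h
  refine hn.trans ?_
  let algA : Algebra A M := s.toRingHom.toAlgebra
  obtain ⟨f1, f2, f3⟩ := rng s (fun _ => rfl)
  obtain ⟨N, iN, akN, aAN, aMN, t1, t2, t3, hnorm, hfin⟩ := ncl (k := k) (L := A) (M := M)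
  have hchar : CharZero A := charZero_of_injective_algebraMap (algebraMap k A).injective
  have hfAN : FiniteDimensional A N := Module.Finite.trans M N
  have hN : IsFunField k N := hA.of_finite (M := N)
  obtain ⟨e⟩ := hom_equiv (L := A) (M := M) (N := N) f2
  obtain ⟨f, hf, hfD, hspan⟩ := basD hA hB s t hγ D hD x0 hred hne
  let r : Fin (finrank s.fieldRange M) → (M →ₐ[k] N) := fun j => (e j).restrictScalars k
  let q : A →ₐ[k] N := IsScalarTower.toAlgHom k A N
  have hr : ∀ j, (r j).comp s = q := by
    intro j
    refine AlgHom.ext fun a => ?_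
    exact (e j).commutes a
  have hfq : FiniteDimensional q.fieldRange N := fin_rng q (fun _ => rfl)
  have hfc := fun j => fin_comp (k := k) (L := A) (M := M) (N := N) t (e j)
  have hfj : ∀ j, FiniteDimensional ((r j).comp t).fieldRange N := fun j => (hfc j).1
  have hrN : ∀ j, FiniteDimensional (r j).fieldRange N := by
    intro j
    let a1 : Algebra M N := (r j).toRingHom.toAlgebra
    have a2 : @IsScalarTower A M N _ (@Algebra.toSMul M N _ _ a1) _ :=
      @IsScalarTower.of_algebraMap_eq A M N _ _ _ _ a1 _ fun a => ((e j).commutes a).symm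
    have a3 : @FiniteDimensional M N _ _ (@Algebra.toModule M N _ _ a1) :=
      @Module.Finite.of_restrictScalars_finite A M N _ _ _ _ (@Algebra.toModule M N _ _ a1) _ a2 hfAN
    exact @fin_rng k _ M N _ _ _ _ (r j) a1 (fun _ => rfl) a3
  have hbM : LinearIndependent A (fun i => t (f i)) := by
    rw [Fintype.linearIndependent_iff]
    intro α hα i
    have h1 : ∑ i, s (α i) * t (f i) = 0 := by
      rw [← hα]
      exact Finset.sum_congr rfl fun i _ => (Algebra.smul_def (α i) (t (f i))).symm
    exact congrFun (indep hA s t D x0 hred hne f hf hfD α h1) i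
  let Am : Matrix (Fin (finrank s.fieldRange M)) (Fin (finrank s.fieldRange M)) N :=
    Matrix.of fun i j => e j (t (f i))
  have hdet : Am.det ≠ 0 := det_ne f2 (fun i => t (f i)) hbM e
  let DS : Place k A →₀ ℤ := ∑ x ∈ S, Finsupp.single x 1
  have hDS : ∀ x, DS x = if x ∈ S then 1 else 0 := by
    intro x
    show (∑ x ∈ S, Finsupp.single x (1 : ℤ)) x = _
    rw [Finsupp.finsetSum_apply]
    simp only [Finsupp.single_apply]
    rw [Finset.sum_ite_eq' S x]
  have hdgS : dg DS = (S.card : ℤ) := by
    unfold dg
    show (∑ x ∈ S, Finsupp.single x (1 : ℤ)).sum (fun _ n => n) = _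
    rw [← Finsupp.sum_finsetSum_index (fun _ => rfl) (fun _ _ _ => rfl)]
    simp
  have hloc : ∀ w, -(∑ j, plb ((r j).comp t) D w) + plb q DS w ≤ w.ord Am.det := by
    intro w
    obtain ⟨x, hx⟩ := ov_down q w
    choose y hy using fun j => ov_down ((r j).comp t) w
    have hP : ∀ j, plb ((r j).comp t) D w = ram ((r j).comp t) w (y j) * D (y j) := fun j =>
      plb_eq _ D w (y j) (hy j)
    have hQ : plb q DS w = ram q w x * DS x := plb_eq q DS w x hx
    have hlow : ∀ (j : Fin (finrank s.fieldRange M)) (g : B), (y j).Ge (-(D (y j))) g →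
        w.Ge (-(ram ((r j).comp t) w (y j) * D (y j))) (((r j).comp t) g) := by
      intro j g hg
      obtain ⟨b1, b2⟩ := ov_spec (hy j)
      rcases hg with rfl | hg
      · rw [map_zero]
        exact Place.Ge.zero
      · refine Place.Ge.of_le ?_
        rw [b2]
        nlinarith
    have hent : ∀ i j, w.Ge (-(ram ((r j).comp t) w (y j) * D (y j))) (Am i j) := fun i j =>
      hlow j (f i) (hfD i (y j))
    have hsum : -(∑ j, plb ((r j).comp t) D w) =
        ∑ j, -(ram ((r j).comp t) w (y j) * D (y j)) := by
      rw [Finset.sum_neg_distrib]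
      exact congrArg Neg.neg (Finset.sum_congr rfl fun j _ => hP j)
    rw [hsum, hQ, hDS]
    by_cases hxS : x ∈ S
    · rw [if_pos hxS, mul_one]
      obtain ⟨g, hg0, hg⟩ := hS x hxS
      have hgD : g ∈ Lsp D := fun v => (hg v).mono (by
        have := (fbr_facts hA s t x v).1
        omega)
      obtain ⟨c, hc⟩ := hspan g hgD
      have hc0 : c ≠ 0 := by
        rintro rfl
        apply hg0
        rw [hc]
        simp
      have h5 : ∀ j, w.Ge (-(ram ((r j).comp t) w (y j) * D (y j)) + ram q w x)
          (∑ i, algebraMap k N (c i) * Am i j) := by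
        intro j
        have h6 : ∑ i, algebraMap k N (c i) * Am i j = (r j) (t g) := by
          rw [hc, map_sum, map_sum]
          refine Finset.sum_congr rfl fun i _ => ?_
          rw [map_mul, map_mul, AlgHom.commutes, AlgHom.commutes]
          rfl
        rw [h6]
        exact loc_ge hA s t D q (r j) (hr j) w x hx (y j) (hy j) g hg
      exact (det_ge2 w Am _ hent c hc0 _ h5).le_ord hdet
    · rw [if_neg hxS, mul_zero, add_zero]
      exact (det_ge w Am _ hent).le_ord hdet
  have h7 := fun j => deg_pull hB ((r j).comp t) D (plb ((r j).comp t) D) (plb_eq _ D)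
  have h8 := deg_pull hA q DS (plb q DS) (plb_eq q DS)
  have h9 := cnt hN Am.det (fun j => plb ((r j).comp t) D) (plb q DS) (fun j => (h7 j).1) h8.1 hloc
  rw [h8.2, hdgS, Finset.sum_congr rfl fun j _ => (h7 j).2] at h9
  obtain ⟨g1, g2, g3⟩ := rng q (fun _ => rfl)
  rw [← g2, ← finrank_mul_finrank A M N, f2] at h9
  rw [Finset.sum_congr rfl fun j _ => by rw [(hfc j).2], Finset.sum_const, Finset.card_univ,
    Fintype.card_fin, nsmul_eq_mul] at h9
  have hp : 0 < finrank s.fieldRange M := finrank_pos
  have hMN : 0 < finrank M N := finrank_pos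
  have hdgD : dg D = ((finrank s.fieldRange M + γ - 1 : ℕ) : ℤ) := by
    rw [Nat.cast_sub (by omega)]
    push_cast
    linarith
  rw [hdgD] at h9
  have h10 : finrank s.fieldRange M * finrank M N * S.card ≤
      finrank s.fieldRange M * (finrank M N * finrank t.fieldRange M *
        (finrank s.fieldRange M + γ - 1)) := by exact_mod_cast h9
  have h11 : (finrank s.fieldRange M * finrank M N) * S.card ≤
      (finrank s.fieldRange M * finrank M N) * (finrank t.fieldRange M *
        (finrank s.fieldRange M + γ - 1)) := by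
    calc (finrank s.fieldRange M * finrank M N) * S.card ≤ _ := h10
      _ = _ := by ring
  exact Nat.le_of_mul_le_mul_left h11 (Nat.mul_pos hp hMN)
-- END star

end Pool.Agent.CorF
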