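import Pool.Agent.CorF.Twr4

/-! # Unramified cyclic coverings: the square root replaced by an `N`-th root -/

set_option autoImplicit false

open Module Polynomial

open scoped Classical

noncomputable section

namespace Pool.Agent.CorF

open Pool.Agent.EllHiggs Pool.Agent.CorD Pool.Agent.MP_b814b1_ag

/-- Every point at which the function `u` takes the value `c` has multiplicity divisible by `N`. -/
def DivVal {k K : Type} [Field k] [Field K] [Algebra k K] (N : ℕ) (u : K) (c : k) : Prop :=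
  ∀ v : Place k K, 0 < v.ord (u - algebraMap k K c) →
    ∃ m : ℤ, v.ord (u - algebraMap k K c) = N * m

/-- There is a nonconstant function `u` of degree at most `F` and a finite set `s` of values, all of whose points have
multiplicity divisible by `N`; `s` has at least four elements, or at least three if `N ≥ 3`. -/
def DivFib (k K : Type) [Field k] [Field K] [Algebra k K] (N F : ℕ) : Prop :=
  ∃ (u : K) (s : Finset k), 0 < fdeg k u ∧ fdeg k u ≤ F ∧ (4 ≤ s.card ∨ 3 ≤ s.card ∧ 3 ≤ N) ∧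
    ∀ c ∈ s, DivVal N u c

/-- The base curves of the towers: gonality two (`N = F = 2`); or `y ^ N = p (x)`, where `p` has at least four simple roots (at
least three if `N ≥ 3`) and `F` is the degree of `x`; or `DivFib`. -/
def TowerBase (k K : Type) [Field k] [Field K] [Algebra k K] (N F : ℕ) : Prop :=
  (gon k K = 2 ∧ N = 2 ∧ F = 2) ∨
    (∃ (x y : K) (p : k[X]) (s : Finset k), Transcendental k x ∧ y ^ N = aeval x p ∧
      (∀ c ∈ s, p.IsRoot c ∧ ¬ (derivative p).IsRoot c) ∧ (4 ≤ s.card ∨ 3 ≤ s.card ∧ 3 ≤ N) ∧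
        F = fdeg k x) ∨
    DivFib k K N F

section

variable {k K W : Type} [Field k] [Field K] [Field W] [Algebra k K] [Algebra k W] [Algebra K W]
  [IsScalarTower k K W] [IsAlgClosed k] [CharZero k] [FiniteDimensional K W]

/-- A cyclic extension by the `N`-th root of a function with divisor divisible by `N` is unramified. -/
theorem unram_root (hK : IsFunField k K) (N : ℕ) (hN : N.Prime) (h2 : finrank K W = N)
    (σ : W ≃ₐ[K] W) {t : W} {x : K} {ζ : k} (hζ : IsPrimitiveRoot ζ N)
    (ht : t ^ N = algebraMap K W x) (hσ : σ t = algebraMap k W ζ * t) (hx : x ≠ 0)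
    (hev : ∀ v : Place k K, ∃ m : ℤ, v.ord x = N * m) (φ : K →ₐ[k] W)
    (hφ : ∀ y, algebraMap K W y = φ y) [FiniteDimensional φ.fieldRange W]
    (w : Place k W) (v : Place k K) (hw : Ov φ w v) : ram φ w v = 1 := by
  have hW : IsFunField k W := hK.of_finite (M := W)
  have hrat : w.Rational := Place.rational hW w
  obtain ⟨hr0, hr⟩ := ov_spec hw
  obtain ⟨m, hm⟩ := hev v
  have hN0 : (N : ℤ) ≠ 0 := by exact_mod_cast hN.ne_zero
  have ht0 : t ≠ 0 := by
    rintro rfl
    rw [zero_pow hN.ne_zero] at ht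
    exact hx ((map_eq_zero _).1 ht.symm)
  have hσc : ∀ (i : ℕ) (a : k), (σ ^ i) (algebraMap k W a) = algebraMap k W a := fun i a => by
    rw [IsScalarTower.algebraMap_apply k K W, (σ ^ i).commutes]
  have hσφ : ∀ (i : ℕ) (y : K), (σ ^ i) (φ y) = φ y := fun i y => by
    rw [← hφ, (σ ^ i).commutes]
  have hσt : ∀ i : ℕ, (σ ^ i) t = algebraMap k W (ζ ^ i) * t := by
    intro i
    induction i with
    | zero => simp
    | succ i ih =>
      rw [pow_succ, AlgEquiv.mul_apply, hσ, map_mul, hσc, ih, pow_succ, map_mul]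
      ring
  -- the conjugate places
  have hw' : ∀ i : ℕ, Ov φ (conjPl (k := k) (σ ^ i) w) v := fun i =>
    ⟨ram φ w v, hr0, fun g => by
      show w.ord ((σ ^ i) (φ g)) = _
      rw [hσφ, hr]⟩
  have hpi : φ v.unif ≠ 0 := by
    rw [Ne, map_eq_zero]
    exact v.unif_ne_zero
  set u : W := t * (φ v.unif) ^ (-m) with hu
  have hu0 : u ≠ 0 := mul_ne_zero ht0 (zpow_ne_zero _ hpi)
  have huord : w.ord u = 0 := by
    have h3 : w.ord (t ^ N) = N * w.ord t := by
      rw [w.ord_pow]
    rw [ht, hφ, hr, hm] at h3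
    have h4 : w.ord t = ram φ w v * m := by
      apply mul_left_cancel₀ hN0
      rw [← h3]
      ring
    rw [hu, w.ord_mul _ _ ht0 (zpow_ne_zero _ hpi), w.ord_zpow, hr, v.ord_unif, h4]
    ring
  have huO : u ∈ w.O := by
    rw [Place.mem_O, huord]
  have hsu : ∀ i : ℕ, (σ ^ i) u = algebraMap k W (ζ ^ i) * u := by
    intro i
    rw [hu, map_mul, map_zpow₀, hσφ, hσt]
    ring
  have hne : ∀ l : ℕ, 0 < l → l < N → ¬ (∀ g, w.ord g = w.ord ((σ ^ l) g)) := by
    intro l hl0 hl hconj
    have hres := w.ge_res hrat huO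
    have h4 : w.Ge 1 (algebraMap k W (ζ ^ l) * u - algebraMap k W (w.res u)) := by
      have h6 : (σ ^ l) (u - algebraMap k W (w.res u)) =
          algebraMap k W (ζ ^ l) * u - algebraMap k W (w.res u) := by
        rw [map_sub, hsu, hσc]
      rw [← h6]
      rcases hres with h5 | h5
      · left
        rw [h5, map_zero]
      · right
        rwa [← hconj]
    have h5 : w.Ge (0 + 1) (algebraMap k W (ζ ^ l) * (u - algebraMap k W (w.res u))) :=
      (Place.Ge.of_le (by rw [w.ord_const])).mul hres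
    rw [zero_add] at h5
    have h6 := h4.sub h5
    have h7 : algebraMap k W (ζ ^ l) * u - algebraMap k W (w.res u) -
        algebraMap k W (ζ ^ l) * (u - algebraMap k W (w.res u)) =
        algebraMap k W ((ζ ^ l - 1) * w.res u) := by
      rw [map_mul, map_sub, map_one]
      ring
    rw [h7] at h6
    have h8 := Place.eq_zero_of_ge_one h6
    have h9 : ζ ^ l - 1 ≠ 0 := by
      intro h
      exact hζ.pow_ne_one_of_pos_of_lt hl0.ne' hl (sub_eq_zero.1 h)
    have h10 : w.res u = 0 := (mul_eq_zero.1 h8).resolve_left h9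
    rw [h10, map_zero, sub_zero] at hres
    have h11 := hres.le_ord hu0
    omega
  have hinj : ∀ i j : ℕ, i < j → j < N →
      conjPl (k := k) (σ ^ i) w ≠ conjPl (k := k) (σ ^ j) w := by
    intro i j hij hj heq
    refine hne (j - i) (by omega) (by omega) fun g => ?_
    have h3 : ∀ g, w.ord ((σ ^ i) g) = w.ord ((σ ^ j) g) :=
      fun g => congrArg (fun u : Place k W => u.ord g) heq
    have h4 := h3 ((σ ^ i).symm g)
    rw [AlgEquiv.apply_symm_apply] at h4
    rw [h4]
    have h5 : σ ^ j = σ ^ (j - i) * σ ^ i := by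
      rw [← pow_add, Nat.sub_add_cancel hij.le]
    rw [h5, AlgEquiv.mul_apply, AlgEquiv.apply_symm_apply]
  obtain ⟨hfin, hsum⟩ := deg_fib hK φ v
  have hrk : finrank φ.fieldRange W = N := by
    rw [← h2]
    exact ((rng φ hφ).2.1).symm
  rw [hrk] at hsum
  have hsupp : (Function.support fun w : Place k W => if Ov φ w v then ram φ w v else 0) ⊆
      hfin.toFinset := by
    intro z hz
    rw [Set.Finite.coe_toFinset]
    by_contra hc
    apply hz
    exact if_neg hc
  rw [finsum_eq_sum_of_support_subset _ hsupp] at hsum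
  have hinj' : Set.InjOn (fun i : ℕ => conjPl (k := k) (σ ^ i) w) (Finset.range N : Set ℕ) := by
    intro i hi j hj hij
    rw [Finset.coe_range, Set.mem_Iio] at hi hj
    rcases lt_trichotomy i j with h | h | h
    · exact absurd hij (hinj i j h hj)
    · exact h
    · exact absurd hij.symm (hinj j i h hi)
  have hle : ∑ i ∈ Finset.range N, ram φ (conjPl (k := k) (σ ^ i) w) v ≤
      ∑ z ∈ hfin.toFinset, if Ov φ z v then ram φ z v else 0 := by
    have h3 : (Finset.range N).image (fun i : ℕ => conjPl (k := k) (σ ^ i) w) ⊆ hfin.toFinset := by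
      intro z hz
      rw [Finset.mem_image] at hz
      obtain ⟨i, -, rfl⟩ := hz
      rw [Set.Finite.mem_toFinset]
      exact hw' i
    have h4 := Finset.sum_le_sum_of_subset_of_nonneg
      (f := fun z => if Ov φ z v then ram φ z v else 0) h3 (fun z _ _ => by
        show 0 ≤ (if Ov φ z v then ram φ z v else 0)
        split_ifs with h5
        · exact (ov_spec h5).1.le
        · exact le_rfl)
    rw [Finset.sum_image hinj'] at h4
    refine le_trans (le_of_eq ?_) h4
    refine Finset.sum_congr rfl fun i _ => ?_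
    rw [if_pos (hw' i)]
  rw [hsum] at hle
  obtain ⟨N', rfl⟩ : ∃ N', N = N' + 1 := ⟨N - 1, by have := hN.pos; omega⟩
  rw [Finset.sum_range_succ'] at hle
  have h10 : (N' : ℤ) ≤ ∑ i ∈ Finset.range N', ram φ (conjPl (k := k) (σ ^ (i + 1)) w) v := by
    have h11 := Finset.card_nsmul_le_sum (Finset.range N')
      (fun i => ram φ (conjPl (k := k) (σ ^ (i + 1)) w) v) 1 (fun i _ => (ov_spec (hw' (i + 1))).1)
    rw [Finset.card_range, nsmul_eq_mul, mul_one] at h11
    exact h11
  have h12 : conjPl (k := k) (σ ^ 0) w = w := by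
    rw [pow_zero]
    rfl
  rw [h12] at hle
  push_cast at hle
  omega

end

section val

variable {k K : Type} [Field k] [Field K] [Algebra k K]

theorem div_div {N : ℕ} {u : K} (hu : Transcendental k u) {a b : k} (hab : a ≠ b)
    (ha : DivVal N u a) (hb : DivVal N u b) (v : Place k K) :
    ∃ m : ℤ, v.ord ((u - algebraMap k K a) / (u - algebraMap k K b)) = N * m := by
  rw [v.ord_div _ _ (tr_shift hu a) (tr_shift hu b)]
  rcases mob_cases v u hab with ⟨h6, h7⟩ | ⟨h6, h7⟩ | ⟨h6, h7⟩
  · obtain ⟨m, hm⟩ := ha v h6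
    exact ⟨m, by rw [h7, hm]; ring⟩
  · obtain ⟨m, hm⟩ := hb v h6
    exact ⟨-m, by rw [h7, hm]; ring⟩
  · exact ⟨0, by rw [h7]; ring⟩

variable {W : Type} [Field W] [Algebra k W] [CharZero k]

/-- The fibres of the `N`-th root. -/
theorem div_root {N : ℕ} (hN : 0 < N) {u : K} (hu : Transcendental k u) {a b c r : k} (hab : a ≠ b)
    (hca : c ≠ a) (hcb : c ≠ b) (hr : r ^ N * (c - b) = c - a) (hc : DivVal N u c) (φ : K →ₐ[k] W)
    (hφ : ∀ w : Place k W, ∃ (e : ℤ) (P : Place k K), 0 < e ∧ ∀ g, w.ord (φ g) = e * P.ord g)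
    {t : W} (ht : t ^ N = φ ((u - algebraMap k K a) / (u - algebraMap k K b))) :
    DivVal N t r := by
  intro w hw
  obtain ⟨e, P, he, hP⟩ := hφ w
  have hub : φ (u - algebraMap k K b) ≠ 0 := (map_ne_zero φ).2 (tr_shift hu b)
  have huc : φ (u - algebraMap k K c) ≠ 0 := (map_ne_zero φ).2 (tr_shift hu c)
  have h1 : t ^ N * φ (u - algebraMap k K b) = φ (u - algebraMap k K a) := by
    rw [ht, ← map_mul, div_mul_cancel₀ _ (tr_shift hu b)]
  have e1 : φ (u - algebraMap k K b) = φ u - algebraMap k W b := by rw [map_sub, φ.commutes]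
  have e2 : φ (u - algebraMap k K a) = φ u - algebraMap k W a := by rw [map_sub, φ.commutes]
  have e3 : φ (u - algebraMap k K c) = φ u - algebraMap k W c := by rw [map_sub, φ.commutes]
  have hcb' : algebraMap k W (c - b) ≠ 0 := by
    rw [Ne, FaithfulSMul.algebraMap_eq_zero_iff]
    exact sub_ne_zero.2 hcb
  have hab' : algebraMap k W (a - b) ≠ 0 := by
    rw [Ne, FaithfulSMul.algebraMap_eq_zero_iff]
    exact sub_ne_zero.2 hab
  have hba' : algebraMap k W (b - a) ≠ 0 := by
    rw [Ne, FaithfulSMul.algebraMap_eq_zero_iff]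
    exact sub_ne_zero.2 hab.symm
  have hr' : (algebraMap k W r) ^ N * algebraMap k W (c - b) = algebraMap k W (c - a) := by
    rw [← map_pow, ← map_mul, hr]
  have hr0 : r ≠ 0 := by
    rintro rfl
    rw [zero_pow hN.ne', zero_mul] at hr
    exact hca (sub_eq_zero.1 hr.symm)
  have hr1 : r ^ N ≠ 1 := by
    intro h
    rw [h] at hr
    apply hab
    linear_combination hr
  -- `(t ^ N - 1) (u - b) = b - a`
  have h2 : (t ^ N - 1) * φ (u - algebraMap k K b) = algebraMap k W (b - a) := by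
    rw [e1, e2] at h1
    rw [e1, map_sub]
    linear_combination h1
  obtain ⟨q, hq⟩ : ∃ q : k[X], X ^ N - C (r ^ N) = (X - C r) * q :=
    dvd_iff_isRoot.2 (by rw [IsRoot, eval_sub, eval_C, eval_pow, eval_X, sub_self])
  have hqr : q.eval r ≠ 0 := by
    have h3 := congrArg (fun f => (derivative f).eval r) hq
    simp only [derivative_sub, derivative_X_pow, derivative_C, derivative_mul, derivative_X,
      sub_zero, one_mul, eval_add, eval_mul, eval_sub, eval_X, eval_C, eval_pow, sub_self, zero_mul,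
      add_zero] at h3
    rw [← h3]
    refine mul_ne_zero ?_ (pow_ne_zero _ hr0)
    exact_mod_cast hN.ne'
  have h3 : (t - algebraMap k W r) * aeval t q *
      (algebraMap k W (c - b) * φ (u - algebraMap k K b)) =
      algebraMap k W (a - b) * φ (u - algebraMap k K c) := by
    have h4 := congrArg (aeval t) hq
    simp only [map_sub, map_mul, map_pow, aeval_X, aeval_C] at h4
    rw [← h4]
    rw [e1, e2] at h1
    rw [e1, e3]
    simp only [map_sub] at hr' ⊢
    linear_combination (algebraMap k W c - algebraMap k W b) * h1 -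
      (φ u - algebraMap k W b) * hr'
  obtain ⟨o1, n1⟩ := ord_poly_unit w hw q hqr
  obtain ⟨o2, n2⟩ := ord_poly_unit w hw (X ^ N - 1) (by
    rw [eval_sub, eval_pow, eval_X, eval_one]
    exact sub_ne_zero.2 hr1)
  simp only [map_sub, map_pow, aeval_X, map_one] at o2 n2
  have n3 : t - algebraMap k W r ≠ 0 := by
    intro h
    rw [h, zero_mul, zero_mul] at h3
    exact mul_ne_zero hab' huc h3.symm
  have q1 := congrArg w.ord h2
  rw [w.ord_mul _ _ n2 hub, o2, w.ord_const] at q1
  have q2 := congrArg w.ord h3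
  rw [w.ord_mul _ _ (mul_ne_zero n3 n1) (mul_ne_zero hcb' hub), w.ord_mul _ _ n3 n1,
    w.ord_mul _ _ hcb' hub, w.ord_mul _ _ hab' huc, w.ord_const, w.ord_const, o1, hP, hP] at q2
  have q3 : w.ord (t - algebraMap k W r) = e * P.ord (u - algebraMap k K c) := by
    rw [hP] at q1
    linarith
  have q4 : 0 < P.ord (u - algebraMap k K c) := by
    rw [q3] at hw
    exact (mul_pos_iff_of_pos_left he).1 hw
  obtain ⟨m, hm⟩ := hc P q4
  exact ⟨e * m, by rw [q3, hm]; ring⟩

variable [IsAlgClosed k]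

theorem prim_root {N : ℕ} (hN : 0 < N) : ∃ ζ : k, IsPrimitiveRoot ζ N := by
  have : NeZero (N : k) := ⟨by exact_mod_cast hN.ne'⟩
  exact HasEnoughRootsOfUnity.exists_primitiveRoot k N

/-- The set of the new values. -/
theorem div_vals {N : ℕ} (hN : 0 < N) {u : K} (hu : Transcendental k u) {s : Finset k} {a b : k}
    (hab : a ≠ b) (ha : a ∈ s) (hb : b ∈ s) (hs : ∀ c ∈ s, DivVal N u c) (φ : K →ₐ[k] W)
    (hφ : ∀ w : Place k W, ∃ (e : ℤ) (P : Place k K), 0 < e ∧ ∀ g, w.ord (φ g) = e * P.ord g)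
    {t : W} (ht : t ^ N = φ ((u - algebraMap k K a) / (u - algebraMap k K b))) :
    ∃ s' : Finset k, (s.card - 2) * N ≤ s'.card ∧ ∀ c ∈ s', DivVal N t c := by
  obtain ⟨ζ, hζ⟩ := prim_root (k := k) hN
  have hρ : ∀ c : k, ∃ r : k, r ^ N = (c - a) / (c - b) := fun c =>
    IsAlgClosed.exists_pow_nat_eq _ hN
  choose ρ hρ using hρ
  set T : Finset k := (s.erase a).erase b with hT
  have hTmem : ∀ c ∈ T, c ≠ a ∧ c ≠ b ∧ c ∈ s := by
    intro c hc
    rw [hT, Finset.mem_erase, Finset.mem_erase] at hc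
    exact ⟨hc.2.1, hc.1, hc.2.2⟩
  have hTcard : T.card = s.card - 2 := by
    rw [hT, Finset.card_erase_of_mem (Finset.mem_erase.2 ⟨hab.symm, hb⟩),
      Finset.card_erase_of_mem ha]
    omega
  have hpow : ∀ (i : ℕ) (c : k), (ζ ^ i * ρ c) ^ N = (c - a) / (c - b) := by
    intro i c
    rw [mul_pow, ← pow_mul, mul_comm i N, pow_mul, hζ.pow_eq_one, one_pow, one_mul, hρ]
  have hinj : Set.InjOn (fun p : k × ℕ => ζ ^ p.2 * ρ p.1) ((T ×ˢ Finset.range N : Finset (k × ℕ)) : Set (k × ℕ)) := by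
    rintro ⟨c, i⟩ hp ⟨d, j⟩ hq hpq
    simp only [Finset.coe_product, Set.mem_prod, Finset.mem_coe, Finset.mem_range] at hp hq hpq
    obtain ⟨hca, hcb, -⟩ := hTmem c hp.1
    obtain ⟨hda, hdb, -⟩ := hTmem d hq.1
    have h1 := hpow i c
    rw [hpq, hpow j d, div_eq_div_iff (sub_ne_zero.2 hdb) (sub_ne_zero.2 hcb)] at h1
    have h2 : (d - c) * (a - b) = 0 := by linear_combination h1
    have h3 : c = d := by
      rcases mul_eq_zero.1 h2 with h | h
      · exact (sub_eq_zero.1 h).symm
      · exact absurd (sub_eq_zero.1 h) hab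
    subst h3
    have h4 : ρ c ≠ 0 := by
      intro h
      have h5 := hρ c
      rw [h, zero_pow hN.ne'] at h5
      exact div_ne_zero (sub_ne_zero.2 hca) (sub_ne_zero.2 hcb) h5.symm
    have h6 := mul_right_cancel₀ h4 hpq
    rw [hζ.pow_inj hp.2 hq.2 h6]
  refine ⟨(T ×ˢ Finset.range N).image (fun p : k × ℕ => ζ ^ p.2 * ρ p.1), ?_, ?_⟩
  · rw [Finset.card_image_of_injOn hinj, Finset.card_product, Finset.card_range, hTcard]
  · intro r hr
    rw [Finset.mem_image] at hr
    obtain ⟨⟨c, i⟩, hp, rfl⟩ := hr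
    rw [Finset.mem_product] at hp
    obtain ⟨hca, hcb, hcs⟩ := hTmem c hp.1
    refine div_root hN hu hab hca hcb ?_ (hs c hcs) φ hφ ht
    rw [hpow, div_mul_cancel₀ _ (sub_ne_zero.2 hcb)]

end val

section step

variable {k K : Type} [Field k] [Field K] [Algebra k K] [IsAlgClosed k] [CharZero k]

/-- the degree of a power -/
theorem fdeg_npow (hK : IsFunField k K) (y : K) (N : ℕ) : fdeg k (y ^ N) = N * fdeg k y := by
  have h1 := pol_form hK (y ^ N)
  have h2 := pol_form hK y
  have h3 : ∀ v : Place k K, max 0 (-(v.ord (y ^ N))) = N * max 0 (-(v.ord y)) := by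
    intro v
    rw [v.ord_pow]
    rcases le_total 0 (-(v.ord y)) with h | h
    · rw [max_eq_right h, max_eq_right (by nlinarith [Int.natCast_nonneg N])]; ring
    · rw [max_eq_left h, max_eq_left (by nlinarith [Int.natCast_nonneg N])]; ring
  rw [finsum_congr h3] at h1
  have h4 : (∑ᶠ v : Place k K, (N : ℤ) * max 0 (-(v.ord y))) =
      N * ∑ᶠ v : Place k K, max 0 (-(v.ord y)) := by
    rw [mul_finsum]
  rw [h4, h2] at h1
  exact_mod_cast h1.symm

/-- The extension by the `N`-th root of a function with divisor divisible by `N`. -/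
theorem root_ext (hK : IsFunField k K) {N : ℕ} (hN : N.Prime) {x : K} (hns : ∀ b : K, b ^ N ≠ x)
    (hev : ∀ v : Place k K, ∃ m : ℤ, v.ord x = N * m) :
    ∃ (W : Type) (_ : Field W) (_ : Algebra k W) (φ : K →ₐ[k] W) (t : W), IsFunField k W ∧
      t ^ N = φ x ∧ fdeg k t = fdeg k x ∧ gon k K ≤ gon k W ∧ FiniteDimensional φ.fieldRange W ∧
        finrank φ.fieldRange W = N ∧
          ∀ (w : Place k W) (v : Place k K), Ov φ w v → ram φ w v = 1 := by
  obtain ⟨ζ, hζ⟩ := prim_root (k := k) hN.pos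
  have hirr : Irreducible (X ^ N - C x : K[X]) :=
    (X_pow_sub_C_irreducible_iff_of_prime hN).2 hns
  have : Fact (Irreducible (X ^ N - C x : K[X])) := ⟨hirr⟩
  have hne : (X ^ N - C x : K[X]) ≠ 0 := hirr.ne_zero
  let W := AdjoinRoot (X ^ N - C x : K[X])
  let pb := AdjoinRoot.powerBasis hne
  have hfd : FiniteDimensional K W := pb.finite
  have hfr : finrank K W = N := by
    rw [pb.finrank, AdjoinRoot.powerBasis_dim, natDegree_X_pow_sub_C]
  let t : W := AdjoinRoot.root (X ^ N - C x : K[X])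
  have ht : t ^ N = algebraMap K W x := by
    have h3 := AdjoinRoot.eval₂_root (X ^ N - C x : K[X])
    rw [eval₂_sub, eval₂_X_pow, eval₂_C, sub_eq_zero] at h3
    exact h3
  let φ : K →ₐ[k] W := IsScalarTower.toAlgHom k K W
  have hφ : ∀ y, algebraMap K W y = φ y := fun _ => rfl
  have hW : IsFunField k W := hK.of_finite (M := W)
  have hfφ : FiniteDimensional φ.fieldRange W := by
    let e : K ≃+* φ.fieldRange := (AlgEquiv.ofInjectiveField φ).toRingEquiv
    exact Module.Finite.of_equiv_equiv e (RingEquiv.refl W) (RingHom.ext fun y => rfl)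
  have hx0 : x ≠ 0 := by
    rintro rfl
    exact hns 0 (zero_pow hN.ne_zero)
  let σ0 : W →ₐ[K] W := AdjoinRoot.liftAlgHom (X ^ N - C x : K[X]) (Algebra.ofId K W)
    (algebraMap k W ζ * t) (by
      rw [eval₂_sub, eval₂_X_pow, eval₂_C, mul_pow, ← map_pow, hζ.pow_eq_one, map_one, one_mul, ht,
        sub_eq_zero]
      rfl)
  have hσ0 : σ0 t = algebraMap k W ζ * t := AdjoinRoot.liftAlgHom_root _ _ _ _
  let σ : W ≃ₐ[K] W := AlgEquiv.ofBijective σ0 (Algebra.IsAlgebraic.algHom_bijective σ0)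
  have hσ : σ t = algebraMap k W ζ * t := hσ0
  refine ⟨W, inferInstance, inferInstance, φ, t, hW, ht, ?_, ?_, hfφ, ?_, ?_⟩
  · have h4 := fdeg_npow hW t N
    rw [ht, fd_tower, hfr, mul_comm] at h4
    exact (Nat.eq_of_mul_eq_mul_left hN.pos h4).symm
  · obtain ⟨⟨z, hz, hzg⟩, -, -⟩ := gonx hW
    rw [← hzg]
    obtain ⟨i, hi⟩ := push_ex (L := K) hz
    exact ((gonx hK).2.1 _ hi).trans (push hK z i hi)
  · exact ((rng φ hφ).2.1).symm.trans hfr
  · intro w v hw
    exact unram_root hK N hN hfr σ hζ ht hσ hx0 hev φ hφ w v hw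

/-- One unramified covering of degree `N`. -/
theorem div_step (hK : IsFunField k K) {N F : ℕ} (hN : N.Prime) (h : DivFib k K N F) :
    ∃ (W : Type) (_ : Field W) (_ : Algebra k W) (φ : K →ₐ[k] W), IsFunField k W ∧
      DivFib k W N F ∧ gon k K ≤ gon k W ∧ FiniteDimensional φ.fieldRange W ∧
        finrank φ.fieldRange W = N ∧
          ∀ (w : Place k W) (v : Place k K), Ov φ w v → ram φ w v = 1 := by
  have key : ∀ n : ℕ, ∀ (u : K) (s : Finset k), fdeg k u = n → 0 < n → n ≤ F →
      (4 ≤ s.card ∨ 3 ≤ s.card ∧ 3 ≤ N) → (∀ c ∈ s, DivVal N u c) →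
      ∃ (W : Type) (_ : Field W) (_ : Algebra k W) (φ : K →ₐ[k] W), IsFunField k W ∧
        DivFib k W N F ∧ gon k K ≤ gon k W ∧ FiniteDimensional φ.fieldRange W ∧
          finrank φ.fieldRange W = N ∧
            ∀ (w : Place k W) (v : Place k K), Ov φ w v → ram φ w v = 1 := by
    intro n
    induction n using Nat.strong_induction_on with
    | _ n ih =>
      intro u s hn h0 hF hc hev
      have hu : Transcendental k u := (fd_pos hK u).1 (by omega)
      obtain ⟨a, ha, b, hb, hab⟩ := Finset.one_lt_card.1 (show 1 < s.card by omega)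
      have hdeg := fdeg_mob hK hu hab
      have hcard : ∀ s' : Finset k, (s.card - 2) * N ≤ s'.card →
          (4 ≤ s'.card ∨ 3 ≤ s'.card ∧ 3 ≤ N) := by
        intro s' hs'
        have hN2 := hN.two_le
        rcases hc with h1 | ⟨h1, h2⟩
        · left
          have h3 : 2 * 2 ≤ (s.card - 2) * N := Nat.mul_le_mul (by omega) hN2
          omega
        · right
          have h3 : 1 * 3 ≤ (s.card - 2) * N := Nat.mul_le_mul (by omega) h2
          exact ⟨by omega, h2⟩
      by_cases hsq : ∃ b' : K, b' ^ N = (u - algebraMap k K a) / (u - algebraMap k K b)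
      · obtain ⟨b', hb'⟩ := hsq
        have h3 := fdeg_npow hK b' N
        rw [hb', hdeg] at h3
        obtain ⟨s', hs', hev'⟩ := div_vals hN.pos hu hab ha hb hev (AlgHom.id k K)
          (fun w => ⟨1, w, one_pos, fun g => by rw [AlgHom.id_apply, one_mul]⟩) hb'
        have hN2 := hN.two_le
        have h4 : 0 < fdeg k b' := by
          rcases Nat.eq_zero_or_pos (fdeg k b') with h | h
          · rw [h, mul_zero] at h3
            omega
          · exact h
        have h5 : fdeg k b' < n := by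
          rw [← hn, h3]
          nlinarith
        exact ih (fdeg k b') h5 b' s' rfl h4 (by omega) (hcard s' hs') hev'
      · obtain ⟨W, iW, aW, φ, t, hW, ht, htd, hg, hfd, hfr, hur⟩ := root_ext hK hN
          (x := (u - algebraMap k K a) / (u - algebraMap k K b))
          (fun b' hb' => hsq ⟨b', hb'⟩) (div_div hu hab (hev a ha) (hev b hb))
        obtain ⟨s', hs', hev'⟩ := div_vals hN.pos hu hab ha hb hev φ (fun w => by
          obtain ⟨P, hP⟩ := ov_down φ w
          exact ⟨ram φ w P, P, (ov_spec hP).1, (ov_spec hP).2⟩) ht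
        exact ⟨W, iW, aW, φ, hW, ⟨t, s', by omega, by omega, hcard s' hs', hev'⟩, hg, hfd, hfr, hur⟩
  obtain ⟨u, s, h1, h2, h3, h4⟩ := h
  exact key _ u s rfl h1 h2 h3 h4

/-- Towers over an unramified covering `θ`. -/
theorem div_tower {K₁ : Type} [Field K₁] [Algebra k K₁] (hK₁ : IsFunField k K₁)
    (θ : K →ₐ[k] K₁) [FiniteDimensional θ.fieldRange K₁] (hg₁ : gon k K ≤ gon k K₁)
    (hθ : ∀ (w : Place k K₁) (v : Place k K), Ov θ w v → ram θ w v = 1)
    {N F : ℕ} (hN : N.Prime) (h : DivFib k K₁ N F) (n : ℕ) :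
    ∃ (W : Type) (_ : Field W) (_ : Algebra k W) (φ : K →ₐ[k] W), IsFunField k W ∧
      DivFib k W N F ∧ gon k K ≤ gon k W ∧ FiniteDimensional φ.fieldRange W ∧
        finrank φ.fieldRange W = finrank θ.fieldRange K₁ * N ^ n ∧
          ∀ (w : Place k W) (v : Place k K), Ov φ w v → ram φ w v = 1 := by
  induction n with
  | zero =>
    exact ⟨K₁, inferInstance, inferInstance, θ, hK₁, h, hg₁, inferInstance, by rw [pow_zero, mul_one],
      hθ⟩
  | succ n ih =>
    obtain ⟨W, iW, aW, φ, hW, hgW, hg, hf, hd, hu⟩ := ih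
    obtain ⟨V, iV, aV, ψ, hV, hgV, hg', hf', hd', hu'⟩ := div_step hW hN hgW
    obtain ⟨h3, h4⟩ := fr_comp φ ψ
    refine ⟨V, iV, aV, ψ.comp φ, hV, hgV, hg.trans hg', h3, ?_, ?_⟩
    · rw [h4, hd, hd', pow_succ, mul_assoc]
    · intro w v hw
      obtain ⟨u, hu1⟩ := ov_down ψ w
      obtain ⟨v', hv'⟩ := ov_down φ u
      obtain ⟨h5, h6⟩ := ov_comp hv' hu1
      have h7 := ov_uniq h5 hw
      rw [← h7, h6, hu' w u hu1, hu u v' hv', mul_one]

omit [IsAlgClosed k] [CharZero k] in
theorem div_gon (hK : IsFunField k K) {N F : ℕ} (h : DivFib k K N F) : gon k K ≤ F := by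
  obtain ⟨u, c, h1, h2, h3, h4⟩ := h
  exact ((gonx hK).2.1 u ((fd_pos hK u).1 h1)).trans h2

/-- The gonality of a covering is at least the gonality of its base. -/
theorem gon_up (hK : IsFunField k K) {K₁ : Type} [Field K₁] [Algebra k K₁] (hK₁ : IsFunField k K₁)
    (θ : K →ₐ[k] K₁) [FiniteDimensional θ.fieldRange K₁] : gon k K ≤ gon k K₁ := by
  let _ : Algebra K K₁ := θ.toRingHom.toAlgebra
  obtain ⟨f1, f2, f3⟩ := rng θ (fun _ => rfl)
  have : IsScalarTower k K K₁ := IsScalarTower.of_algebraMap_eq fun a => (θ.commutes a).symm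
  obtain ⟨⟨z, hz, hzg⟩, -, -⟩ := gonx hK₁
  rw [← hzg]
  obtain ⟨i, hi⟩ := push_ex (L := K) hz
  exact ((gonx hK).2.1 _ hi).trans (push hK z i hi)

/-- The main statement. -/
theorem div_towers (hK : IsFunField k K) {K₁ : Type} [Field K₁] [Algebra k K₁]
    (hK₁ : IsFunField k K₁) (θ : K →ₐ[k] K₁) (hfθ : FiniteDimensional θ.fieldRange K₁)
    (hθ : ∀ (w : Place k K₁) (v : Place k K), Ov θ w v → ram θ w v = 1)
    {N F : ℕ} (hN : N.Prime) (h : DivFib k K₁ N F) (n : ℕ) :
    ∃ (W : Type) (_ : Field W) (_ : Algebra k W) (φ : K →ₐ[k] W), IsFunField k W ∧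
      gon k K ≤ gon k W ∧ gon k W ≤ F ∧ FiniteDimensional φ.fieldRange W ∧
        finrank φ.fieldRange W = finrank θ.fieldRange K₁ * N ^ n ∧
        (∀ (w : Place k W) (v : Place k K), Ov φ w v → ram φ w v = 1) ∧
          ∀ (L : Type) [Field L] [Algebra k L] (ψ : W →ₐ[k] L),
            FiniteDimensional ψ.fieldRange L →
              finrank (ψ.comp φ).fieldRange L =
                  finrank θ.fieldRange K₁ * N ^ n * finrank ψ.fieldRange L ∧
                corrDeg k L K ≤ F * gon k K * finrank ψ.fieldRange L ∧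
                  (F * gon k K < finrank θ.fieldRange K₁ * N ^ n →
                    corrDeg k L K < finrank (ψ.comp φ).fieldRange L) := by
  obtain ⟨W, iW, aW, φ, hW, h4, hg, hf, hd, hu⟩ := div_tower hK₁ θ (gon_up hK hK₁ θ) hθ hN h n
  have hgW := div_gon hW h4
  refine ⟨W, iW, aW, φ, hW, hg, hgW, hf, hd, hu, fun L _ _ ψ hψ => ?_⟩
  obtain ⟨h3, h4⟩ := fr_comp φ ψ
  rw [hd] at h4
  have h5 := corr_factor2 hK hW φ ψ
  have h6 : 0 < finrank ψ.fieldRange L := finrank_pos
  have h7 : corrDeg k L K ≤ F * gon k K * finrank ψ.fieldRange L := by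
    refine h5.trans ?_
    rw [mul_comm]
    exact Nat.mul_le_mul_right _ (Nat.mul_le_mul_right _ hgW)
  refine ⟨h4, h7, fun hn => ?_⟩
  rw [h4]
  exact lt_of_le_of_lt h7 (Nat.mul_lt_mul_of_pos_right hn h6)

/-- Curves of gonality two. -/
theorem div_of_gon (hK : IsFunField k K) (h2 : gon k K = 2) : DivFib k K 2 2 := by
  obtain ⟨u, c, h1, h3, h4, h5⟩ := four_of_gon hK h2
  refine ⟨u, Finset.univ.image c, h1, h3, Or.inl ?_, ?_⟩
  · rw [Finset.card_image_of_injective _ h4, Finset.card_univ, Fintype.card_fin]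
  · intro d hd
    rw [Finset.mem_image] at hd
    obtain ⟨i, -, rfl⟩ := hd
    exact h5 i

omit [IsAlgClosed k] [CharZero k] in
/-- Divisible fibres go up. -/
theorem div_up {K' : Type} [Field K'] [Algebra k K'] {N F : ℕ} (h : DivFib k K' N F)
    (φ : K' →ₐ[k] K) [FiniteDimensional φ.fieldRange K] :
    DivFib k K N (finrank φ.fieldRange K * F) := by
  obtain ⟨u, s, h1, h2, h3, h4⟩ := h
  let _ : Algebra K' K := φ.toRingHom.toAlgebra
  obtain ⟨f1, f2, f3⟩ := rng φ (fun _ => rfl)
  have : IsScalarTower k K' K := IsScalarTower.of_algebraMap_eq fun a => (φ.commutes a).symm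
  have h5 : fdeg k (φ u) = finrank φ.fieldRange K * fdeg k u := by
    rw [← f2, mul_comm]
    exact fd_tower u
  have h6 : 0 < finrank φ.fieldRange K := finrank_pos
  refine ⟨φ u, s, by rw [h5]; exact Nat.mul_pos h6 h1, by rw [h5]; exact Nat.mul_le_mul_left _ h2,
    h3, fun c hc w hw => ?_⟩
  obtain ⟨P, hP⟩ := ov_down φ w
  obtain ⟨h7, h8⟩ := ov_spec hP
  have h9 : φ u - algebraMap k K c = φ (u - algebraMap k K' c) := by
    rw [map_sub, φ.commutes]
  rw [h9, h8] at hw ⊢
  obtain ⟨m, hm⟩ := h4 c hc P ((mul_pos_iff_of_pos_left h7).1 hw)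
  exact ⟨ram φ w P * m, by rw [hm]; ring⟩

omit [IsAlgClosed k] [CharZero k] in
/-- Superelliptic curves. -/
theorem div_super (hK : IsFunField k K) {N : ℕ} {x y : K} (hx : Transcendental k x) {p : k[X]}
    (hy : y ^ N = aeval x p) {s : Finset k}
    (hs : ∀ c ∈ s, p.IsRoot c ∧ ¬ (derivative p).IsRoot c)
    (hc : 4 ≤ s.card ∨ 3 ≤ s.card ∧ 3 ≤ N) : DivFib k K N (fdeg k x) := by
  refine ⟨x, s, (fd_pos hK x).2 hx, le_rfl, hc, ?_⟩
  intro c hcs v hv
  obtain ⟨h1, h2⟩ := hs c hcs
  obtain ⟨r, hr⟩ := dvd_iff_isRoot.2 h1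
  have h3 : r.eval c ≠ 0 := by
    intro h
    apply h2
    rw [hr, IsRoot, derivative_mul, eval_add, eval_mul, eval_mul, eval_sub, eval_X, eval_C, sub_self,
      zero_mul, add_zero, h, mul_zero]
  obtain ⟨h4, h5⟩ := ord_poly_unit v hv r h3
  have h6 : v.ord (y ^ N) = v.ord (x - algebraMap k K c) := by
    rw [hy, hr, map_mul, v.ord_mul _ _ (by simpa using tr_shift hx c) h5, h4, add_zero]
    simp
  rw [v.ord_pow] at h6
  exact ⟨v.ord y, h6.symm⟩

/-- The main statement. -/
theorem div_main (hK : IsFunField k K) {K₁ Z : Type} [Field K₁] [Algebra k K₁] [Field Z] [Algebra k Z]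
    (hK₁ : IsFunField k K₁) (hZ : IsFunField k Z) (θ : K →ₐ[k] K₁)
    (hfθ : FiniteDimensional θ.fieldRange K₁)
    (hθ : ∀ (w : Place k K₁) (v : Place k K), Ov θ w v → ram θ w v = 1)
    (η : Z →ₐ[k] K₁) (hfη : FiniteDimensional η.fieldRange K₁)
    {N F : ℕ} (hN : N.Prime) (h : TowerBase k Z N F) (n : ℕ) :
    ∃ (W : Type) (_ : Field W) (_ : Algebra k W) (φ : K →ₐ[k] W), IsFunField k W ∧
      gon k K ≤ gon k W ∧ gon k W ≤ finrank η.fieldRange K₁ * F ∧
        FiniteDimensional φ.fieldRange W ∧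
        finrank φ.fieldRange W = finrank θ.fieldRange K₁ * N ^ n ∧
        (∀ (w : Place k W) (v : Place k K), Ov φ w v → ram φ w v = 1) ∧
          ∀ (L : Type) [Field L] [Algebra k L] (ψ : W →ₐ[k] L),
            FiniteDimensional ψ.fieldRange L →
              finrank (ψ.comp φ).fieldRange L =
                  finrank θ.fieldRange K₁ * N ^ n * finrank ψ.fieldRange L ∧
                corrDeg k L K ≤ finrank η.fieldRange K₁ * F * gon k K * finrank ψ.fieldRange L ∧
                  (finrank η.fieldRange K₁ * F * gon k K < finrank θ.fieldRange K₁ * N ^ n →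
                    corrDeg k L K < finrank (ψ.comp φ).fieldRange L) := by
  have h1 : DivFib k Z N F := by
    rcases h with ⟨h2, rfl, rfl⟩ | ⟨x, y, p, s, hx, hy, hs, hc, rfl⟩ | h
    · exact div_of_gon hZ h2
    · exact div_super hZ hx hy hs hc
    · exact h
  exact div_towers hK hK₁ θ hfθ hθ hN (div_up h1 η) n

end step

end Pool.Agent.CorF
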