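import Pool.Agent.CorF.Plc

/-! # Unramified coverings of hyperelliptic curves by hyperelliptic curves -/

set_option autoImplicit false

open Module Polynomial

open scoped Classical

noncomputable section

namespace Pool.Agent.CorF

open Pool.Agent.EllHiggs Pool.Agent.CorD Pool.Agent.MP_b814b1_ag

section places

variable {k L : Type} [Field k] [Field L] [Algebra k L]

theorem ord_add_small (c : Place k L) {f g : L} (hf0 : f ≠ 0) (hg : c.Ge (c.ord f + 1) g) :
    f + g ≠ 0 ∧ c.ord (f + g) = c.ord f := by
  have h0 : f + g ≠ 0 := by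
    intro h0
    have h1 : f = -g := eq_neg_of_add_eq_zero_left h0
    have h2 : c.Ge (c.ord f + 1) f := by
      have h3 := hg.neg
      rwa [← h1] at h3
    have h3 := h2.le_ord hf0
    omega
  refine ⟨h0, ?_⟩
  have h1 : c.Ge (c.ord f) (f + g) := (Place.Ge.of_le le_rfl).add (hg.mono (by omega))
  have h2 := h1.le_ord h0
  by_contra hne
  have h3 : c.Ge (c.ord f + 1) (f + g) := Place.Ge.of_le (by omega)
  have h4 := h3.sub hg
  rw [add_sub_cancel_right] at h4
  have h5 := h4.le_ord hf0
  omega

/-- A pole is not changed by a constant. -/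
theorem ord_neg_shift (v : Place k L) {y : L} (h : v.ord y < 0) (c : k) :
    v.ord (y - algebraMap k L c) = v.ord y := by
  have hy : y ≠ 0 := by
    rintro rfl
    rw [v.ord_zero] at h
    exact lt_irrefl _ h
  rw [sub_eq_add_neg]
  refine (ord_add_small v hy ?_).2
  rw [← map_neg]
  exact Place.Ge.of_le (by rw [v.ord_const]; omega)

/-- At a zero of `y - c` the function `y - c'` is a unit. -/
theorem ord_pos_shift (v : Place k L) {y : L} {c c' : k} (h : 0 < v.ord (y - algebraMap k L c))
    (hc : c ≠ c') : v.ord (y - algebraMap k L c') = 0 := by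
  have h0 : c - c' ≠ 0 := sub_ne_zero.2 hc
  have h1 : algebraMap k L (c - c') ≠ 0 := by
    rwa [Ne, FaithfulSMul.algebraMap_eq_zero_iff]
  have h2 := (ord_add_small v (f := algebraMap k L (c - c')) (g := y - algebraMap k L c) h1
    (Place.Ge.of_le (by rw [v.ord_const]; omega))).2
  rw [v.ord_const] at h2
  rw [← h2]
  congr 1
  rw [map_sub]
  ring

theorem max_shift (v : Place k L) (y : L) (c : k) :
    max 0 (-(v.ord (y - algebraMap k L c))) = max 0 (-(v.ord y)) := by
  rcases lt_or_ge (v.ord y) 0 with h | h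
  · rw [ord_neg_shift v h c]
  · have h1 : 0 ≤ v.ord (y - algebraMap k L c) := by
      by_contra h2
      push Not at h2
      have h3 := ord_neg_shift v h2 (-c)
      rw [map_neg, sub_neg_eq_add, sub_add_cancel] at h3
      omega
    rw [max_eq_left (by omega), max_eq_left (by omega)]

/-- The value of a polynomial which does not vanish at `a` is a unit at the zeros of `y - a`. -/
theorem ord_poly_unit (v : Place k L) {y : L} {a : k} (h : 0 < v.ord (y - algebraMap k L a))
    (q : k[X]) (hq : q.eval a ≠ 0) : v.ord (aeval y q) = 0 ∧ aeval y q ≠ 0 := by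
  have hy : y ∈ v.O := by
    rw [Place.mem_O]
    by_contra h2
    push Not at h2
    rw [ord_neg_shift v h2 a] at h
    omega
  obtain ⟨r, hr⟩ : ∃ r : k[X], q - C (q.eval a) = (X - C a) * r :=
    dvd_iff_isRoot.2 (by rw [IsRoot, eval_sub, eval_C, sub_self])
  have hrO : aeval y r ∈ v.O := by
    have h1 : Algebra.adjoin k {y} ≤ v.O := Algebra.adjoin_le (Set.singleton_subset_iff.2 hy)
    exact h1 (aeval_mem_adjoin_singleton k y)
  have h3 : aeval y q = algebraMap k L (q.eval a) + (y - algebraMap k L a) * aeval y r := by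
    have h4 : q = C (q.eval a) + (X - C a) * r := by rw [← hr]; ring
    conv_lhs => rw [h4]
    simp
  have h5 : algebraMap k L (q.eval a) ≠ 0 := by
    rwa [Ne, FaithfulSMul.algebraMap_eq_zero_iff]
  have h6 : v.Ge (v.ord (algebraMap k L (q.eval a)) + 1) ((y - algebraMap k L a) * aeval y r) := by
    rw [v.ord_const]
    have h7 : v.Ge (1 + 0) ((y - algebraMap k L a) * aeval y r) :=
      (Place.Ge.of_le (by omega)).mul (v.ge_zero_iff.2 hrO)
    simpa using h7
  have h8 := ord_add_small v h5 h6
  rw [← h3, v.ord_const] at h8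
  exact ⟨h8.2, h8.1⟩

end places

variable {k K : Type} [Field k] [Field K] [Algebra k K] [IsAlgClosed k] [CharZero k]

/-- the degree of a square -/
theorem fdeg_sq (hK : IsFunField k K) (y : K) : fdeg k (y ^ 2) = 2 * fdeg k y := by
  have h1 := pol_form hK (y ^ 2)
  have h2 := pol_form hK y
  have h3 : ∀ v : Place k K, max 0 (-(v.ord (y ^ 2))) = 2 * max 0 (-(v.ord y)) := by
    intro v
    rw [v.ord_pow]
    push_cast
    rcases le_total 0 (-(v.ord y)) with h | h
    · rw [max_eq_right h, max_eq_right (by linarith)]; ring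
    · rw [max_eq_left h, max_eq_left (by linarith)]; ring
  rw [finsum_congr h3] at h1
  have h4 : (∑ᶠ v : Place k K, 2 * max 0 (-(v.ord y))) = 2 * ∑ᶠ v : Place k K, max 0 (-(v.ord y)) := by
    rw [mul_finsum]
  rw [h4, h2] at h1
  exact_mod_cast h1.symm

theorem fdeg_shift (hK : IsFunField k K) (y : K) (c : k) :
    fdeg k (y - algebraMap k K c) = fdeg k y := by
  have h1 := pol_form hK (y - algebraMap k K c)
  have h2 := pol_form hK y
  rw [finsum_congr fun v => max_shift v y c, h2] at h1
  exact_mod_cast h1.symm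

omit [IsAlgClosed k] [CharZero k] in
theorem quad_gen [CharZero K] (F : IntermediateField k K) (h : finrank F K = 2) :
    ∃ z : K, z ∉ F ∧ z ^ 2 ∈ F := by
  have hfd : FiniteDimensional F K := Module.finite_of_finrank_pos (by omega)
  obtain ⟨θ, hθ⟩ : ∃ θ : K, θ ∉ F := by
    by_contra hcon
    push Not at hcon
    have h3 : F = ⊤ := by
      rw [eq_top_iff]
      intro z _
      exact hcon z
    have h4 := IntermediateField.finrank_eq_one_iff_eq_top.2 h3
    omega
  have hint : IsIntegral F θ := Algebra.IsIntegral.isIntegral θ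
  have hle : (minpoly F θ).natDegree ≤ 2 := by
    rw [← h]
    exact minpoly.natDegree_le θ
  have hge : 2 ≤ (minpoly F θ).natDegree := by
    rw [minpoly.two_le_natDegree_iff hint]
    rintro ⟨z, hz⟩
    apply hθ
    rw [← hz]
    exact z.2
  have hdeg : (minpoly F θ).degree ≤ 2 := by
    rw [degree_eq_natDegree (minpoly.ne_zero hint)]
    exact_mod_cast hle
  have hq := eq_quadratic_of_degree_le_two hdeg
  have hmon : (minpoly F θ).coeff 2 = 1 := by
    have h3 : (minpoly F θ).natDegree = 2 := le_antisymm hle hge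
    have h4 := (minpoly.monic hint).coeff_natDegree
    rwa [h3] at h4
  obtain ⟨A, hA, B, hB, heq⟩ : ∃ A : K, A ∈ F ∧ ∃ B : K, B ∈ F ∧ θ ^ 2 + A * θ + B = 0 := by
    refine ⟨((minpoly F θ).coeff 1 : K), ((minpoly F θ).coeff 1).2,
      ((minpoly F θ).coeff 0 : K), ((minpoly F θ).coeff 0).2, ?_⟩
    have h3 := minpoly.aeval F θ
    rw [hq, hmon] at h3
    simp only [map_add, map_mul, map_pow, aeval_X, aeval_C, map_one, one_mul] at h3
    exact h3
  have h2F : (2 : K) ∈ F := by
    have := F.add_mem F.one_mem F.one_mem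
    rwa [one_add_one_eq_two] at this
  have hA2 : A / 2 ∈ F := F.div_mem hA h2F
  have h20 : (2 : K) ≠ 0 := two_ne_zero
  have hAA : A = 2 * (A / 2) := by rw [mul_div_cancel₀ _ h20]
  refine ⟨θ + A / 2, ?_, ?_⟩
  · intro h3
    apply hθ
    have h5 := F.sub_mem h3 hA2
    rwa [add_sub_cancel_right] at h5
  · have h6 : (θ + A / 2) ^ 2 = (A / 2) ^ 2 - B := by
      rw [hAA] at heq
      generalize A / 2 = c at *
      linear_combination heq
    rw [h6]
    exact F.sub_mem (by rw [sq]; exact F.mul_mem hA2 hA2) hB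

/-- A curve with a function of degree two is given by `y ^ 2 = p (x)`. -/
theorem quad_eq {x : K} (h2 : fdeg k x = 2) :
    ∃ (p : k[X]) (y : K), y ∉ IntermediateField.adjoin k {x} ∧ y ^ 2 = aeval x p := by
  have hcK : CharZero K := charZero_of_injective_algebraMap (algebraMap k K).injective
  obtain ⟨z, hz, hz2⟩ := quad_gen (IntermediateField.adjoin k {x}) h2
  obtain ⟨r, s, hrs⟩ := (IntermediateField.mem_adjoin_simple_iff k _).1 hz2
  have hs0 : aeval x s ≠ 0 := by
    intro h3
    rw [h3, div_zero] at hrs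
    have h4 : z = 0 := pow_eq_zero_iff (two_ne_zero) |>.1 hrs
    rw [h4] at hz
    exact hz (IntermediateField.adjoin k {x}).zero_mem
  have hsF : aeval x s ∈ IntermediateField.adjoin k {x} := by
    have h3 : Algebra.adjoin k {x} ≤ (IntermediateField.adjoin k {x}).toSubalgebra :=
      Algebra.adjoin_le (Set.singleton_subset_iff.2 (IntermediateField.mem_adjoin_simple_self k x))
    exact h3 (aeval_mem_adjoin_singleton k x)
  refine ⟨r * s, z * aeval x s, ?_, ?_⟩
  · intro h3
    have h4 := (IntermediateField.adjoin k {x}).div_mem h3 hsF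
    rw [mul_div_assoc, div_self hs0, mul_one] at h4
    exact hz h4
  · rw [mul_pow, hrs, map_mul]
    generalize aeval x s = S at *
    generalize aeval x r = R at *
    field_simp

/-- A curve of gonality two has a function of degree two, all of whose zeros and poles are double. -/
theorem two_branch (hK : IsFunField k K) (h2 : gon k K = 2) :
    ∃ x : K, fdeg k x = 2 ∧ ∀ v : Place k K, ∃ m : ℤ, v.ord x = 2 * m := by
  obtain ⟨⟨x, hx, hxg⟩, hmin, -⟩ := gonx hK
  rw [h2] at hxg hmin
  set F := IntermediateField.adjoin k {x} with hF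
  have hex : ∃ n : ℕ, ∃ (p : k[X]) (y : K), p.natDegree = n ∧ y ∉ F ∧ y ^ 2 = aeval x p := by
    obtain ⟨p, y, h3, h4⟩ := quad_eq hxg
    exact ⟨_, p, y, rfl, h3, h4⟩
  obtain ⟨p, y, hpn, hyF, hyp⟩ := Nat.find_spec hex
  have hmin' : ∀ (q : k[X]) (z : K), z ∉ F → z ^ 2 = aeval x q → p.natDegree ≤ q.natDegree := by
    intro q z h3 h4
    rw [hpn]
    exact Nat.find_min' hex ⟨q, z, rfl, h3, h4⟩
  have hy0 : y ≠ 0 := by
    rintro rfl
    exact hyF F.zero_mem
  have hp0 : p ≠ 0 := by
    rintro rfl
    rw [map_zero] at hyp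
    exact hy0 (pow_eq_zero_iff two_ne_zero |>.1 hyp)
  have hxa : ∀ a : k, x - algebraMap k K a ≠ 0 := by
    intro a h3
    apply hx
    rw [sub_eq_zero.1 h3]
    exact isAlgebraic_algebraMap a
  have hxF : ∀ a : k, x - algebraMap k K a ∈ F := fun a =>
    F.sub_mem (IntermediateField.mem_adjoin_simple_self k x) (F.algebraMap_mem a)
  -- squarefree
  have hsq : ∀ (a : k) (q : k[X]), p = (X - C a) * q → q.eval a ≠ 0 := by
    intro a q h3 h4
    obtain ⟨r, hr⟩ := dvd_iff_isRoot.2 (show q.IsRoot a from h4)
    have h5 : (y / (x - algebraMap k K a)) ∉ F := by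
      intro h6
      have h7 := F.mul_mem h6 (hxF a)
      rw [div_mul_cancel₀ _ (hxa a)] at h7
      exact hyF h7
    have h6 : (y / (x - algebraMap k K a)) ^ 2 = aeval x r := by
      rw [div_pow, hyp, h3, hr]
      simp only [map_mul, map_sub, aeval_X, aeval_C]
      have := hxa a
      field_simp
    have h7 := hmin' r _ h5 h6
    have hr0 : r ≠ 0 := by
      rintro rfl
      rw [mul_zero] at hr
      rw [hr, mul_zero] at h3
      exact hp0 h3
    have h8 : p.natDegree = r.natDegree + 2 := by
      rw [h3, hr, natDegree_mul (X_sub_C_ne_zero a) (mul_ne_zero (X_sub_C_ne_zero a) hr0),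
        natDegree_mul (X_sub_C_ne_zero a) hr0, natDegree_X_sub_C]
      ring
    omega
  have hd0 : p.natDegree ≠ 0 := by
    intro h3
    rw [eq_C_of_natDegree_eq_zero h3, aeval_C] at hyp
    obtain ⟨z, hz⟩ := IsAlgClosed.exists_pow_nat_eq (p.coeff 0) (two_pos)
    rw [← hz, map_pow] at hyp
    rcases sq_eq_sq_iff_eq_or_eq_neg.1 hyp with h4 | h4
    · rw [h4] at hyF
      exact hyF (F.algebraMap_mem z)
    · rw [h4] at hyF
      exact hyF (F.neg_mem (F.algebraMap_mem z))
  have hd1 : p.natDegree ≠ 1 := by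
    intro h3
    obtain ⟨a, ha, b, hab⟩ := natDegree_eq_one.1 h3
    have h4 : y ^ 2 = algebraMap k K a * (x - algebraMap k K (-(b / a))) := by
      rw [hyp, ← hab]
      simp only [map_add, map_mul, aeval_X, aeval_C, map_neg, map_div₀]
      have : algebraMap k K a ≠ 0 := by rwa [Ne, FaithfulSMul.algebraMap_eq_zero_iff]
      field_simp
      ring
    have h5 : fdeg k (y ^ 2) = 2 := by
      have h6 := pol_form hK (y ^ 2)
      have h7 := pol_form hK (x - algebraMap k K (-(b / a)))
      rw [fdeg_shift hK, hxg] at h7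
      have h8 : ∀ v : Place k K, max 0 (-(v.ord (y ^ 2))) =
          max 0 (-(v.ord (x - algebraMap k K (-(b / a))))) := by
        intro v
        have : algebraMap k K a ≠ 0 := by rwa [Ne, FaithfulSMul.algebraMap_eq_zero_iff]
        rw [h4, v.ord_mul _ _ this (hxa _), v.ord_const, zero_add]
      rw [finsum_congr h8, h7] at h6
      exact_mod_cast h6.symm
    rw [fdeg_sq hK] at h5
    have h6 : fdeg k y = 1 := by omega
    have h7 := hmin y ((fd_pos hK y).1 (by omega))
    omega
  obtain ⟨a, ha⟩ := IsAlgClosed.exists_root p (by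
    rw [degree_eq_natDegree hp0]
    exact_mod_cast hd0)
  obtain ⟨q, hq⟩ := dvd_iff_isRoot.2 ha
  have hq0 : q ≠ 0 := by
    rintro rfl
    rw [mul_zero] at hq
    exact hp0 hq
  have hqd : q.natDegree ≠ 0 := by
    intro h3
    apply hd1
    rw [hq, natDegree_mul (X_sub_C_ne_zero a) hq0, natDegree_X_sub_C, h3]
  obtain ⟨b, hb⟩ := IsAlgClosed.exists_root q (by
    rw [degree_eq_natDegree hq0]
    exact_mod_cast hqd)
  have hab : a ≠ b := by
    rintro rfl
    exact hsq a q hq hb
  have heven : ∀ (c : k), p.IsRoot c → ∀ v : Place k K, 0 < v.ord (x - algebraMap k K c) →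
      v.ord (x - algebraMap k K c) = 2 * v.ord y := by
    intro c hc v hv
    obtain ⟨r, hr⟩ := dvd_iff_isRoot.2 hc
    obtain ⟨h3, h4⟩ := ord_poly_unit v hv r (hsq c r hr)
    have h5 : v.ord (y ^ 2) = v.ord (x - algebraMap k K c) := by
      rw [hyp, hr, map_mul, v.ord_mul _ _ (by simpa using hxa c) h4, h3, add_zero]
      simp
    rw [v.ord_pow] at h5
    push_cast at h5
    exact h5.symm
  have hbp : p.IsRoot b := by
    rw [IsRoot, hq, eval_mul, hb, mul_zero]
  have hord : ∀ v : Place k K, v.ord ((x - algebraMap k K a) / (x - algebraMap k K b)) =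
      v.ord (x - algebraMap k K a) - v.ord (x - algebraMap k K b) := fun v =>
    v.ord_div _ _ (hxa a) (hxa b)
  have hcase : ∀ v : Place k K, (0 < v.ord (x - algebraMap k K a) ∧ v.ord (x - algebraMap k K b) = 0) ∨
      (0 < v.ord (x - algebraMap k K b) ∧ v.ord (x - algebraMap k K a) = 0) ∨
      (v.ord (x - algebraMap k K b) ≤ 0 ∧
        v.ord (x - algebraMap k K a) = v.ord (x - algebraMap k K b)) := by
    intro v
    rcases lt_trichotomy (v.ord (x - algebraMap k K a)) 0 with h3 | h3 | h3
    · right; right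
      have h4 := ord_neg_shift v h3 (b - a)
      have h5 : x - algebraMap k K a - algebraMap k K (b - a) = x - algebraMap k K b := by
        rw [map_sub]; ring
      rw [h5] at h4
      exact ⟨by omega, h4.symm⟩
    · rcases lt_trichotomy (v.ord (x - algebraMap k K b)) 0 with h4 | h4 | h4
      · exfalso
        have h6 := ord_neg_shift v h4 (a - b)
        have h5 : x - algebraMap k K b - algebraMap k K (a - b) = x - algebraMap k K a := by
          rw [map_sub]; ring
        rw [h5] at h6
        omega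
      · right; right
        exact ⟨by omega, by omega⟩
      · right; left
        exact ⟨h4, h3⟩
    · left
      exact ⟨h3, ord_pos_shift v h3 hab⟩
  refine ⟨(x - algebraMap k K a) / (x - algebraMap k K b), ?_, ?_⟩
  · have h3 := pol_form hK ((x - algebraMap k K a) / (x - algebraMap k K b))
    have htr : Transcendental k (x - algebraMap k K b) := by
      refine (fd_pos hK _).1 ?_
      rw [fdeg_shift hK, hxg]
      norm_num
    have h4 := zer_form hK htr
    rw [fdeg_shift hK, hxg] at h4
    have h5 : ∀ v : Place k K,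
        max 0 (-(v.ord ((x - algebraMap k K a) / (x - algebraMap k K b)))) =
          max 0 (v.ord (x - algebraMap k K b)) := by
      intro v
      rw [hord]
      rcases hcase v with ⟨h6, h7⟩ | ⟨h6, h7⟩ | ⟨h6, h7⟩
      · rw [h7, max_eq_left (by omega), max_self]
      · rw [h7]
        congr 1
        ring
      · rw [h7, max_eq_left (by omega), max_eq_left (by omega)]
    rw [finsum_congr h5, h4] at h3
    exact_mod_cast h3.symm
  · intro v
    rw [hord]
    rcases hcase v with ⟨h6, h7⟩ | ⟨h6, h7⟩ | ⟨h6, h7⟩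
    · exact ⟨v.ord y, by rw [h7, heven a ha v h6]; ring⟩
    · exact ⟨-(v.ord y), by rw [h7, heven b hbp v h6]; ring⟩
    · exact ⟨0, by rw [h7]; ring⟩

end Pool.Agent.CorF
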