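import Pool.Agent.CorF.Twr
import Pool.Agent.CorF.Star

/-! # Towers of unramified double coverings of hyperelliptic curves -/

set_option autoImplicit false

open Module Polynomial

open scoped Classical

noncomputable section

namespace Pool.Agent.CorF

open Pool.Agent.EllHiggs Pool.Agent.CorD Pool.Agent.MP_b814b1_ag

/-- The place `g ↦ w.ord (σ g)`. -/
def conjPl {k K W : Type} [Field k] [Field K] [Field W] [Algebra k K] [Algebra k W] [Algebra K W]
    [IsScalarTower k K W] (σ : W ≃ₐ[K] W) (w : Place k W) : Place k W where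
  ord := fun g => w.ord (σ g)
  ord_zero := by rw [map_zero, w.ord_zero]
  ord_mul := fun f g hf hg => by
    rw [map_mul]
    exact w.ord_mul _ _ ((map_ne_zero σ).2 hf) ((map_ne_zero σ).2 hg)
  ord_add := fun f g hf hg hfg => by
    rw [map_add]
    refine w.ord_add _ _ ((map_ne_zero σ).2 hf) ((map_ne_zero σ).2 hg) ?_
    rw [← map_add]
    exact (map_ne_zero σ).2 hfg
  ord_const := fun a => by
    rw [IsScalarTower.algebraMap_apply k K W, σ.commutes, ← IsScalarTower.algebraMap_apply k K W]
    exact w.ord_const a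
  exists_one := by
    obtain ⟨t, ht⟩ := w.exists_one
    exact ⟨σ.symm t, by rw [σ.apply_symm_apply]; exact ht⟩

section

variable {k K W : Type} [Field k] [Field K] [Field W] [Algebra k K] [Algebra k W] [Algebra K W]
  [IsScalarTower k K W] [IsAlgClosed k] [CharZero k] [FiniteDimensional K W]

/-- A quadratic extension by the square root of a function with even divisor is unramified. -/
theorem unram_sqrt (hK : IsFunField k K) (h2 : finrank K W = 2) (σ : W ≃ₐ[K] W) {t : W} {x : K}
    (ht : t ^ 2 = algebraMap K W x) (hσ : σ t = -t) (hx : x ≠ 0)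
    (hev : ∀ v : Place k K, ∃ m : ℤ, v.ord x = 2 * m) (φ : K →ₐ[k] W)
    (hφ : ∀ y, algebraMap K W y = φ y) [FiniteDimensional φ.fieldRange W]
    (w : Place k W) (v : Place k K) (hw : Ov φ w v) : ram φ w v = 1 := by
  have hW : IsFunField k W := hK.of_finite (M := W)
  have hrat : w.Rational := Place.rational hW w
  obtain ⟨hr0, hr⟩ := ov_spec hw
  obtain ⟨m, hm⟩ := hev v
  have ht0 : t ≠ 0 := by
    rintro rfl
    rw [zero_pow two_ne_zero] at ht
    exact hx ((map_eq_zero _).1 ht.symm)
  have hσφ : ∀ y, σ (φ y) = φ y := fun y => by rw [← hφ, σ.commutes]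
  -- the conjugate place
  have hw' : Ov φ (conjPl (k := k) σ w) v :=
    ⟨ram φ w v, hr0, fun g => by
      show w.ord (σ (φ g)) = _
      rw [hσφ, hr]⟩
  have hne : conjPl (k := k) σ w ≠ w := by
    intro heq
    have hconj : ∀ g, w.ord (σ g) = w.ord g := fun g => congrArg (fun u : Place k W => u.ord g) heq
    have hpi : φ v.unif ≠ 0 := by
      rw [Ne, map_eq_zero]
      exact v.unif_ne_zero
    set u : W := t * (φ v.unif) ^ (-m) with hu
    have hu0 : u ≠ 0 := mul_ne_zero ht0 (zpow_ne_zero _ hpi)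
    have huord : w.ord u = 0 := by
      have h3 : w.ord (t ^ 2) = 2 * w.ord t := by
        rw [w.ord_pow]; rfl
      rw [ht, hφ, hr, hm] at h3
      rw [hu, w.ord_mul _ _ ht0 (zpow_ne_zero _ hpi), w.ord_zpow, hr, v.ord_unif]
      linarith
    have huO : u ∈ w.O := by
      rw [Place.mem_O, huord]
    have hres := w.ge_res hrat huO
    have hsu : σ u = -u := by
      rw [hu, map_mul, map_zpow₀, hσφ, hσ]
      ring
    have h4 : w.Ge 1 (-u - algebraMap k W (w.res u)) := by
      rcases hres with h5 | h5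
      · left
        have h6 := congrArg σ h5
        rw [map_sub, hsu, map_zero] at h6
        rw [← h6, IsScalarTower.algebraMap_apply k K W, σ.commutes]
      · right
        rw [← hconj, map_sub, hsu] at h5
        rw [IsScalarTower.algebraMap_apply k K W, σ.commutes] at h5
        rwa [← IsScalarTower.algebraMap_apply k K W] at h5
    have h5 := hres.add h4
    have h6 : u - algebraMap k W (w.res u) + (-u - algebraMap k W (w.res u)) =
        algebraMap k W (-(2 * w.res u)) := by
      rw [map_neg, map_mul, map_ofNat]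
      ring
    rw [h6] at h5
    have h7 := Place.eq_zero_of_ge_one h5
    have h8 : w.res u = 0 := by
      rw [neg_eq_zero, mul_eq_zero] at h7
      exact h7.resolve_left two_ne_zero
    rw [h8, map_zero, sub_zero] at hres
    have h9 := hres.le_ord hu0
    omega
  obtain ⟨hfin, hsum⟩ := deg_fib hK φ v
  have hrk : finrank φ.fieldRange W = 2 := by
    rw [← h2]
    exact ((rng φ hφ).2.1).symm
  rw [hrk] at hsum
  have hsupp : (Function.support fun w : Place k W => if Ov φ w v then ram φ w v else 0) ⊆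
      hfin.toFinset := by
    intro z hz
    rw [Set.Finite.coe_toFinset]
    by_contra hc
    apply hz
    exact if_neg hc
  rw [finsum_eq_sum_of_support_subset _ hsupp] at hsum
  have hle : ram φ w v + ram φ (conjPl (k := k) σ w) v ≤
      ∑ z ∈ hfin.toFinset, if Ov φ z v then ram φ z v else 0 := by
    have h3 : ({w, conjPl (k := k) σ w} : Finset (Place k W)) ⊆ hfin.toFinset := by
      intro z hz
      rw [Finset.mem_insert, Finset.mem_singleton] at hz
      rw [Set.Finite.mem_toFinset]
      rcases hz with rfl | rfl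
      · exact hw
      · exact hw'
    have h4 := Finset.sum_le_sum_of_subset_of_nonneg
      (f := fun z => if Ov φ z v then ram φ z v else 0) h3 (fun z _ _ => by
        show 0 ≤ (if Ov φ z v then ram φ z v else 0)
        split_ifs with h5
        · exact (ov_spec h5).1.le
        · exact le_rfl)
    rw [Finset.sum_pair hne.symm] at h4
    simp only [if_pos hw, if_pos hw'] at h4
    exact h4
  have h10 := (ov_spec hw').1
  rw [hsum] at hle
  push_cast at hle
  omega

end

section

variable {k K : Type} [Field k] [Field K] [Algebra k K] [IsAlgClosed k] [CharZero k]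

/-- An unramified double covering of a curve of gonality two by a curve of gonality two. -/
theorem two_step (hK : IsFunField k K) (h2 : gon k K = 2) :
    ∃ (W : Type) (_ : Field W) (_ : Algebra k W) (φ : K →ₐ[k] W), IsFunField k W ∧
      gon k W = 2 ∧ FiniteDimensional φ.fieldRange W ∧ finrank φ.fieldRange W = 2 ∧
        ∀ (w : Place k W) (v : Place k K), Ov φ w v → ram φ w v = 1 := by
  obtain ⟨x, hx2, hev⟩ := two_branch hK h2
  have hmin := (gonx hK).2.1
  rw [h2] at hmin
  have hns : ∀ b : K, b ^ 2 ≠ x := by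
    intro b hb
    have h3 := fdeg_sq hK b
    rw [hb, hx2] at h3
    have h4 : fdeg k b = 1 := by omega
    have h5 := hmin b ((fd_pos hK b).1 (by omega))
    omega
  have hirr : Irreducible (X ^ 2 - C x : K[X]) :=
    (X_pow_sub_C_irreducible_iff_of_prime Nat.prime_two).2 hns
  haveI : Fact (Irreducible (X ^ 2 - C x : K[X])) := ⟨hirr⟩
  have hne : (X ^ 2 - C x : K[X]) ≠ 0 := hirr.ne_zero
  let W := AdjoinRoot (X ^ 2 - C x : K[X])
  let pb := AdjoinRoot.powerBasis hne
  have hfd : FiniteDimensional K W := pb.finite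
  have hfr : finrank K W = 2 := by
    rw [pb.finrank, AdjoinRoot.powerBasis_dim, natDegree_X_pow_sub_C]
  let t : W := AdjoinRoot.root (X ^ 2 - C x : K[X])
  have ht : t ^ 2 = algebraMap K W x := by
    have h3 := AdjoinRoot.eval₂_root (X ^ 2 - C x : K[X])
    rw [eval₂_sub, eval₂_X_pow, eval₂_C, sub_eq_zero] at h3
    exact h3
  let φ : K →ₐ[k] W := IsScalarTower.toAlgHom k K W
  have hφ : ∀ y, algebraMap K W y = φ y := fun _ => rfl
  have hW : IsFunField k W := hK.of_finite (M := W)
  have hfφ : FiniteDimensional φ.fieldRange W := by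
    let e : K ≃+* φ.fieldRange := (AlgEquiv.ofInjectiveField φ).toRingEquiv
    exact Module.Finite.of_equiv_equiv e (RingEquiv.refl W) (RingHom.ext fun y => rfl)
  have hx0 : x ≠ 0 := by
    rintro rfl
    exact hns 0 (zero_pow two_ne_zero)
  let σ0 : W →ₐ[K] W := AdjoinRoot.liftAlgHom (X ^ 2 - C x : K[X]) (Algebra.ofId K W) (-t) (by
    rw [eval₂_sub, eval₂_X_pow, eval₂_C, neg_sq, ht, sub_eq_zero]
    rfl)
  have hσ0 : σ0 t = -t := AdjoinRoot.liftAlgHom_root _ _ _ _
  let σ : W ≃ₐ[K] W := AlgEquiv.ofBijective σ0 (Algebra.IsAlgebraic.algHom_bijective σ0)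
  have hσ : σ t = -t := hσ0
  refine ⟨W, inferInstance, inferInstance, φ, hW, ?_, hfφ, ?_, ?_⟩
  · have h3 : fdeg k t = 2 := by
      have h4 := fdeg_sq hW t
      rw [ht, fd_tower, hx2, hfr] at h4
      omega
    refine le_antisymm ?_ ?_
    · exact ((gonx hW).2.1 t ((fd_pos hW t).1 (by omega))).trans h3.le
    · obtain ⟨⟨z, hz, hzg⟩, -, -⟩ := gonx hW
      rw [← hzg]
      obtain ⟨i, hi⟩ := push_ex (L := K) hz
      exact (hmin _ hi).trans (push hK z i hi)
  · exact ((rng φ hφ).2.1).symm.trans hfr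
  · intro w v hw
    exact unram_sqrt hK hfr σ ht hσ hx0 hev φ hφ w v hw

omit [IsAlgClosed k] [CharZero k] in
theorem fr_comp {A B C : Type} [Field A] [Field B] [Field C] [Algebra k A] [Algebra k B]
    [Algebra k C] (φ : A →ₐ[k] B) (ψ : B →ₐ[k] C) [FiniteDimensional φ.fieldRange B]
    [FiniteDimensional ψ.fieldRange C] : FiniteDimensional (ψ.comp φ).fieldRange C ∧
      finrank (ψ.comp φ).fieldRange C = finrank φ.fieldRange B * finrank ψ.fieldRange C := by
  let _ : Algebra A B := φ.toRingHom.toAlgebra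
  let _ : Algebra B C := ψ.toRingHom.toAlgebra
  let _ : Algebra A C := (ψ.comp φ).toRingHom.toAlgebra
  have : IsScalarTower A B C := IsScalarTower.of_algebraMap_eq fun _ => rfl
  obtain ⟨f1, f2, f3⟩ := rng φ (fun _ => rfl)
  obtain ⟨g1, g2, g3⟩ := rng ψ (fun _ => rfl)
  have h1 : FiniteDimensional A C := Module.Finite.trans B C
  have h2 : FiniteDimensional (ψ.comp φ).fieldRange C := fin_rng (ψ.comp φ) (fun _ => rfl)
  obtain ⟨e1, e2, e3⟩ := rng (ψ.comp φ) (fun _ => rfl)
  refine ⟨h2, ?_⟩
  rw [← e2, ← f2, ← g2, finrank_mul_finrank]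

/-- Towers. -/
theorem tower (hK : IsFunField k K) (h2 : gon k K = 2) (n : ℕ) :
    ∃ (W : Type) (_ : Field W) (_ : Algebra k W) (φ : K →ₐ[k] W), IsFunField k W ∧
      gon k W = 2 ∧ FiniteDimensional φ.fieldRange W ∧ finrank φ.fieldRange W = 2 ^ n ∧
        ∀ (w : Place k W) (v : Place k K), Ov φ w v → ram φ w v = 1 := by
  induction n with
  | zero =>
    have h3 : FiniteDimensional (AlgHom.id k K).fieldRange K := fin_rng (AlgHom.id k K) (fun _ => rfl)
    obtain ⟨e1, e2, e3⟩ := rng (AlgHom.id k K) (fun _ => rfl)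
    refine ⟨K, inferInstance, inferInstance, AlgHom.id k K, hK, h2, h3, ?_, ?_⟩
    · rw [← e2, finrank_self, pow_zero]
    · intro w v hw
      have hself : Ov (AlgHom.id k K) w w := ⟨1, one_pos, fun g => by rw [AlgHom.id_apply, one_mul]⟩
      rw [← ov_uniq hself hw]
      exact w.ord_unif
  | succ n ih =>
    obtain ⟨W, iW, aW, φ, hW, hgW, hf, hd, hu⟩ := ih
    obtain ⟨V, iV, aV, ψ, hV, hgV, hf', hd', hu'⟩ := two_step hW hgW
    obtain ⟨h3, h4⟩ := fr_comp φ ψ
    refine ⟨V, iV, aV, ψ.comp φ, hV, hgV, h3, ?_, ?_⟩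
    · rw [h4, hd, hd', pow_succ]
    · intro w v hw
      obtain ⟨u, hu1⟩ := ov_down ψ w
      obtain ⟨v', hv'⟩ := ov_down φ u
      obtain ⟨h5, h6⟩ := ov_comp hv' hu1
      have h7 := ov_uniq h5 hw
      rw [← h7, h6, hu' w u hu1, hu u v' hv', mul_one]

/-- The correspondence degree of a covering which factors through a curve of gonality two. -/
theorem corr_factor {W L : Type} [Field W] [Field L] [Algebra k W] [Algebra k L]
    (hK : IsFunField k K) (h2 : gon k K = 2) (hW : IsFunField k W) (hgW : gon k W = 2)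
    (φ : K →ₐ[k] W) [FiniteDimensional φ.fieldRange W] (ψ : W →ₐ[k] L)
    [FiniteDimensional ψ.fieldRange L] : corrDeg k L K ≤ 4 * finrank ψ.fieldRange L := by
  let _ : Algebra K W := φ.toRingHom.toAlgebra
  let _ : Algebra W L := ψ.toRingHom.toAlgebra
  let _ : Algebra K L := (ψ.comp φ).toRingHom.toAlgebra
  have : IsScalarTower K W L := IsScalarTower.of_algebraMap_eq fun _ => rfl
  obtain ⟨f1, f2, f3⟩ := rng φ (fun _ => rfl)
  obtain ⟨g1, g2, g3⟩ := rng ψ (fun _ => rfl)
  have h1 : FiniteDimensional K L := Module.Finite.trans W L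
  have h5 : FiniteDimensional (ψ.comp φ).fieldRange L := fin_rng (ψ.comp φ) (fun _ => rfl)
  obtain ⟨e1, e2, e3⟩ := rng (ψ.comp φ) (fun _ => rfl)
  have h3 := ble (k := k) (K := K) (W := W) (L := L)
  have h4 := corrDeg_le_gon hW hK
  rw [hgW, h2] at h4
  rw [← g2, mul_comm]
  exact h3.trans (Nat.mul_le_mul_left _ h4)

/-- The main statement on towers. -/
theorem towers (hK : IsFunField k K) (h2 : gon k K = 2) (n : ℕ) :
    ∃ (W : Type) (_ : Field W) (_ : Algebra k W) (φ : K →ₐ[k] W), IsFunField k W ∧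
      gon k W = 2 ∧ FiniteDimensional φ.fieldRange W ∧ finrank φ.fieldRange W = 2 ^ n ∧
        (∀ (w : Place k W) (v : Place k K), Ov φ w v → ram φ w v = 1) ∧
          ∀ (L : Type) [Field L] [Algebra k L] (ψ : W →ₐ[k] L),
            FiniteDimensional ψ.fieldRange L →
              finrank (ψ.comp φ).fieldRange L = 2 ^ n * finrank ψ.fieldRange L ∧
                corrDeg k L K ≤ 4 * finrank ψ.fieldRange L ∧
                  (3 ≤ n → corrDeg k L K < finrank (ψ.comp φ).fieldRange L) := by
  obtain ⟨W, iW, aW, φ, hW, hgW, hf, hd, hu⟩ := tower hK h2 n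
  refine ⟨W, iW, aW, φ, hW, hgW, hf, hd, hu, fun L _ _ ψ hψ => ?_⟩
  obtain ⟨h3, h4⟩ := fr_comp φ ψ
  rw [hd] at h4
  have h5 := corr_factor hK h2 hW hgW φ ψ
  refine ⟨h4, h5, fun hn => ?_⟩
  rw [h4]
  refine lt_of_le_of_lt h5 ?_
  have h6 : 0 < finrank ψ.fieldRange L := finrank_pos
  have h7 : 2 ^ 3 ≤ 2 ^ n := Nat.pow_le_pow_right two_pos hn
  nlinarith

end

end Pool.Agent.CorF
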