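import Pool.Agent.CorF.Twr2

/-! # Unramified towers over curves with four even fibres -/

set_option autoImplicit false

open Module Polynomial

open scoped Classical

noncomputable section

namespace Pool.Agent.CorF

open Pool.Agent.EllHiggs Pool.Agent.CorD Pool.Agent.MP_b814b1_ag

/-- Every point at which the function `u` takes the value `c` has even multiplicity. -/
def EvVal {k K : Type} [Field k] [Field K] [Algebra k K] (u : K) (c : k) : Prop :=
  ∀ v : Place k K, 0 < v.ord (u - algebraMap k K c) →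
    ∃ m : ℤ, v.ord (u - algebraMap k K c) = 2 * m

/-- There is a nonconstant function `u` of degree at most `F` and there are four values `c 0`, `c 1`, `c 2`, `c 3` such that
every point over each of them has even multiplicity. -/
def FourEven (k K : Type) [Field k] [Field K] [Algebra k K] (F : ℕ) : Prop :=
  ∃ (u : K) (c : Fin 4 → k), 0 < fdeg k u ∧ fdeg k u ≤ F ∧ Function.Injective c ∧ ∀ i, EvVal u (c i)

section basic

variable {k K : Type} [Field k] [Field K] [Algebra k K]

theorem tr_shift {u : K} (hu : Transcendental k u) (a : k) : u - algebraMap k K a ≠ 0 := by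
  intro h
  apply hu
  rw [sub_eq_zero.1 h]
  exact isAlgebraic_algebraMap a

theorem mob_cases (v : Place k K) (u : K) {a b : k} (hab : a ≠ b) :
    (0 < v.ord (u - algebraMap k K a) ∧ v.ord (u - algebraMap k K b) = 0) ∨
      (0 < v.ord (u - algebraMap k K b) ∧ v.ord (u - algebraMap k K a) = 0) ∨
      (v.ord (u - algebraMap k K b) ≤ 0 ∧
        v.ord (u - algebraMap k K a) = v.ord (u - algebraMap k K b)) := by
  rcases lt_trichotomy (v.ord (u - algebraMap k K a)) 0 with h3 | h3 | h3
  · right; right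
    have h4 := ord_neg_shift v h3 (b - a)
    have h5 : u - algebraMap k K a - algebraMap k K (b - a) = u - algebraMap k K b := by
      rw [map_sub]; ring
    rw [h5] at h4
    exact ⟨by omega, h4.symm⟩
  · rcases lt_trichotomy (v.ord (u - algebraMap k K b)) 0 with h4 | h4 | h4
    · exfalso
      have h6 := ord_neg_shift v h4 (a - b)
      have h5 : u - algebraMap k K b - algebraMap k K (a - b) = u - algebraMap k K a := by
        rw [map_sub]; ring
      rw [h5] at h6
      omega
    · right; right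
      exact ⟨by omega, by omega⟩
    · right; left
      exact ⟨h4, h3⟩
  · left
    exact ⟨h3, ord_pos_shift v h3 hab⟩

theorem even_div {u : K} (hu : Transcendental k u) {a b : k} (hab : a ≠ b) (ha : EvVal u a)
    (hb : EvVal u b) (v : Place k K) :
    ∃ m : ℤ, v.ord ((u - algebraMap k K a) / (u - algebraMap k K b)) = 2 * m := by
  rw [v.ord_div _ _ (tr_shift hu a) (tr_shift hu b)]
  rcases mob_cases v u hab with ⟨h6, h7⟩ | ⟨h6, h7⟩ | ⟨h6, h7⟩
  · obtain ⟨m, hm⟩ := ha v h6
    exact ⟨m, by rw [h7, hm]; ring⟩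
  · obtain ⟨m, hm⟩ := hb v h6
    exact ⟨-m, by rw [h7, hm]; ring⟩
  · exact ⟨0, by rw [h7]; ring⟩

variable [IsAlgClosed k] [CharZero k]

theorem fdeg_mob (hK : IsFunField k K) {u : K} (hu : Transcendental k u) {a b : k} (hab : a ≠ b) :
    fdeg k ((u - algebraMap k K a) / (u - algebraMap k K b)) = fdeg k u := by
  have h3 := pol_form hK ((u - algebraMap k K a) / (u - algebraMap k K b))
  have htr : Transcendental k (u - algebraMap k K b) := by
    refine (fd_pos hK _).1 ?_
    rw [fdeg_shift hK]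
    exact (fd_pos hK _).2 hu
  have h4 := zer_form hK htr
  rw [fdeg_shift hK] at h4
  have h5 : ∀ v : Place k K,
      max 0 (-(v.ord ((u - algebraMap k K a) / (u - algebraMap k K b)))) =
        max 0 (v.ord (u - algebraMap k K b)) := by
    intro v
    rw [v.ord_div _ _ (tr_shift hu a) (tr_shift hu b)]
    rcases mob_cases v u hab with ⟨h6, h7⟩ | ⟨h6, h7⟩ | ⟨h6, h7⟩
    · rw [h7, max_eq_left (by omega), max_self]
    · rw [h7]
      congr 1
      ring
    · rw [h7, max_eq_left (by omega), max_eq_left (by omega)]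
  rw [finsum_congr h5, h4] at h3
  exact_mod_cast h3.symm

end basic

section core

variable {k K W : Type} [Field k] [Field K] [Field W] [Algebra k K] [Algebra k W] [CharZero k]

/-- The even fibres of the square root. -/
theorem ev_root {u : K} (hu : Transcendental k u) {a b c r : k} (hab : a ≠ b) (hca : c ≠ a)
    (hcb : c ≠ b) (hr : r ^ 2 * (c - b) = c - a) (hc : EvVal u c) (φ : K →ₐ[k] W)
    (hφ : ∀ w : Place k W, ∃ (e : ℤ) (P : Place k K), 0 < e ∧ ∀ g, w.ord (φ g) = e * P.ord g)
    {t : W} (ht : t ^ 2 = φ ((u - algebraMap k K a) / (u - algebraMap k K b))) :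
    EvVal t r := by
  intro w hw
  obtain ⟨e, P, he, hP⟩ := hφ w
  have hub : φ (u - algebraMap k K b) ≠ 0 := (map_ne_zero φ).2 (tr_shift hu b)
  have huc : φ (u - algebraMap k K c) ≠ 0 := (map_ne_zero φ).2 (tr_shift hu c)
  have h1 : t ^ 2 * φ (u - algebraMap k K b) = φ (u - algebraMap k K a) := by
    rw [ht, ← map_mul, div_mul_cancel₀ _ (tr_shift hu b)]
  have e1 : φ (u - algebraMap k K b) = φ u - algebraMap k W b := by rw [map_sub, φ.commutes]
  have e2 : φ (u - algebraMap k K a) = φ u - algebraMap k W a := by rw [map_sub, φ.commutes]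
  have e3 : φ (u - algebraMap k K c) = φ u - algebraMap k W c := by rw [map_sub, φ.commutes]
  have hcb' : algebraMap k W (c - b) ≠ 0 := by
    rw [Ne, FaithfulSMul.algebraMap_eq_zero_iff]
    exact sub_ne_zero.2 hcb
  have hab' : algebraMap k W (a - b) ≠ 0 := by
    rw [Ne, FaithfulSMul.algebraMap_eq_zero_iff]
    exact sub_ne_zero.2 hab
  have hba' : algebraMap k W (b - a) ≠ 0 := by
    rw [Ne, FaithfulSMul.algebraMap_eq_zero_iff]
    exact sub_ne_zero.2 hab.symm
  have hr' : (algebraMap k W r) ^ 2 * algebraMap k W (c - b) = algebraMap k W (c - a) := by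
    rw [← map_pow, ← map_mul, hr]
  -- `(t - 1) (t + 1) (u - b) = b - a`
  have h2 : (t - algebraMap k W 1) * (t - algebraMap k W (-1)) * φ (u - algebraMap k K b) =
      algebraMap k W (b - a) := by
    rw [e1, e2] at h1
    rw [e1, map_one, map_neg, map_one, map_sub]
    linear_combination h1
  have h3 : (t - algebraMap k W r) * (t - algebraMap k W (-r)) *
      (algebraMap k W (c - b) * φ (u - algebraMap k K b)) =
      algebraMap k W (a - b) * φ (u - algebraMap k K c) := by
    rw [e1, e2] at h1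
    rw [e1, e3, map_neg]
    simp only [map_sub] at hr' ⊢
    linear_combination (algebraMap k W c - algebraMap k W b) * h1 -
      (φ u - algebraMap k W b) * hr'
  have hrr : r ≠ -r := by
    intro h
    have h4 : r = 0 := by
      have h5 : 2 * r = 0 := by linear_combination h
      exact (mul_eq_zero.1 h5).resolve_left two_ne_zero
    rw [h4] at hr
    apply hca
    rw [zero_pow two_ne_zero, zero_mul] at hr
    exact (sub_eq_zero.1 hr.symm)
  have hr1 : r ≠ 1 := by
    rintro rfl
    apply hab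
    linear_combination hr
  have hr2 : r ≠ -1 := by
    rintro rfl
    apply hab
    linear_combination hr
  have o1 := ord_pos_shift w hw hr1
  have o2 := ord_pos_shift w hw hr2
  have o3 := ord_pos_shift w hw hrr
  have n1 : t - algebraMap k W 1 ≠ 0 := by
    intro h
    rw [h, zero_mul, zero_mul] at h2
    exact hba' h2.symm
  have n2 : t - algebraMap k W (-1) ≠ 0 := by
    intro h
    rw [h, mul_zero, zero_mul] at h2
    exact hba' h2.symm
  have n3 : t - algebraMap k W r ≠ 0 := by
    intro h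
    rw [h, zero_mul, zero_mul] at h3
    exact mul_ne_zero hab' huc h3.symm
  have n4 : t - algebraMap k W (-r) ≠ 0 := by
    intro h
    rw [h, mul_zero, zero_mul] at h3
    exact mul_ne_zero hab' huc h3.symm
  have q1 := congrArg w.ord h2
  rw [w.ord_mul _ _ (mul_ne_zero n1 n2) hub, w.ord_mul _ _ n1 n2, o1, o2, w.ord_const] at q1
  have q2 := congrArg w.ord h3
  rw [w.ord_mul _ _ (mul_ne_zero n3 n4) (mul_ne_zero hcb' hub), w.ord_mul _ _ n3 n4,
    w.ord_mul _ _ hcb' hub, w.ord_mul _ _ hab' huc, w.ord_const, w.ord_const, o3, hP, hP] at q2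
  have q3 : w.ord (t - algebraMap k W r) = e * P.ord (u - algebraMap k K c) := by
    rw [hP] at q1
    linarith
  have q4 : 0 < P.ord (u - algebraMap k K c) := by
    rw [q3] at hw
    exact (mul_pos_iff_of_pos_left he).1 hw
  obtain ⟨m, hm⟩ := hc P q4
  exact ⟨e * m, by rw [q3, hm]; ring⟩

end core

section step

variable {k K : Type} [Field k] [Field K] [Algebra k K] [IsAlgClosed k] [CharZero k]

/-- The extension by the square root of a function with even divisor. -/
theorem sqrt_ext (hK : IsFunField k K) {x : K} (hns : ∀ b : K, b ^ 2 ≠ x)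
    (hev : ∀ v : Place k K, ∃ m : ℤ, v.ord x = 2 * m) :
    ∃ (W : Type) (_ : Field W) (_ : Algebra k W) (φ : K →ₐ[k] W) (t : W), IsFunField k W ∧
      t ^ 2 = φ x ∧ fdeg k t = fdeg k x ∧ gon k K ≤ gon k W ∧ FiniteDimensional φ.fieldRange W ∧
        finrank φ.fieldRange W = 2 ∧
          ∀ (w : Place k W) (v : Place k K), Ov φ w v → ram φ w v = 1 := by
  have hirr : Irreducible (X ^ 2 - C x : K[X]) :=
    (X_pow_sub_C_irreducible_iff_of_prime Nat.prime_two).2 hns
  have : Fact (Irreducible (X ^ 2 - C x : K[X])) := ⟨hirr⟩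
  have hne : (X ^ 2 - C x : K[X]) ≠ 0 := hirr.ne_zero
  let W := AdjoinRoot (X ^ 2 - C x : K[X])
  let pb := AdjoinRoot.powerBasis hne
  have hfd : FiniteDimensional K W := pb.finite
  have hfr : finrank K W = 2 := by
    rw [pb.finrank, AdjoinRoot.powerBasis_dim, natDegree_X_pow_sub_C]
  let t : W := AdjoinRoot.root (X ^ 2 - C x : K[X])
  have ht : t ^ 2 = algebraMap K W x := by
    have h3 := AdjoinRoot.eval₂_root (X ^ 2 - C x : K[X])
    rw [eval₂_sub, eval₂_X_pow, eval₂_C, sub_eq_zero] at h3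
    exact h3
  let φ : K →ₐ[k] W := IsScalarTower.toAlgHom k K W
  have hφ : ∀ y, algebraMap K W y = φ y := fun _ => rfl
  have hW : IsFunField k W := hK.of_finite (M := W)
  have hfφ : FiniteDimensional φ.fieldRange W := by
    let e : K ≃+* φ.fieldRange := (AlgEquiv.ofInjectiveField φ).toRingEquiv
    exact Module.Finite.of_equiv_equiv e (RingEquiv.refl W) (RingHom.ext fun y => rfl)
  have hx0 : x ≠ 0 := by
    rintro rfl
    exact hns 0 (zero_pow two_ne_zero)
  let σ0 : W →ₐ[K] W := AdjoinRoot.liftAlgHom (X ^ 2 - C x : K[X]) (Algebra.ofId K W) (-t) (by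
    rw [eval₂_sub, eval₂_X_pow, eval₂_C, neg_sq, ht, sub_eq_zero]
    rfl)
  have hσ0 : σ0 t = -t := AdjoinRoot.liftAlgHom_root _ _ _ _
  let σ : W ≃ₐ[K] W := AlgEquiv.ofBijective σ0 (Algebra.IsAlgebraic.algHom_bijective σ0)
  have hσ : σ t = -t := hσ0
  refine ⟨W, inferInstance, inferInstance, φ, t, hW, ht, ?_, ?_, hfφ, ?_, ?_⟩
  · have h4 := fdeg_sq hW t
    rw [ht, fd_tower, hfr] at h4
    omega
  · obtain ⟨⟨z, hz, hzg⟩, -, -⟩ := gonx hW
    rw [← hzg]
    obtain ⟨i, hi⟩ := push_ex (L := K) hz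
    exact ((gonx hK).2.1 _ hi).trans (push hK z i hi)
  · exact ((rng φ hφ).2.1).symm.trans hfr
  · intro w v hw
    exact unram_sqrt hK hfr σ ht hσ hx0 hev φ hφ w v hw

/-- The four even fibres of the square root of `(u - c 0) / (u - c 1)`. -/
theorem four_root {W : Type} [Field W] [Algebra k W] {u : K} (hu : Transcendental k u)
    {c : Fin 4 → k} (hc : Function.Injective c) (hev : ∀ i, EvVal u (c i)) (φ : K →ₐ[k] W)
    (hφ : ∀ w : Place k W, ∃ (e : ℤ) (P : Place k K), 0 < e ∧ ∀ g, w.ord (φ g) = e * P.ord g)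
    {t : W} (ht : t ^ 2 = φ ((u - algebraMap k K (c 0)) / (u - algebraMap k K (c 1)))) :
    ∃ c' : Fin 4 → k, Function.Injective c' ∧ ∀ i, EvVal t (c' i) := by
  have h01 : c 0 ≠ c 1 := hc.ne (by decide)
  have h20 : c 2 ≠ c 0 := hc.ne (by decide)
  have h21 : c 2 ≠ c 1 := hc.ne (by decide)
  have h30 : c 3 ≠ c 0 := hc.ne (by decide)
  have h31 : c 3 ≠ c 1 := hc.ne (by decide)
  have h32 : c 3 ≠ c 2 := hc.ne (by decide)
  obtain ⟨r, hr⟩ := IsAlgClosed.exists_pow_nat_eq ((c 2 - c 0) / (c 2 - c 1)) two_pos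
  obtain ⟨s, hs⟩ := IsAlgClosed.exists_pow_nat_eq ((c 3 - c 0) / (c 3 - c 1)) two_pos
  have hr' : r ^ 2 * (c 2 - c 1) = c 2 - c 0 := by
    rw [hr, div_mul_cancel₀ _ (sub_ne_zero.2 h21)]
  have hs' : s ^ 2 * (c 3 - c 1) = c 3 - c 0 := by
    rw [hs, div_mul_cancel₀ _ (sub_ne_zero.2 h31)]
  have hrs : r ^ 2 ≠ s ^ 2 := by
    intro h
    rw [← h] at hs'
    have h5 : (c 2 - c 3) * (c 0 - c 1) = 0 := by
      linear_combination (c 2 - c 1) * hs' - (c 3 - c 1) * hr'
    rcases mul_eq_zero.1 h5 with h6 | h6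
    · exact h32 (sub_eq_zero.1 h6).symm
    · exact h01 (sub_eq_zero.1 h6)
  have hr0 : r ≠ 0 := by
    rintro rfl
    rw [zero_pow two_ne_zero, zero_mul] at hr'
    exact h20 (sub_eq_zero.1 hr'.symm)
  have hs0 : s ≠ 0 := by
    rintro rfl
    rw [zero_pow two_ne_zero, zero_mul] at hs'
    exact h30 (sub_eq_zero.1 hs'.symm)
  have hrn : r ≠ -r := by
    intro h
    apply hr0
    have h5 : 2 * r = 0 := by linear_combination h
    exact (mul_eq_zero.1 h5).resolve_left two_ne_zero
  have hsn : s ≠ -s := by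
    intro h
    apply hs0
    have h5 : 2 * s = 0 := by linear_combination h
    exact (mul_eq_zero.1 h5).resolve_left two_ne_zero
  have n1 : r ≠ s := fun h => hrs (by rw [h])
  have n2 : r ≠ -s := fun h => hrs (by rw [h, neg_sq])
  have n3 : -r ≠ s := fun h => hrs (by rw [← h, neg_sq])
  have n4 : -r ≠ -s := fun h => n1 (neg_injective h)
  refine ⟨![r, -r, s, -s], ?_, ?_⟩
  · intro i j hij
    fin_cases i <;> fin_cases j <;>
      simp only [Fin.zero_eta, Fin.mk_one, Fin.reduceFinMk, Matrix.cons_val_zero, Matrix.cons_val_one,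
        Matrix.cons_val] at hij <;>
      first
      | rfl
      | exact absurd hij hrn
      | exact absurd hij hrn.symm
      | exact absurd hij hsn
      | exact absurd hij hsn.symm
      | exact absurd hij n1
      | exact absurd hij n1.symm
      | exact absurd hij n2
      | exact absurd hij n2.symm
      | exact absurd hij n3
      | exact absurd hij n3.symm
      | exact absurd hij n4
      | exact absurd hij n4.symm
  · intro i
    have m1 := ev_root hu h01 h20 h21 hr' (hev 2) φ hφ ht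
    have m2 := ev_root hu h01 h20 h21 (by rw [neg_sq]; exact hr') (hev 2) φ hφ ht (r := -r)
    have m3 := ev_root hu h01 h30 h31 hs' (hev 3) φ hφ ht
    have m4 := ev_root hu h01 h30 h31 (by rw [neg_sq]; exact hs') (hev 3) φ hφ ht (r := -s)
    fin_cases i
    · exact m1
    · exact m2
    · exact m3
    · exact m4

/-- One unramified double covering. -/
theorem four_step (hK : IsFunField k K) {F : ℕ} (h : FourEven k K F) :
    ∃ (W : Type) (_ : Field W) (_ : Algebra k W) (φ : K →ₐ[k] W), IsFunField k W ∧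
      FourEven k W F ∧ gon k K ≤ gon k W ∧ FiniteDimensional φ.fieldRange W ∧
        finrank φ.fieldRange W = 2 ∧
          ∀ (w : Place k W) (v : Place k K), Ov φ w v → ram φ w v = 1 := by
  have key : ∀ n : ℕ, ∀ (u : K) (c : Fin 4 → k), fdeg k u = n → 0 < n → n ≤ F →
      Function.Injective c → (∀ i, EvVal u (c i)) →
      ∃ (W : Type) (_ : Field W) (_ : Algebra k W) (φ : K →ₐ[k] W), IsFunField k W ∧
        FourEven k W F ∧ gon k K ≤ gon k W ∧ FiniteDimensional φ.fieldRange W ∧
          finrank φ.fieldRange W = 2 ∧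
            ∀ (w : Place k W) (v : Place k K), Ov φ w v → ram φ w v = 1 := by
    intro n
    induction n using Nat.strong_induction_on with
    | _ n ih =>
      intro u c hn h0 hF hc hev
      have hu : Transcendental k u := (fd_pos hK u).1 (by omega)
      have h01 : c 0 ≠ c 1 := hc.ne (by decide)
      have hdeg := fdeg_mob hK hu h01
      by_cases hsq : ∃ b : K, b ^ 2 = (u - algebraMap k K (c 0)) / (u - algebraMap k K (c 1))
      · obtain ⟨b, hb⟩ := hsq
        have h3 := fdeg_sq hK b
        rw [hb, hdeg] at h3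
        obtain ⟨c', hc', hev'⟩ := four_root hu hc hev (AlgHom.id k K)
          (fun w => ⟨1, w, one_pos, fun g => by rw [AlgHom.id_apply, one_mul]⟩) hb
        exact ih (fdeg k b) (by omega) b c' rfl (by omega) (by omega) hc' hev'
      · obtain ⟨W, iW, aW, φ, t, hW, ht, htd, hg, hfd, hfr, hur⟩ := sqrt_ext hK
          (x := (u - algebraMap k K (c 0)) / (u - algebraMap k K (c 1)))
          (fun b hb => hsq ⟨b, hb⟩) (even_div hu h01 (hev 0) (hev 1))
        obtain ⟨c', hc', hev'⟩ := four_root hu hc hev φ (fun w => by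
          obtain ⟨P, hP⟩ := ov_down φ w
          exact ⟨ram φ w P, P, (ov_spec hP).1, (ov_spec hP).2⟩) ht
        exact ⟨W, iW, aW, φ, hW, ⟨t, c', by omega, by omega, hc', hev'⟩, hg, hfd, hfr, hur⟩
  obtain ⟨u, c, h1, h2, h3, h4⟩ := h
  exact key _ u c rfl h1 h2 h3 h4

/-- Towers. -/
theorem four_tower (hK : IsFunField k K) {F : ℕ} (h : FourEven k K F) (n : ℕ) :
    ∃ (W : Type) (_ : Field W) (_ : Algebra k W) (φ : K →ₐ[k] W), IsFunField k W ∧
      FourEven k W F ∧ gon k K ≤ gon k W ∧ FiniteDimensional φ.fieldRange W ∧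
        finrank φ.fieldRange W = 2 ^ n ∧
          ∀ (w : Place k W) (v : Place k K), Ov φ w v → ram φ w v = 1 := by
  induction n with
  | zero =>
    have h3 : FiniteDimensional (AlgHom.id k K).fieldRange K := fin_rng (AlgHom.id k K) (fun _ => rfl)
    obtain ⟨e1, e2, e3⟩ := rng (AlgHom.id k K) (fun _ => rfl)
    refine ⟨K, inferInstance, inferInstance, AlgHom.id k K, hK, h, le_rfl, h3, ?_, ?_⟩
    · rw [← e2, finrank_self, pow_zero]
    · intro w v hw
      have hself : Ov (AlgHom.id k K) w w := ⟨1, one_pos, fun g => by rw [AlgHom.id_apply, one_mul]⟩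
      rw [← ov_uniq hself hw]
      exact w.ord_unif
  | succ n ih =>
    obtain ⟨W, iW, aW, φ, hW, hgW, hg, hf, hd, hu⟩ := ih
    obtain ⟨V, iV, aV, ψ, hV, hgV, hg', hf', hd', hu'⟩ := four_step hW hgW
    obtain ⟨h3, h4⟩ := fr_comp φ ψ
    refine ⟨V, iV, aV, ψ.comp φ, hV, hgV, hg.trans hg', h3, ?_, ?_⟩
    · rw [h4, hd, hd', pow_succ]
    · intro w v hw
      obtain ⟨u, hu1⟩ := ov_down ψ w
      obtain ⟨v', hv'⟩ := ov_down φ u
      obtain ⟨h5, h6⟩ := ov_comp hv' hu1
      have h7 := ov_uniq h5 hw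
      rw [← h7, h6, hu' w u hu1, hu u v' hv', mul_one]

omit [IsAlgClosed k] [CharZero k] in
theorem four_gon (hK : IsFunField k K) {F : ℕ} (h : FourEven k K F) : gon k K ≤ F := by
  obtain ⟨u, c, h1, h2, h3, h4⟩ := h
  exact ((gonx hK).2.1 u ((fd_pos hK u).1 h1)).trans h2

omit [IsAlgClosed k] [CharZero k] in
/-- The correspondence degree of a covering which factors through `W`. -/
theorem corr_factor2 {W L : Type} [Field W] [Field L] [Algebra k W] [Algebra k L]
    (hK : IsFunField k K) (hW : IsFunField k W)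
    (φ : K →ₐ[k] W) [FiniteDimensional φ.fieldRange W] (ψ : W →ₐ[k] L)
    [FiniteDimensional ψ.fieldRange L] :
    corrDeg k L K ≤ finrank ψ.fieldRange L * (gon k W * gon k K) := by
  let _ : Algebra K W := φ.toRingHom.toAlgebra
  let _ : Algebra W L := ψ.toRingHom.toAlgebra
  let _ : Algebra K L := (ψ.comp φ).toRingHom.toAlgebra
  have : IsScalarTower K W L := IsScalarTower.of_algebraMap_eq fun _ => rfl
  obtain ⟨f1, f2, f3⟩ := rng φ (fun _ => rfl)
  obtain ⟨g1, g2, g3⟩ := rng ψ (fun _ => rfl)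
  have h1 : FiniteDimensional K L := Module.Finite.trans W L
  have h5 : FiniteDimensional (ψ.comp φ).fieldRange L := fin_rng (ψ.comp φ) (fun _ => rfl)
  obtain ⟨e1, e2, e3⟩ := rng (ψ.comp φ) (fun _ => rfl)
  have h3 := ble (k := k) (K := K) (W := W) (L := L)
  have h4 := corrDeg_le_gon hW hK
  rw [← g2]
  exact h3.trans (Nat.mul_le_mul_left _ h4)

/-- The main statement. -/
theorem four_towers (hK : IsFunField k K) {F : ℕ} (h : FourEven k K F) (n : ℕ) :
    ∃ (W : Type) (_ : Field W) (_ : Algebra k W) (φ : K →ₐ[k] W), IsFunField k W ∧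
      gon k K ≤ gon k W ∧ gon k W ≤ F ∧ FiniteDimensional φ.fieldRange W ∧
        finrank φ.fieldRange W = 2 ^ n ∧
        (∀ (w : Place k W) (v : Place k K), Ov φ w v → ram φ w v = 1) ∧
          ∀ (L : Type) [Field L] [Algebra k L] (ψ : W →ₐ[k] L),
            FiniteDimensional ψ.fieldRange L →
              finrank (ψ.comp φ).fieldRange L = 2 ^ n * finrank ψ.fieldRange L ∧
                corrDeg k L K ≤ F * gon k K * finrank ψ.fieldRange L ∧
                  (F * gon k K < 2 ^ n → corrDeg k L K < finrank (ψ.comp φ).fieldRange L) := by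
  obtain ⟨W, iW, aW, φ, hW, h4, hg, hf, hd, hu⟩ := four_tower hK h n
  have hgW := four_gon hW h4
  refine ⟨W, iW, aW, φ, hW, hg, hgW, hf, hd, hu, fun L _ _ ψ hψ => ?_⟩
  obtain ⟨h3, h4⟩ := fr_comp φ ψ
  rw [hd] at h4
  have h5 := corr_factor2 hK hW φ ψ
  have h6 : 0 < finrank ψ.fieldRange L := finrank_pos
  have h7 : corrDeg k L K ≤ F * gon k K * finrank ψ.fieldRange L := by
    refine h5.trans ?_
    rw [mul_comm]
    exact Nat.mul_le_mul_right _ (Nat.mul_le_mul_right _ hgW)
  refine ⟨h4, h7, fun hn => ?_⟩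
  rw [h4]
  exact lt_of_le_of_lt h7 (Nat.mul_lt_mul_of_pos_right hn h6)

end step

end Pool.Agent.CorF
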