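import Pool.Agent.CorF.Twr3

/-! # Curves of gonality two have four even fibres -/

set_option autoImplicit false

open Module Polynomial

open scoped Classical

noncomputable section

namespace Pool.Agent.CorF

open Pool.Agent.EllHiggs Pool.Agent.CorD Pool.Agent.MP_b814b1_ag

variable {k K : Type} [Field k] [Field K] [Algebra k K] [IsAlgClosed k] [CharZero k]

/-- `y ^ 2 = p (x)` with `p` squarefree of degree at least three. -/
theorem branch_data (hK : IsFunField k K) (h2 : gon k K = 2) :
    ∃ (x y : K) (p : k[X]), Transcendental k x ∧ fdeg k x = 2 ∧ y ^ 2 = aeval x p ∧ p ≠ 0 ∧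
      (∀ (a : k) (q : k[X]), p = (X - C a) * q → q.eval a ≠ 0) ∧ 3 ≤ p.natDegree := by
  obtain ⟨⟨x, hx, hxg⟩, hmin, -⟩ := gonx hK
  rw [h2] at hxg hmin
  set F := IntermediateField.adjoin k {x} with hF
  have hex : ∃ n : ℕ, ∃ (p : k[X]) (y : K), p.natDegree = n ∧ y ∉ F ∧ y ^ 2 = aeval x p := by
    obtain ⟨p, y, h3, h4⟩ := quad_eq hxg
    exact ⟨_, p, y, rfl, h3, h4⟩
  obtain ⟨p, y, hpn, hyF, hyp⟩ := Nat.find_spec hex
  have hmin' : ∀ (q : k[X]) (z : K), z ∉ F → z ^ 2 = aeval x q → p.natDegree ≤ q.natDegree := by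
    intro q z h3 h4
    rw [hpn]
    exact Nat.find_min' hex ⟨q, z, rfl, h3, h4⟩
  have hy0 : y ≠ 0 := by
    rintro rfl
    exact hyF F.zero_mem
  have hp0 : p ≠ 0 := by
    rintro rfl
    rw [map_zero] at hyp
    exact hy0 (pow_eq_zero_iff two_ne_zero |>.1 hyp)
  have hxa : ∀ a : k, x - algebraMap k K a ≠ 0 := tr_shift hx
  have hxF : ∀ a : k, x - algebraMap k K a ∈ F := fun a =>
    F.sub_mem (IntermediateField.mem_adjoin_simple_self k x) (F.algebraMap_mem a)
  have hsq : ∀ (a : k) (q : k[X]), p = (X - C a) * q → q.eval a ≠ 0 := by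
    intro a q h3 h4
    obtain ⟨r, hr⟩ := dvd_iff_isRoot.2 (show q.IsRoot a from h4)
    have h5 : (y / (x - algebraMap k K a)) ∉ F := by
      intro h6
      have h7 := F.mul_mem h6 (hxF a)
      rw [div_mul_cancel₀ _ (hxa a)] at h7
      exact hyF h7
    have h6 : (y / (x - algebraMap k K a)) ^ 2 = aeval x r := by
      rw [div_pow, hyp, h3, hr]
      simp only [map_mul, map_sub, aeval_X, aeval_C]
      have := hxa a
      field_simp
    have h7 := hmin' r _ h5 h6
    have hr0 : r ≠ 0 := by
      rintro rfl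
      rw [mul_zero] at hr
      rw [hr, mul_zero] at h3
      exact hp0 h3
    have h8 : p.natDegree = r.natDegree + 2 := by
      rw [h3, hr, natDegree_mul (X_sub_C_ne_zero a) (mul_ne_zero (X_sub_C_ne_zero a) hr0),
        natDegree_mul (X_sub_C_ne_zero a) hr0, natDegree_X_sub_C]
      ring
    omega
  have hd0 : p.natDegree ≠ 0 := by
    intro h3
    rw [eq_C_of_natDegree_eq_zero h3, aeval_C] at hyp
    obtain ⟨z, hz⟩ := IsAlgClosed.exists_pow_nat_eq (p.coeff 0) (two_pos)
    rw [← hz, map_pow] at hyp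
    rcases sq_eq_sq_iff_eq_or_eq_neg.1 hyp with h4 | h4
    · rw [h4] at hyF
      exact hyF (F.algebraMap_mem z)
    · rw [h4] at hyF
      exact hyF (F.neg_mem (F.algebraMap_mem z))
  have hno : ∀ z : K, fdeg k (z ^ 2) ≠ 2 := by
    intro z h5
    rw [fdeg_sq hK] at h5
    have h6 : fdeg k z = 1 := by omega
    have h7 := hmin z ((fd_pos hK z).1 (by omega))
    omega
  have hd1 : p.natDegree ≠ 1 := by
    intro h3
    obtain ⟨a, ha, b, hab⟩ := natDegree_eq_one.1 h3
    have h4 : y ^ 2 = algebraMap k K a * (x - algebraMap k K (-(b / a))) := by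
      rw [hyp, ← hab]
      simp only [map_add, map_mul, aeval_X, aeval_C, map_neg, map_div₀]
      have : algebraMap k K a ≠ 0 := by rwa [Ne, FaithfulSMul.algebraMap_eq_zero_iff]
      field_simp
      ring
    refine hno y ?_
    have h6 := pol_form hK (y ^ 2)
    have h7 := pol_form hK (x - algebraMap k K (-(b / a)))
    rw [fdeg_shift hK, hxg] at h7
    have h8 : ∀ v : Place k K, max 0 (-(v.ord (y ^ 2))) =
        max 0 (-(v.ord (x - algebraMap k K (-(b / a))))) := by
      intro v
      have : algebraMap k K a ≠ 0 := by rwa [Ne, FaithfulSMul.algebraMap_eq_zero_iff]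
      rw [h4, v.ord_mul _ _ this (hxa _), v.ord_const, zero_add]
    rw [finsum_congr h8, h7] at h6
    exact_mod_cast h6.symm
  have hd2 : p.natDegree ≠ 2 := by
    intro h3
    obtain ⟨a, ha⟩ := IsAlgClosed.exists_root p (by
      rw [degree_eq_natDegree hp0]
      exact_mod_cast hd0)
    obtain ⟨q, hq⟩ := dvd_iff_isRoot.2 ha
    have hq0 : q ≠ 0 := by
      rintro rfl
      rw [mul_zero] at hq
      exact hp0 hq
    have hqd : q.natDegree = 1 := by
      rw [hq, natDegree_mul (X_sub_C_ne_zero a) hq0, natDegree_X_sub_C] at h3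
      omega
    obtain ⟨b, hb⟩ := IsAlgClosed.exists_root q (by
      rw [degree_eq_natDegree hq0, hqd]
      exact one_ne_zero)
    have hab : a ≠ b := by
      rintro rfl
      exact hsq a q hq hb
    obtain ⟨r, hr⟩ := dvd_iff_isRoot.2 hb
    have hr0 : r ≠ 0 := by
      rintro rfl
      rw [mul_zero] at hr
      exact hq0 hr
    have hrd : r.natDegree = 0 := by
      rw [hr, natDegree_mul (X_sub_C_ne_zero b) hr0, natDegree_X_sub_C] at hqd
      omega
    obtain ⟨g, hg⟩ := IsAlgClosed.exists_pow_nat_eq (r.coeff 0) (two_pos)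
    have hg0 : g ≠ 0 := by
      rintro rfl
      rw [zero_pow two_ne_zero] at hg
      apply hr0
      rw [eq_C_of_natDegree_eq_zero hrd, ← hg, map_zero]
    have hg' : algebraMap k K g ≠ 0 := by rwa [Ne, FaithfulSMul.algebraMap_eq_zero_iff]
    have h4 : y ^ 2 = (x - algebraMap k K a) * ((x - algebraMap k K b) * (algebraMap k K g) ^ 2) := by
      rw [hyp, hq, hr, eq_C_of_natDegree_eq_zero hrd, ← hg]
      simp only [map_mul, map_sub, aeval_X, aeval_C, map_pow]
    refine hno (y / (algebraMap k K g * (x - algebraMap k K b))) ?_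
    have h5 : (y / (algebraMap k K g * (x - algebraMap k K b))) ^ 2 =
        (x - algebraMap k K a) / (x - algebraMap k K b) := by
      have := hxa b
      rw [div_pow, h4]
      field_simp
    rw [h5, fdeg_mob hK hx hab, hxg]
  exact ⟨x, y, p, hx, hxg, hyp, hp0, hsq, by omega⟩

theorem inj_four {S : Type} {a b c d : S} (h1 : a ≠ b) (h2 : a ≠ c) (h3 : a ≠ d) (h4 : b ≠ c) (h5 : b ≠ d)
    (h6 : c ≠ d) : Function.Injective ![a, b, c, d] := by
  intro i j hij
  fin_cases i <;> fin_cases j <;>
    simp only [Fin.zero_eta, Fin.mk_one, Fin.reduceFinMk, Matrix.cons_val_zero, Matrix.cons_val_one,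
      Matrix.cons_val] at hij <;>
    first
    | rfl
    | exact absurd hij h1
    | exact absurd hij h1.symm
    | exact absurd hij h2
    | exact absurd hij h2.symm
    | exact absurd hij h3
    | exact absurd hij h3.symm
    | exact absurd hij h4
    | exact absurd hij h4.symm
    | exact absurd hij h5
    | exact absurd hij h5.symm
    | exact absurd hij h6
    | exact absurd hij h6.symm

theorem four_of_gon (hK : IsFunField k K) (h2 : gon k K = 2) : FourEven k K 2 := by
  obtain ⟨x, y, p, hx, hxg, hyp, hp0, hsq, hd⟩ := branch_data hK h2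
  have hxa := tr_shift hx
  have heven : ∀ (c : k), p.IsRoot c → EvVal x c := by
    intro c hc v hv
    obtain ⟨r, hr⟩ := dvd_iff_isRoot.2 hc
    obtain ⟨h3, h4⟩ := ord_poly_unit v hv r (hsq c r hr)
    have h5 : v.ord (y ^ 2) = v.ord (x - algebraMap k K c) := by
      rw [hyp, hr, map_mul, v.ord_mul _ _ (by simpa using hxa c) h4, h3, add_zero]
      simp
    rw [v.ord_pow] at h5
    push_cast at h5
    exact ⟨v.ord y, h5.symm⟩
  obtain ⟨a, ha⟩ := IsAlgClosed.exists_root p (by
    rw [degree_eq_natDegree hp0]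
    exact_mod_cast (by omega : p.natDegree ≠ 0))
  obtain ⟨q, hq⟩ := dvd_iff_isRoot.2 ha
  have hq0 : q ≠ 0 := by
    rintro rfl
    rw [mul_zero] at hq
    exact hp0 hq
  have hqd : 2 ≤ q.natDegree := by
    rw [hq, natDegree_mul (X_sub_C_ne_zero a) hq0, natDegree_X_sub_C] at hd
    omega
  obtain ⟨b, hb⟩ := IsAlgClosed.exists_root q (by
    rw [degree_eq_natDegree hq0]
    exact_mod_cast (by omega : q.natDegree ≠ 0))
  obtain ⟨r, hr⟩ := dvd_iff_isRoot.2 hb
  have hr0 : r ≠ 0 := by
    rintro rfl
    rw [mul_zero] at hr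
    exact hq0 hr
  have hrd : 1 ≤ r.natDegree := by
    rw [hr, natDegree_mul (X_sub_C_ne_zero b) hr0, natDegree_X_sub_C] at hqd
    omega
  obtain ⟨c, hc⟩ := IsAlgClosed.exists_root r (by
    rw [degree_eq_natDegree hr0]
    exact_mod_cast (by omega : r.natDegree ≠ 0))
  obtain ⟨s, hs⟩ := dvd_iff_isRoot.2 hc
  have hs0 : s ≠ 0 := by
    rintro rfl
    rw [mul_zero] at hs
    exact hr0 hs
  have hbp : p.IsRoot b := by
    rw [IsRoot, hq, eval_mul, hb, mul_zero]
  have hcp : p.IsRoot c := by
    rw [IsRoot, hq, hr, eval_mul, eval_mul, hc, mul_zero, mul_zero]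
  have hab : a ≠ b := by
    rintro rfl
    exact hsq a q hq hb
  have hac : a ≠ c := by
    rintro rfl
    refine hsq a q hq ?_
    rw [hr, eval_mul, hc, mul_zero]
  have hbc : b ≠ c := by
    rintro rfl
    refine hsq b ((X - C a) * r) ?_ ?_
    · rw [hq, hr]; ring
    · rw [eval_mul, hc, mul_zero]
  by_cases hsd : s.natDegree = 0
  · have hl0 : s.coeff 0 ≠ 0 := by
      intro h
      apply hs0
      rw [eq_C_of_natDegree_eq_zero hsd, h, map_zero]
    have hl' : algebraMap k K (s.coeff 0) ≠ 0 := by rwa [Ne, FaithfulSMul.algebraMap_eq_zero_iff]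
    have h4 : y ^ 2 = (x - algebraMap k K a) * ((x - algebraMap k K b) *
        ((x - algebraMap k K c) * algebraMap k K (s.coeff 0))) := by
      rw [hyp, hq, hr, hs, eq_C_of_natDegree_eq_zero hsd]
      simp only [map_mul, map_sub, aeval_X, aeval_C, coeff_C_zero]
    obtain ⟨e, he⟩ := Infinite.exists_notMem_finset ({a, b, c} : Finset k)
    simp only [Finset.mem_insert, Finset.mem_singleton, not_or] at he
    obtain ⟨hea, heb, hec⟩ := he
    have hval : ∀ d : k, EvVal x d → d ≠ e → EvVal ((x - algebraMap k K e)⁻¹) ((d - e)⁻¹) := by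
      intro d hd hde v hv
      have hde' : algebraMap k K (d - e) ≠ 0 := by
        rw [Ne, FaithfulSMul.algebraMap_eq_zero_iff]
        exact sub_ne_zero.2 hde
      have h5 : (x - algebraMap k K e)⁻¹ - algebraMap k K ((d - e)⁻¹) =
          algebraMap k K (-(d - e)⁻¹) * ((x - algebraMap k K d) / (x - algebraMap k K e)) := by
        have := hxa e
        rw [map_neg, map_inv₀]
        field_simp
        rw [map_sub]
        ring
      have h6 : v.ord ((x - algebraMap k K e)⁻¹ - algebraMap k K ((d - e)⁻¹)) =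
          v.ord (x - algebraMap k K d) - v.ord (x - algebraMap k K e) := by
        rw [h5, v.ord_mul _ _ ?_ (div_ne_zero (hxa d) (hxa e)), v.ord_const, zero_add,
          v.ord_div _ _ (hxa d) (hxa e)]
        rw [Ne, FaithfulSMul.algebraMap_eq_zero_iff, neg_eq_zero]
        exact inv_ne_zero (sub_ne_zero.2 hde)
      rw [h6] at hv ⊢
      rcases mob_cases v x hde with ⟨h7, h8⟩ | ⟨h7, h8⟩ | ⟨h7, h8⟩
      · obtain ⟨m, hm⟩ := hd v h7
        exact ⟨m, by rw [h8, hm, sub_zero]⟩
      · omega
      · omega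
    have hinf : EvVal ((x - algebraMap k K e)⁻¹) (0 : k) := by
      intro v hv
      have h5 : v.ord ((x - algebraMap k K e)⁻¹ - algebraMap k K 0) =
          -(v.ord (x - algebraMap k K e)) := by
        rw [map_zero, sub_zero, v.ord_inv]
      rw [h5] at hv ⊢
      have h6 : ∀ d : k, v.ord (x - algebraMap k K d) = v.ord (x - algebraMap k K e) := by
        intro d
        have h7 := ord_neg_shift v (y := x - algebraMap k K e) (by omega) (d - e)
        rw [← h7]
        congr 1
        rw [map_sub]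
        ring
      have h7 := congrArg v.ord h4
      rw [v.ord_pow, v.ord_mul _ _ (hxa a) (mul_ne_zero (hxa b) (mul_ne_zero (hxa c) hl')),
        v.ord_mul _ _ (hxa b) (mul_ne_zero (hxa c) hl'), v.ord_mul _ _ (hxa c) hl', v.ord_const,
        h6 a, h6 b, h6 c] at h7
      push_cast at h7
      exact ⟨v.ord (x - algebraMap k K e) - v.ord y, by linarith⟩
    have hinv : ∀ d d' : k, d ≠ e → d' ≠ e → d ≠ d' → (d - e)⁻¹ ≠ (d' - e)⁻¹ := by
      intro d d' h5 h6 h7 h8
      apply h7
      have h9 := inv_injective h8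
      linear_combination h9
    have hnz : ∀ d : k, d ≠ e → (d - e)⁻¹ ≠ 0 := fun d hd => inv_ne_zero (sub_ne_zero.2 hd)
    have hfd : fdeg k ((x - algebraMap k K e)⁻¹) = 2 := by
      have h3 := pol_form hK ((x - algebraMap k K e)⁻¹)
      have htr : Transcendental k (x - algebraMap k K e) := by
        refine (fd_pos hK _).1 ?_
        rw [fdeg_shift hK]
        exact (fd_pos hK _).2 hx
      have h4 := zer_form hK htr
      rw [fdeg_shift hK, hxg] at h4
      have h5 : ∀ v : Place k K, max 0 (-(v.ord ((x - algebraMap k K e)⁻¹))) =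
          max 0 (v.ord (x - algebraMap k K e)) := by
        intro v
        rw [v.ord_inv, neg_neg]
      rw [finsum_congr h5, h4] at h3
      exact_mod_cast h3.symm
    refine ⟨(x - algebraMap k K e)⁻¹, ![(a - e)⁻¹, (b - e)⁻¹, (c - e)⁻¹, 0], by omega, by omega,
      inj_four (hinv a b (Ne.symm hea) (Ne.symm heb) hab) (hinv a c (Ne.symm hea) (Ne.symm hec) hac)
        (hnz a (Ne.symm hea)) (hinv b c (Ne.symm heb) (Ne.symm hec) hbc) (hnz b (Ne.symm heb))
        (hnz c (Ne.symm hec)), ?_⟩
    intro i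
    have m1 := hval a (heven a ha) (Ne.symm hea)
    have m2 := hval b (heven b hbp) (Ne.symm heb)
    have m3 := hval c (heven c hcp) (Ne.symm hec)
    fin_cases i
    · exact m1
    · exact m2
    · exact m3
    · exact hinf
  · obtain ⟨d, hdr⟩ := IsAlgClosed.exists_root s (by
      rw [degree_eq_natDegree hs0]
      exact_mod_cast hsd)
    have hdp : p.IsRoot d := by
      rw [IsRoot, hq, hr, hs, eval_mul, eval_mul, eval_mul, hdr, mul_zero, mul_zero, mul_zero]
    have had : a ≠ d := by
      rintro rfl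
      refine hsq a q hq ?_
      rw [hr, hs, eval_mul, eval_mul, hdr, mul_zero, mul_zero]
    have hbd : b ≠ d := by
      rintro rfl
      refine hsq b ((X - C a) * r) ?_ ?_
      · rw [hq, hr]; ring
      · rw [hs, eval_mul, eval_mul, hdr, mul_zero, mul_zero]
    have hcd : c ≠ d := by
      rintro rfl
      refine hsq c ((X - C a) * ((X - C b) * s)) ?_ ?_
      · rw [hq, hr, hs]; ring
      · rw [eval_mul, eval_mul, hdr, mul_zero, mul_zero]
    refine ⟨x, ![a, b, c, d], by omega, by omega, inj_four hab hac had hbc hbd hcd, ?_⟩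
    intro i
    have m1 := heven a ha
    have m2 := heven b hbp
    have m3 := heven c hcp
    have m4 := heven d hdp
    fin_cases i
    · exact m1
    · exact m2
    · exact m3
    · exact m4

end Pool.Agent.CorF
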